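import Mathlib

/-!
# Definitions: perfect state transfer, and the least size of a connected graph admitting it
-/

namespace MP_8f05cb_co

open scoped Matrix

open scoped Classical in
/-- The transition matrix `U(t) = exp(i t A)` of the continuous-time quantum walk on the finite
simple graph `G` with adjacency matrix `A`. -/
noncomputable def transition {V : Type} [Fintype V] (G : SimpleGraph V) (t : ℝ) : Matrix V V ℂ :=
  NormedSpace.exp ((Complex.I * (t : ℂ)) • G.adjMatrix ℂ)

open scoped Classical in
/-- `G` admits perfect state transfer between `u` and `v` at time `t`: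
`U(t) e_u = γ e_v` for some complex number `γ` of modulus `1`. -/
def PSTAt {V : Type} [Fintype V] (G : SimpleGraph V) (u v : V) (t : ℝ) : Prop :=
  ∃ γ : ℂ, ‖γ‖ = 1 ∧ transition G t *ᵥ (Pi.single u 1) = γ • Pi.single v 1

/-- `G` admits perfect state transfer between some pair of distinct vertices at some time. -/
def HasPST {V : Type} [Fintype V] (G : SimpleGraph V) : Prop :=
  ∃ u v : V, u ≠ v ∧ ∃ t : ℝ, PSTAt G u v t

/-- `m(n)`: the least number of edges of a connected simple graph on `n` vertices admitting
perfect state transfer between some pair of distinct vertices at some time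
(`⊤` if there is no such graph). -/
noncomputable def m (n : ℕ) : ℕ∞ :=
  ⨅ (G : SimpleGraph (Fin n)) (_ : G.Connected ∧ HasPST G), (G.edgeSet.ncard : ℕ∞)

end MP_8f05cb_co
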