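import Mathlib
import Pool.Agent.Lib.MP_8f05cb_co.Defs

namespace MP_8f05cb_co

open scoped Matrix

section ExpVec

variable {V : Type} [Fintype V] [DecidableEq V]

attribute [local instance] Matrix.linftyOpNormedRing Matrix.linftyOpNormedAlgebra

/-- The exponential of a matrix acts on an eigenvector by the exponential of the eigenvalue. -/
theorem exp_mulVec_eigen (M : Matrix V V ℂ) (v : V → ℂ) (c : ℂ) (h : M *ᵥ v = c • v) :
    NormedSpace.exp M *ᵥ v = Complex.exp c • v := by
  have hpow : ∀ n : ℕ, (M ^ n) *ᵥ v = c ^ n • v := by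
    intro n
    induction n with
    | zero => simp
    | succ n ih =>
      rw [pow_succ, ← Matrix.mulVec_mulVec, h, Matrix.mulVec_smul, ih, smul_smul, pow_succ,
        mul_comm]
  have h1 : HasSum (fun n : ℕ => ((n.factorial : ℂ)⁻¹) • M ^ n) (NormedSpace.exp M) :=
    NormedSpace.exp_series_hasSum_exp' (𝕂 := ℂ) M
  have h2 : HasSum (fun n : ℕ => (((n.factorial : ℂ)⁻¹) • M ^ n) *ᵥ v)
      (NormedSpace.exp M *ᵥ v) := by
    have hc : Continuous fun N : Matrix V V ℂ => N *ᵥ v := by fun_prop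
    exact h1.map (Matrix.mulVec.addMonoidHomLeft v) hc
  have h3 : HasSum (fun n : ℕ => ((n.factorial : ℂ)⁻¹ • c ^ n)) (Complex.exp c) := by
    have := NormedSpace.exp_series_hasSum_exp' (𝕂 := ℂ) c
    rwa [← Complex.exp_eq_exp_ℂ] at this
  have h4 : HasSum (fun n : ℕ => (((n.factorial : ℂ)⁻¹ • c ^ n)) • v) (Complex.exp c • v) :=
    h3.smul_const v
  have h5 : (fun n : ℕ => (((n.factorial : ℂ)⁻¹) • M ^ n) *ᵥ v) =
      fun n : ℕ => (((n.factorial : ℂ)⁻¹ • c ^ n)) • v := by
    funext n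
    rw [Matrix.smul_mulVec, hpow, smul_assoc]
  rw [h5] at h2
  exact h2.unique h4

end ExpVec

end MP_8f05cb_co
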