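import Mathlib
import Pool.Agent.Lib.MP_8f05cb_co.ExpVec

namespace MP_8f05cb_co

open scoped Matrix

variable {V : Type} [Fintype V] [DecidableEq V]

/-- Decomposition of a vector into eigenvectors of a Hermitian matrix, for distinct eigenvalues. -/
theorem exists_spectral_decomp (A : Matrix V V ℂ) (hA : A.IsHermitian) (e : V → ℂ) :
    ∃ (S : Finset ℝ) (x : ℝ → V → ℂ), (∀ l ∈ S, x l ≠ 0) ∧
      (∀ l ∈ S, A *ᵥ x l = (l : ℂ) • x l) ∧ e = ∑ l ∈ S, x l := by
  classical
  let b := hA.eigenvectorBasis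
  let e' : EuclideanSpace ℂ V := WithLp.toLp 2 e
  have h1 : ∑ i, b.repr e' i • b i = e' := b.sum_repr e'
  have h2 : e = ∑ i, (b.repr e' i) • (b i : V → ℂ) := by
    funext v
    have := congrArg (fun y : EuclideanSpace ℂ V => y v) h1
    simp only [Finset.sum_apply, Pi.smul_apply]
    simpa [e'] using this.symm
  let x : ℝ → V → ℂ := fun l => ∑ i ∈ Finset.univ.filter (fun i => hA.eigenvalues i = l),
    (b.repr e' i) • (b i : V → ℂ)
  refine ⟨(Finset.univ.image hA.eigenvalues).filter (fun l => x l ≠ 0), x, ?_, ?_, ?_⟩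
  · intro l hl
    exact (Finset.mem_filter.1 hl).2
  · intro l _
    simp only [x]
    rw [Matrix.mulVec_sum, Finset.smul_sum]
    refine Finset.sum_congr rfl fun i hi => ?_
    rw [Finset.mem_filter] at hi
    rw [Matrix.mulVec_smul, hA.mulVec_eigenvectorBasis, hi.2, smul_comm]
    congr 1
  · rw [Finset.sum_filter_of_ne (fun l _ h => h)]
    rw [h2]
    exact (Finset.sum_fiberwise_of_maps_to (fun i _ => Finset.mem_image_of_mem _ (Finset.mem_univ i))
      (fun i => (b.repr e' i) • (b i : V → ℂ))).symm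

/-- Eigenvectors of distinct eigenvalues are linearly independent. -/
theorem coeff_eq_zero (A : Matrix V V ℂ) (S : Finset ℝ) (x : ℝ → V → ℂ)
    (h0 : ∀ l ∈ S, x l ≠ 0) (h1 : ∀ l ∈ S, A *ᵥ x l = (l : ℂ) • x l) (c : ℝ → ℂ)
    (hc : ∑ l ∈ S, c l • x l = 0) : ∀ l ∈ S, c l = 0 := by
  have hli : LinearIndependent ℂ (fun l : S => x l) := by
    refine Module.End.eigenvectors_linearIndependent' (Matrix.toLin' A) (fun l : S => ((l : ℝ) : ℂ))
      ?_ _ ?_
    · intro l m h
      exact Subtype.ext (Complex.ofReal_injective h)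
    · intro l
      refine ⟨?_, h0 _ l.2⟩
      rw [Module.End.mem_eigenspace_iff, Matrix.toLin'_apply]
      exact h1 _ l.2
  rw [Fintype.linearIndependent_iff] at hli
  have := hli (fun l => c l) (by
    rw [← hc]
    exact Finset.sum_coe_sort S (fun l => c l • x l))
  intro l hl
  exact this ⟨l, hl⟩

theorem aeval_mulVec_eigen {R : Type} [CommRing R] (A : Matrix V V R) (v : V → R) (l : R)
    (h : A *ᵥ v = l • v) (p : Polynomial R) :
    (Polynomial.aeval A p) *ᵥ v = p.eval l • v := by
  have hpow : ∀ n : ℕ, (A ^ n) *ᵥ v = l ^ n • v := by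
    intro n
    induction n with
    | zero => simp
    | succ n ih =>
      rw [pow_succ, ← Matrix.mulVec_mulVec, h, Matrix.mulVec_smul, ih, smul_smul, pow_succ,
        mul_comm]
  induction p using Polynomial.induction_on' with
  | add p q hp hq => rw [map_add, Matrix.add_mulVec, hp, hq, Polynomial.eval_add, add_smul]
  | monomial n a =>
    rw [Polynomial.aeval_monomial, Polynomial.eval_monomial, ← Matrix.mulVec_mulVec, hpow,
      Algebra.algebraMap_eq_smul_one, Matrix.smul_mulVec, Matrix.one_mulVec, smul_smul]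

end MP_8f05cb_co
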