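import Mathlib
import Pool.Agent.Lib.MP_8f05cb_co.Spectral

namespace MP_8f05cb_co

open scoped Matrix

variable {V : Type} [Fintype V] [DecidableEq V]

/-- A finite set of integer multiples of a real number generates a cyclic group. -/
theorem exists_generator (S : Finset ℝ) (w0 : ℝ)
    (h : ∀ l ∈ S, ∃ k : ℤ, l = k * w0) (hne : ∃ l ∈ S, l ≠ 0) :
    ∃ g : ℕ, 0 < g ∧ ((g : ℝ) * w0) ∈ AddSubgroup.closure (S : Set ℝ) ∧
      ∀ l ∈ S, ∃ k : ℤ, l = k * (g * w0) := by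
  have h1 : AddSubgroup.closure (S : Set ℝ) ≤ AddSubgroup.zmultiples w0 := by
    rw [AddSubgroup.closure_le]
    intro l hl
    obtain ⟨k, hk⟩ := h l hl
    rw [SetLike.mem_coe, AddSubgroup.mem_zmultiples_iff]
    exact ⟨k, by rw [hk, zsmul_eq_mul]⟩
  obtain ⟨g, hg⟩ := (AddSubgroup.le_zmultiples_iff _ _).1 h1
  have h2 : ∀ l ∈ S, ∃ k : ℤ, l = k * (g * w0) := by
    intro l hl
    have : l ∈ AddSubgroup.zmultiples (g • w0) := by
      rw [← hg]
      exact AddSubgroup.subset_closure hl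
    rw [AddSubgroup.mem_zmultiples_iff] at this
    obtain ⟨k, hk⟩ := this
    exact ⟨k, by rw [← hk, zsmul_eq_mul, nsmul_eq_mul]⟩
  refine ⟨g, ?_, ?_, h2⟩
  · rcases Nat.eq_zero_or_pos g with h0 | h0
    · exfalso
      obtain ⟨l, hl, hl0⟩ := hne
      obtain ⟨k, hk⟩ := h2 l hl
      rw [h0] at hk
      apply hl0
      rw [hk]
      simp
    · exact h0
  · rw [hg, AddSubgroup.mem_zmultiples_iff]
    exact ⟨1, by rw [one_zsmul, nsmul_eq_mul]⟩

/-- a rational-linear retraction of the complex numbers on the rationals -/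
theorem exists_retraction : ∃ φ : ℂ →ₗ[ℚ] ℚ, ∀ q : ℚ, φ (q : ℂ) = q := by
  obtain ⟨φ, hφ⟩ := LinearMap.exists_leftInverse_of_injective (Algebra.linearMap ℚ ℂ)
    (LinearMap.ker_eq_bot.2 (FaithfulSMul.algebraMap_injective ℚ ℂ))
  refine ⟨φ, fun q => ?_⟩
  have := LinearMap.congr_fun hφ q
  simpa using this

open Polynomial in
/-- The sum of the distinct squared eigenvalues in the support of a rational vector under a
rational matrix is rational. -/
theorem rational_sum_sq (A : Matrix V V ℂ) (A0 : Matrix V V ℚ)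
    (hA : A = A0.map (fun q : ℚ => (q : ℂ))) (e : V → ℂ) (e0 : V → ℚ)
    (he : e = fun v => (e0 v : ℂ)) (S : Finset ℝ) (x : ℝ → V → ℂ)
    (h0 : ∀ l ∈ S, x l ≠ 0) (h1 : ∀ l ∈ S, A *ᵥ x l = (l : ℂ) • x l)
    (hsum : e = ∑ l ∈ S, x l) (hS : S.Nonempty) :
    ∃ q : ℚ, ∑ θ ∈ S.image (fun l => l ^ 2), θ = (q : ℝ) := by
  obtain ⟨φ, hφ⟩ := exists_retraction
  set T := S.image (fun l => l ^ 2) with hT
  set T' : Finset ℂ := T.image (fun r : ℝ => (r : ℂ)) with hT'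
  have hinj : Function.Injective (fun r : ℝ => (r : ℂ)) := Complex.ofReal_injective
  have hcard : T'.card = T.card := Finset.card_image_of_injective _ hinj
  have hTne : T.Nonempty := hS.image _
  set P : ℂ[X] := ∏ θ ∈ T', (X - C θ) with hP
  have hPm : P.Monic := monic_prod_of_monic _ _ fun θ _ => monic_X_sub_C θ
  have hPd : P.natDegree = T'.card := by
    rw [hP, natDegree_prod_of_monic _ _ fun θ _ => monic_X_sub_C θ]
    simp
  set Q : ℂ[X] := ∑ i ∈ Finset.range (T'.card + 1), C (((φ (P.coeff i) : ℚ) : ℂ)) * X ^ i with hQ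
  have hQc : ∀ i, i ≤ T'.card → Q.coeff i = ((φ (P.coeff i) : ℚ) : ℂ) := by
    intro i hi
    rw [hQ, finsetSum_coeff, Finset.sum_eq_single i]
    · simp
    · intro j _ hj
      rw [coeff_C_mul, coeff_X_pow, if_neg (Ne.symm hj), mul_zero]
    · intro hni
      exact absurd (Finset.mem_range.2 (Nat.lt_succ_of_le hi)) hni
  have hQc' : ∀ i, T'.card < i → Q.coeff i = 0 := by
    intro i hi
    rw [hQ, finsetSum_coeff, Finset.sum_eq_zero]
    intro j hj
    rw [coeff_C_mul, coeff_X_pow, if_neg, mul_zero]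
    intro h
    rw [Finset.mem_range] at hj
    omega
  have hPtop : P.coeff T'.card = 1 := by
    rw [← hPd]; exact hPm.coeff_natDegree
  have hφ1 : φ 1 = 1 := by
    have := hφ 1
    simpa using this
  have hdeg : (P - Q).degree < (T'.card : WithBot ℕ) := by
    rw [degree_lt_iff_coeff_zero]
    intro i hi
    rw [coeff_sub]
    rcases Nat.lt_or_ge T'.card i with h | h
    · rw [hQc' i h, coeff_eq_zero_of_natDegree_lt (by omega), sub_zero]
    · have : i = T'.card := le_antisymm h hi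
      rw [this, hQc _ le_rfl, hPtop, hφ1]
      simp
  -- powers of `A ^ 2` applied to `e` are rational
  have hAq : ∀ i : ℕ, ∀ v, (((A ^ 2) ^ i) *ᵥ e) v = ((((A0 ^ 2) ^ i) *ᵥ e0) v : ℚ) := by
    intro i v
    have hmap : A = (Rat.castHom ℂ).mapMatrix A0 := by
      rw [hA]; rfl
    have : (A ^ 2) ^ i = (Rat.castHom ℂ).mapMatrix ((A0 ^ 2) ^ i) := by
      rw [map_pow, map_pow, hmap]
    rw [this, he]
    simp only [Matrix.mulVec, dotProduct, RingHom.mapMatrix_apply, Matrix.map_apply,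
      Rat.coe_castHom]
    push_cast
    rfl
  have heval : ∀ (R : ℂ[X]) (v : V), ((aeval (A ^ 2) R) *ᵥ e) v =
      ∑ l ∈ S, R.eval ((l : ℂ) ^ 2) * x l v := by
    intro R v
    rw [hsum, Matrix.mulVec_sum, Finset.sum_apply]
    refine Finset.sum_congr rfl fun l hl => ?_
    rw [aeval_mulVec_eigen (A ^ 2) (x l) ((l : ℂ) ^ 2) (by
      rw [pow_two A, ← Matrix.mulVec_mulVec, h1 l hl, Matrix.mulVec_smul, h1 l hl, smul_smul,
        ← pow_two]) R]
    rfl
  have hexp : ∀ (R : ℂ[X]) (n : ℕ) (v : V), R.natDegree ≤ n → ((aeval (A ^ 2) R) *ᵥ e) v =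
      ∑ i ∈ Finset.range (n + 1), R.coeff i * ((((A0 ^ 2) ^ i) *ᵥ e0) v : ℚ) := by
    intro R n v hn
    rw [aeval_eq_sum_range' (Nat.lt_succ_of_le hn), Matrix.sum_mulVec, Finset.sum_apply]
    refine Finset.sum_congr rfl fun i _ => ?_
    rw [Matrix.smul_mulVec, Pi.smul_apply, hAq, smul_eq_mul]
  have hPzero : ∀ l ∈ S, P.eval ((l : ℂ) ^ 2) = 0 := by
    intro l hl
    rw [hP, eval_prod]
    refine Finset.prod_eq_zero (i := (l : ℂ) ^ 2) ?_ (by simp)
    rw [hT', hT]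
    refine Finset.mem_image.2 ⟨l ^ 2, Finset.mem_image_of_mem _ hl, by push_cast; rfl⟩
  have hPv : ∀ v, ∑ i ∈ Finset.range (T'.card + 1), P.coeff i *
      ((((A0 ^ 2) ^ i) *ᵥ e0) v : ℚ) = 0 := by
    intro v
    rw [← hexp P T'.card v hPd.le, heval]
    refine Finset.sum_eq_zero fun l hl => ?_
    rw [hPzero l hl, zero_mul]
  have hQdeg : Q.natDegree ≤ T'.card := by
    rw [natDegree_le_iff_coeff_eq_zero]
    intro i hi
    exact hQc' i hi
  have hQv : ∀ v, ((aeval (A ^ 2) Q) *ᵥ e) v = 0 := by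
    intro v
    rw [hexp Q T'.card v hQdeg]
    have h2 := congrArg φ (hPv v)
    rw [map_sum, map_zero] at h2
    have h3 : ∀ i ∈ Finset.range (T'.card + 1), φ (P.coeff i * ((((A0 ^ 2) ^ i) *ᵥ e0) v : ℚ)) =
        φ (P.coeff i) * (((A0 ^ 2) ^ i) *ᵥ e0) v := by
      intro i _
      have : P.coeff i * ((((A0 ^ 2) ^ i) *ᵥ e0) v : ℚ) =
          ((((A0 ^ 2) ^ i) *ᵥ e0) v : ℚ) • P.coeff i := by
        rw [mul_comm, Rat.smul_def]
      rw [this, map_smul, smul_eq_mul, mul_comm]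
    rw [Finset.sum_congr rfl h3] at h2
    have h4 : ((∑ i ∈ Finset.range (T'.card + 1), φ (P.coeff i) * (((A0 ^ 2) ^ i) *ᵥ e0) v : ℚ) : ℂ)
        = 0 := by rw [h2]; simp
    rw [← h4]
    push_cast
    refine Finset.sum_congr rfl fun i hi => ?_
    rw [hQc i (Nat.lt_succ_iff.1 (Finset.mem_range.1 hi))]
  have hQzero : ∀ l ∈ S, Q.eval ((l : ℂ) ^ 2) = 0 := by
    refine coeff_eq_zero A S x h0 h1 (fun l => Q.eval ((l : ℂ) ^ 2)) ?_
    funext v
    rw [Finset.sum_apply, Pi.zero_apply, ← hQv v, heval]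
    rfl
  have hPQ : P - Q = 0 := by
    refine eq_zero_of_degree_lt_of_eval_finset_eq_zero T' hdeg ?_
    intro θ hθ
    rw [hT', hT] at hθ
    obtain ⟨r, hr, rfl⟩ := Finset.mem_image.1 hθ
    obtain ⟨l, hl, rfl⟩ := Finset.mem_image.1 hr
    have e1 : (((l ^ 2 : ℝ)) : ℂ) = (l : ℂ) ^ 2 := by push_cast; rfl
    simp only [e1]
    rw [eval_sub, hPzero l hl, hQzero l hl, sub_zero]
  have hPQ' : P = Q := sub_eq_zero.1 hPQ
  have hcardpos : 0 < T'.card := by rw [hcard]; exact hTne.card_pos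
  have hnext : P.nextCoeff = -∑ θ ∈ T', θ := by
    rw [hP]
    exact prod_X_sub_C_nextCoeff (fun θ => θ)
  have hnext' : P.nextCoeff = ((φ (P.coeff (T'.card - 1)) : ℚ) : ℂ) := by
    rw [nextCoeff_of_natDegree_pos (by omega), hPd, ← hQc _ (by omega), ← hPQ']
  have hsumT : ∑ θ ∈ T', θ = ((∑ θ ∈ T, θ : ℝ) : ℂ) := by
    rw [hT', Finset.sum_image (fun a _ b _ h => hinj h)]
    push_cast
    rfl
  refine ⟨-φ (P.coeff (T'.card - 1)), ?_⟩
  have h5 : ((∑ θ ∈ T, θ : ℝ) : ℂ) = ((-φ (P.coeff (T'.card - 1)) : ℚ) : ℂ) := by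
    rw [← hsumT]
    push_cast
    rw [← hnext', hnext]
    ring
  exact_mod_cast h5

/-- Eigenvalues of integer matrices are algebraic integers. -/
theorem isIntegral_eigen (A : Matrix V V ℂ) (A0 : Matrix V V ℤ)
    (hA : A = A0.map (fun q : ℤ => (q : ℂ))) (y : V → ℂ) (l : ℝ) (hy : y ≠ 0)
    (h : A *ᵥ y = (l : ℂ) • y) : IsIntegral ℤ l := by
  obtain ⟨p, hpm, hp⟩ := Matrix.isIntegral A0
  have hmap : A = (Int.castRingHom ℂ).mapMatrix A0 := by
    rw [hA]; rfl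
  have h1 : Polynomial.aeval A (p.map (Int.castRingHom ℂ)) = 0 := by
    have h2 := congrArg ((Int.castRingHom ℂ).mapMatrix : Matrix V V ℤ →+* Matrix V V ℂ) hp
    rw [map_zero, Polynomial.hom_eval₂] at h2
    have hr : (algebraMap ℂ (Matrix V V ℂ)).comp (Int.castRingHom ℂ) =
        ((Int.castRingHom ℂ).mapMatrix : Matrix V V ℤ →+* Matrix V V ℂ).comp
          (algebraMap ℤ (Matrix V V ℤ)) := Subsingleton.elim _ _
    rw [Polynomial.aeval_def, Polynomial.eval₂_map, hmap, hr]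
    exact h2
  have h3 := aeval_mulVec_eigen A y l h (p.map (Int.castRingHom ℂ))
  rw [h1, Matrix.zero_mulVec] at h3
  have h4 : (p.map (Int.castRingHom ℂ)).eval (l : ℂ) = 0 := by
    rcases smul_eq_zero.1 h3.symm with h | h
    · exact h
    · exact absurd h hy
  have h5 : IsIntegral ℤ (l : ℂ) := by
    refine ⟨p, hpm, ?_⟩
    rw [Polynomial.eval_map] at h4
    exact h4
  exact (isIntegral_algHom_iff (Complex.ofRealAm.restrictScalars ℤ) Complex.ofReal_injective).1 h5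

/-- The square of the common measure of the support eigenvalues is a positive integer. -/
theorem sq_generator_int (A : Matrix V V ℂ) (A0 : Matrix V V ℤ)
    (hA : A = A0.map (fun q : ℤ => (q : ℂ))) (e : V → ℂ) (e0 : V → ℤ)
    (he : e = fun v => (e0 v : ℂ)) (S : Finset ℝ) (x : ℝ → V → ℂ)
    (h0 : ∀ l ∈ S, x l ≠ 0) (h1 : ∀ l ∈ S, A *ᵥ x l = (l : ℂ) • x l)
    (hsum : e = ∑ l ∈ S, x l) (w : ℝ) (hw : 0 < w)
    (hmem : w ∈ AddSubgroup.closure (S : Set ℝ)) (hk : ∀ l ∈ S, ∃ k : ℤ, l = k * w)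
    (hne : ∃ l ∈ S, l ≠ 0) : ∃ N : ℕ, 0 < N ∧ w ^ 2 = (N : ℝ) := by
  classical
  have hS : S.Nonempty := by
    obtain ⟨l, hl, _⟩ := hne
    exact ⟨l, hl⟩
  have hint : ∀ l ∈ S, IsIntegral ℤ l := fun l hl => isIntegral_eigen A A0 hA (x l) l (h0 l hl) (h1 l hl)
  have hwint : IsIntegral ℤ w := by
    have : AddSubgroup.closure (S : Set ℝ) ≤ (integralClosure ℤ ℝ).toSubring.toAddSubgroup := by
      rw [AddSubgroup.closure_le]
      intro l hl
      exact hint l hl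
    exact this hmem
  obtain ⟨q, hq⟩ := rational_sum_sq A (A0.map (fun z : ℤ => (z : ℚ)))
    (by rw [hA]; ext i j; simp) e (fun v => (e0 v : ℚ)) (by rw [he]; funext v; simp) S x h0 h1 hsum hS
  have hkk : ∀ θ ∈ S.image (fun l => l ^ 2), ∃ k : ℤ, θ = k ^ 2 * w ^ 2 := by
    intro θ hθ
    obtain ⟨l, hl, rfl⟩ := Finset.mem_image.1 hθ
    obtain ⟨k, hk⟩ := hk l hl
    exact ⟨k, by rw [hk]; ring⟩
  choose! kk hkk' using hkk
  have hK : (q : ℝ) = ((∑ θ ∈ S.image (fun l => l ^ 2), kk θ ^ 2 : ℤ) : ℝ) * w ^ 2 := by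
    rw [← hq]
    push_cast
    rw [Finset.sum_mul]
    exact Finset.sum_congr rfl hkk'
  set K : ℤ := ∑ θ ∈ S.image (fun l => l ^ 2), kk θ ^ 2 with hKdef
  have hw2 : 0 < w ^ 2 := by positivity
  have hKpos : K ≠ 0 := by
    intro hK0
    obtain ⟨l, hl, hl0⟩ := hne
    have h2 : (l ^ 2) ∈ S.image (fun l => l ^ 2) := Finset.mem_image_of_mem _ hl
    have h3 := (Finset.sum_eq_zero_iff_of_nonneg (fun θ _ => sq_nonneg (kk θ))).1 hK0 _ h2
    have h4 := hkk' _ h2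
    have h5 : (kk (l ^ 2) : ℝ) ^ 2 = 0 := by exact_mod_cast h3
    rw [h5, zero_mul] at h4
    exact hl0 (pow_eq_zero_iff (two_ne_zero) |>.1 h4)
  have hKR : (K : ℝ) ≠ 0 := by exact_mod_cast hKpos
  have hwq : w ^ 2 = ((q / K : ℚ) : ℝ) := by
    push_cast
    rw [hK]
    field_simp
  have h6 : IsIntegral ℤ ((q / K : ℚ) : ℝ) := by
    rw [← hwq]
    exact hwint.pow 2
  have h7 : IsIntegral ℤ (q / K : ℚ) := by
    have := (isIntegral_algHom_iff ((Algebra.ofId ℚ ℝ).restrictScalars ℤ)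
      (FaithfulSMul.algebraMap_injective ℚ ℝ) (x := (q / K : ℚ))).1
    apply this
    simpa using h6
  obtain ⟨N, hN⟩ := IsIntegrallyClosed.isIntegral_iff.1 h7
  have h8 : w ^ 2 = (N : ℝ) := by
    rw [hwq, ← hN]
    simp
  have h9 : 0 < N := by
    have : (0 : ℝ) < N := by rw [← h8]; exact hw2
    exact_mod_cast this
  refine ⟨N.toNat, by omega, ?_⟩
  rw [h8]
  have : ((N.toNat : ℤ) : ℝ) = (N : ℝ) := by rw [Int.toNat_of_nonneg h9.le]
  exact_mod_cast this.symm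

end MP_8f05cb_co
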