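import Mathlib

namespace MP_8f05cb_co

variable {V : Type} {G : SimpleGraph V}

/-- the property of being constant along all edges except `p q` -/
def CutFun (G : SimpleGraph V) (p q : V) (h : V → ℝ) : Prop :=
  (∀ v, h v = 0 ∨ h v = 1) ∧ h p = 0 ∧ h q = 1 ∧
    ∀ u v, G.Adj u v → h u = h v ∨ (u = p ∧ v = q) ∨ (u = q ∧ v = p)

theorem exists_side (hG : G.IsAcyclic) {p q : V} (hpq : G.Adj p q) :
    ∃ h : V → ℝ, CutFun G p q h := by
  classical
  have hbr : G.IsBridge s(p, q) := SimpleGraph.isAcyclic_iff_forall_adj_isBridge.1 hG hpq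
  rw [SimpleGraph.isBridge_iff] at hbr
  refine ⟨fun v => if (G.deleteEdges {s(p, q)}).Reachable q v then 1 else 0, ?_, ?_, ?_, ?_⟩
  · intro v
    dsimp only
    split_ifs
    · exact Or.inr rfl
    · exact Or.inl rfl
  · dsimp only
    rw [if_neg]
    exact fun h => hbr h.symm
  · dsimp only
    rw [if_pos (SimpleGraph.Reachable.refl _)]
  · intro u v huv
    by_cases he : s(u, v) = s(p, q)
    · right
      rcases Sym2.eq_iff.1 he with h | h
      · exact Or.inl h
      · exact Or.inr h
    · left
      have hadj : (G.deleteEdges {s(p, q)}).Adj u v := by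
        rw [SimpleGraph.deleteEdges_adj]
        exact ⟨huv, he⟩
      dsimp only
      by_cases h1 : (G.deleteEdges {s(p, q)}).Reachable q u
      · rw [if_pos h1, if_pos (h1.trans hadj.reachable)]
      · rw [if_neg h1, if_neg]
        exact fun h2 => h1 (h2.trans hadj.reachable.symm)

theorem CutFun.const_walk {p q : V} {h : V → ℝ} (hc : CutFun G p q h) {u v : V} (w : G.Walk u v)
    (hw : s(p, q) ∉ w.edges) : h u = h v := by
  induction w with
  | nil => rfl
  | @cons u v w huv w' ih =>
    rw [SimpleGraph.Walk.edges_cons, List.mem_cons, not_or] at hw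
    rw [← ih hw.2]
    rcases hc.2.2.2 u v huv with h1 | h1 | h1
    · exact h1
    · exact absurd (by rw [h1.1, h1.2]) hw.1
    · exact absurd (by rw [h1.1, h1.2, Sym2.eq_swap]) hw.1

/-- a set closed under adjacency is everything -/
theorem mem_of_closed (hG : G.Connected) (K : Set V) (a : V) (ha : a ∈ K)
    (hK : ∀ u ∈ K, ∀ v, G.Adj u v → v ∈ K) (v : V) : v ∈ K := by
  obtain ⟨w⟩ := hG.preconnected a v
  induction w with
  | nil => exact ha
  | cons h _ ih => exact ih (hK _ ha _ h)

end MP_8f05cb_co
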