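import Mathlib
import Pool.Agent.Lib.MP_8f05cb_co.ExpVec

namespace MP_8f05cb_co

open scoped Matrix

variable {V : Type} [Fintype V] [DecidableEq V]

theorem transition_eq (G : SimpleGraph V) [DecidableRel G.Adj] (t : ℝ) :
    transition G t = NormedSpace.exp ((Complex.I * (t : ℂ)) • G.adjMatrix ℂ) := by
  rename_i d r
  obtain rfl : d = fun a b => Classical.propDecidable (a = b) := Subsingleton.elim _ _
  obtain rfl : r = fun a b => Classical.propDecidable (G.Adj a b) := Subsingleton.elim _ _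
  rfl

theorem pstAt_iff (G : SimpleGraph V) [DecidableRel G.Adj] (u v : V) (t : ℝ) :
    PSTAt G u v t ↔ ∃ γ : ℂ, ‖γ‖ = 1 ∧
      NormedSpace.exp ((Complex.I * (t : ℂ)) • G.adjMatrix ℂ) *ᵥ (Pi.single u 1) =
        γ • Pi.single v 1 := by
  rename_i d r
  obtain rfl : d = fun a b => Classical.propDecidable (a = b) := Subsingleton.elim _ _
  obtain rfl : r = fun a b => Classical.propDecidable (G.Adj a b) := Subsingleton.elim _ _
  rfl

theorem cexp_odd_pi (c : ℕ) (hc : Odd c) : Complex.exp (Complex.I * (Real.pi * c)) = -1 := by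
  obtain ⟨k, rfl⟩ := hc
  have : Complex.I * (Real.pi * ((2 * k + 1 : ℕ) : ℂ)) = (k : ℤ) * (2 * Real.pi * Complex.I) +
      Real.pi * Complex.I := by
    push_cast; ring
  rw [this, Complex.exp_add, Complex.exp_int_mul_two_pi_mul_I, Complex.exp_pi_mul_I]
  ring

theorem cexp_neg_odd_pi (c : ℕ) (hc : Odd c) : Complex.exp (-(Complex.I * (Real.pi * c))) = -1 := by
  rw [Complex.exp_neg, cexp_odd_pi c hc]
  norm_num

/-- If `A² v = 2c² v` with `c` odd then `exp(i (π/√2) A) v = -v`. -/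
theorem exp_mulVec_odd (A : Matrix V V ℂ) (v : V → ℂ) (c : ℕ) (hc : Odd c)
    (h : A *ᵥ (A *ᵥ v) = (2 * (c : ℂ) ^ 2) • v) :
    NormedSpace.exp ((Complex.I * ((Real.pi / Real.sqrt 2 : ℝ) : ℂ)) • A) *ᵥ v = -v := by
  set s : ℂ := ((Real.sqrt 2 : ℝ) : ℂ) * c with hs
  have hr : ((Real.sqrt 2 : ℝ) : ℂ) ^ 2 = 2 := by
    norm_cast
    simp
  have hr0 : ((Real.sqrt 2 : ℝ) : ℂ) ≠ 0 := by
    intro h0
    rw [h0] at hr
    norm_num at hr
  have hc0 : (c : ℂ) ≠ 0 := by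
    have : c ≠ 0 := by
      rintro rfl
      exact absurd hc (by decide)
    exact_mod_cast this
  have hs0 : s ≠ 0 := mul_ne_zero hr0 hc0
  have hs2 : s ^ 2 = 2 * (c : ℂ) ^ 2 := by
    rw [hs, mul_pow, hr]
  set τ : ℂ := Complex.I * ((Real.pi / Real.sqrt 2 : ℝ) : ℂ) with hτ
  have hτs : τ * s = Complex.I * (Real.pi * c) := by
    rw [hτ, hs]
    push_cast
    field_simp
  set p : V → ℂ := A *ᵥ v + s • v with hp
  set q : V → ℂ := A *ᵥ v - s • v with hq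
  have hAp : A *ᵥ p = s • p := by
    rw [hp, Matrix.mulVec_add, Matrix.mulVec_smul, h, ← hs2, smul_add, smul_smul, ← pow_two]
    rw [add_comm]
  have hAq : A *ᵥ q = (-s) • q := by
    rw [hq, Matrix.mulVec_sub, Matrix.mulVec_smul, h, ← hs2, smul_sub, smul_smul, neg_smul,
      neg_mul, ← pow_two, neg_smul]
    abel
  have hEp : NormedSpace.exp (τ • A) *ᵥ p = -p := by
    rw [exp_mulVec_eigen (τ • A) p (τ * s) (by rw [Matrix.smul_mulVec, hAp, smul_smul]), hτs,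
      cexp_odd_pi c hc, neg_smul, one_smul]
  have hEq : NormedSpace.exp (τ • A) *ᵥ q = -q := by
    rw [exp_mulVec_eigen (τ • A) q (-(τ * s)) (by
      rw [Matrix.smul_mulVec, hAq, smul_smul, mul_neg]), hτs,
      cexp_neg_odd_pi c hc, neg_smul, one_smul]
  have hv : v = (1 / (2 * s)) • (p - q) := by
    rw [hp, hq]
    funext x
    simp only [Pi.smul_apply, Pi.sub_apply, Pi.add_apply, smul_eq_mul]
    field_simp
    ring
  calc NormedSpace.exp (τ • A) *ᵥ v = NormedSpace.exp (τ • A) *ᵥ ((1 / (2 * s)) • (p - q)) := by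
        rw [← hv]
    _ = (1 / (2 * s)) • (-p - -q) := by
        rw [Matrix.mulVec_smul, Matrix.mulVec_sub, hEp, hEq]
    _ = -((1 / (2 * s)) • (p - q)) := by
        rw [← smul_neg]
        congr 1
        abel
    _ = -v := by rw [← hv]

/-- Perfect state transfer criterion used for the construction. -/
theorem hasPST_of_chain (G : SimpleGraph V) [DecidableRel G.Adj] (a b : V) (hab : a ≠ b)
    (C Z : V → ℂ) (c : ℕ) (hc : Odd c) (hc3 : 3 < c)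
    (h0 : G.adjMatrix ℂ *ᵥ (Pi.single a 1 - Pi.single b 1) = 0)
    (h1 : G.adjMatrix ℂ *ᵥ (G.adjMatrix ℂ *ᵥ (Pi.single a 1 + Pi.single b 1)) =
      (4 : ℂ) • (Pi.single a 1 + Pi.single b 1) + (2 : ℂ) • C)
    (h2 : G.adjMatrix ℂ *ᵥ (G.adjMatrix ℂ *ᵥ C) =
      (2 * (c : ℂ) ^ 2 - 5) • (Pi.single a 1 + Pi.single b 1) + (2 * (c : ℂ) ^ 2 + 16) • C + Z)
    (h3 : G.adjMatrix ℂ *ᵥ (G.adjMatrix ℂ *ᵥ Z) =
      (-(36 * (c : ℂ) ^ 2 - 76)) • (Pi.single a 1 + Pi.single b 1)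
        + (-(36 * (c : ℂ) ^ 2 - 38)) • C) :
    HasPST G := by
  classical
  set A := G.adjMatrix ℂ with hA
  set f : V → ℂ := Pi.single a 1 + Pi.single b 1 with hf
  set E := NormedSpace.exp ((Complex.I * ((Real.pi / Real.sqrt 2 : ℝ) : ℂ)) • A) with hE
  have key : ∀ l : ℂ, (4 - l) * (l ^ 2 - (2 * (c : ℂ) ^ 2 + 16) * l + (36 * (c : ℂ) ^ 2 - 38))
      + 2 * l * (2 * (c : ℂ) ^ 2 - 5) - 2 * (36 * (c : ℂ) ^ 2 - 76) = 0 →
      A *ᵥ (A *ᵥ ((l ^ 2 - (2 * (c : ℂ) ^ 2 + 16) * l + (36 * (c : ℂ) ^ 2 - 38)) • f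
        + (2 * l) • C + (2 : ℂ) • Z)) =
      l • ((l ^ 2 - (2 * (c : ℂ) ^ 2 + 16) * l + (36 * (c : ℂ) ^ 2 - 38)) • f
        + (2 * l) • C + (2 : ℂ) • Z) := by
    intro l hl
    rw [Matrix.mulVec_add, Matrix.mulVec_add, Matrix.mulVec_add, Matrix.mulVec_add,
      Matrix.mulVec_smul, Matrix.mulVec_smul, Matrix.mulVec_smul, Matrix.mulVec_smul,
      Matrix.mulVec_smul, Matrix.mulVec_smul, h1, h2, h3]
    funext x
    simp only [Pi.smul_apply, Pi.add_apply, smul_eq_mul]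
    linear_combination (f x) * hl
  have key2 : ∀ (l : ℂ) (k : ℕ), Odd k → l = 2 * (k : ℂ) ^ 2 →
      (4 - l) * (l ^ 2 - (2 * (c : ℂ) ^ 2 + 16) * l + (36 * (c : ℂ) ^ 2 - 38))
      + 2 * l * (2 * (c : ℂ) ^ 2 - 5) - 2 * (36 * (c : ℂ) ^ 2 - 76) = 0 →
      E *ᵥ ((l ^ 2 - (2 * (c : ℂ) ^ 2 + 16) * l + (36 * (c : ℂ) ^ 2 - 38)) • f
        + (2 * l) • C + (2 : ℂ) • Z) =
      -((l ^ 2 - (2 * (c : ℂ) ^ 2 + 16) * l + (36 * (c : ℂ) ^ 2 - 38)) • f
        + (2 * l) • C + (2 : ℂ) • Z) := by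
    intro l k hk hlk hl
    have := key l hl
    rw [hE]
    apply exp_mulVec_odd A _ k hk
    rw [this, hlk]
  have e1 := key2 2 1 (by decide) (by norm_num) (by ring)
  have e2 := key2 18 3 (by decide) (by norm_num) (by ring)
  have e3 := key2 (2 * (c : ℂ) ^ 2) c hc rfl (by ring)
  set v1 := (((2 : ℂ) ^ 2 - (2 * (c : ℂ) ^ 2 + 16) * 2 + (36 * (c : ℂ) ^ 2 - 38)) • f
        + (2 * (2 : ℂ)) • C + (2 : ℂ) • Z) with hv1
  set v2 := (((18 : ℂ) ^ 2 - (2 * (c : ℂ) ^ 2 + 16) * 18 + (36 * (c : ℂ) ^ 2 - 38)) • f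
        + (2 * (18 : ℂ)) • C + (2 : ℂ) • Z) with hv2
  set v3 := (((2 * (c : ℂ) ^ 2) ^ 2 - (2 * (c : ℂ) ^ 2 + 16) * (2 * (c : ℂ) ^ 2)
        + (36 * (c : ℂ) ^ 2 - 38)) • f
        + (2 * (2 * (c : ℂ) ^ 2)) • C + (2 : ℂ) • Z) with hv3
  have hc1 : (2 - 2 * (c : ℂ) ^ 2) ≠ 0 := by
    intro h
    have h' : (c : ℂ) ^ 2 = 1 := by linear_combination (-1 / 2) * h
    have h'' : c ^ 2 = 1 := by exact_mod_cast h'
    nlinarith
  have hc2 : (18 - 2 * (c : ℂ) ^ 2) ≠ 0 := by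
    intro h
    have h' : (c : ℂ) ^ 2 = 9 := by linear_combination (-1 / 2) * h
    have h'' : c ^ 2 = 9 := by exact_mod_cast h'
    nlinarith
  set D : ℂ := 16 * ((2 * (c : ℂ) ^ 2 - 2) * (2 * (c : ℂ) ^ 2 - 18)) with hDdef
  have hD : D ≠ 0 := by
    refine mul_ne_zero (by norm_num) (mul_ne_zero ?_ ?_)
    · intro h; apply hc1; linear_combination (-1) * h
    · intro h; apply hc2; linear_combination (-1) * h
  have hfv : f = ((2 * (c : ℂ) ^ 2 - 18) / D) • v1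
      + (-(2 * (c : ℂ) ^ 2 - 2) / D) • v2
      + (16 / D) • v3 := by
    funext x
    simp only [hv1, hv2, hv3, Pi.smul_apply, Pi.add_apply, smul_eq_mul]
    rw [div_mul_eq_mul_div, div_mul_eq_mul_div, div_mul_eq_mul_div, ← add_div, ← add_div,
      eq_div_iff hD, hDdef]
    ring
  have hEf : E *ᵥ f = -f := by
    have : E *ᵥ f = E *ᵥ (((2 * (c : ℂ) ^ 2 - 18) / D) • v1
      + (-(2 * (c : ℂ) ^ 2 - 2) / D) • v2
      + (16 / D) • v3) := by rw [← hfv]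
    rw [this, Matrix.mulVec_add, Matrix.mulVec_add, Matrix.mulVec_smul, Matrix.mulVec_smul,
      Matrix.mulVec_smul, e1, e2, e3, smul_neg, smul_neg, smul_neg]
    conv_rhs => rw [hfv]
    abel
  have hEg : E *ᵥ (Pi.single a 1 - Pi.single b 1) = (Pi.single a 1 - Pi.single b 1) := by
    rw [hE, exp_mulVec_eigen _ _ 0 (by rw [Matrix.smul_mulVec, h0, smul_zero, zero_smul])]
    simp
  refine ⟨a, b, hab, Real.pi / Real.sqrt 2, (pstAt_iff G a b _).2 ⟨-1, by simp, ?_⟩⟩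
  have h2' : E *ᵥ ((2 : ℂ) • Pi.single a 1) = (2 : ℂ) • ((-1 : ℂ) • Pi.single b 1) := by
    have : (2 : ℂ) • (Pi.single a 1 : V → ℂ) = f + (Pi.single a 1 - Pi.single b 1) := by
      rw [hf, two_smul]; abel
    rw [this, Matrix.mulVec_add, hEf, hEg, hf, two_smul]
    funext x
    simp only [Pi.neg_apply, Pi.add_apply, Pi.sub_apply, Pi.smul_apply, smul_eq_mul]
    ring
  rw [Matrix.mulVec_smul] at h2'
  have h3' := smul_right_injective (V → ℂ) (two_ne_zero (α := ℂ)) h2'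
  exact h3'

end MP_8f05cb_co
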