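import Mathlib
import Pool.Agent.Lib.MP_8f05cb_co.Criterion

namespace MP_8f05cb_co

open scoped Matrix

variable {C : Type} [Fintype C]

/-- vertices at distance two from the middle vertices -/
abbrev GT (k : C → ℕ) : Type := Σ c : C, Fin (k c)

abbrev HT (k : C → ℕ) (d : GT k → ℕ) : Type := Σ g : GT k, Fin (d g)

abbrev LT (k x : C → ℕ) (d : GT k → ℕ) : Type := Σ h : HT k d, Fin (x h.1.1 - d h.1)

/-- the vertex type of the unicyclic graph -/
abbrev VT (k x : C → ℕ) (d : GT k → ℕ) : Type :=
  Bool ⊕ Bool ⊕ C ⊕ GT k ⊕ HT k d ⊕ LT k x d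

/-- parent-to-child relation -/
def rel (side : C → Bool) (k x : C → ℕ) (d : GT k → ℕ) : VT k x d → VT k x d → Prop
  | .inl _, .inr (.inl _) => True
  | .inr (.inl i), .inr (.inr (.inl c)) => side c = i
  | .inr (.inr (.inl c)), .inr (.inr (.inr (.inl g))) => g.1 = c
  | .inr (.inr (.inr (.inl g))), .inr (.inr (.inr (.inr (.inl h)))) => h.1 = g
  | .inr (.inr (.inr (.inr (.inl h)))), .inr (.inr (.inr (.inr (.inr l)))) => l.1 = h
  | _, _ => False

/-- the unicyclic graph -/
def UG (side : C → Bool) (k x : C → ℕ) (d : GT k → ℕ) : SimpleGraph (VT k x d) where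
  Adj u v := rel side k x d u v ∨ rel side k x d v u
  symm := ⟨fun _ _ h => h.symm⟩
  loopless := ⟨by
    rintro (b | b | c | g | h | l) (h' | h') <;> simp [rel] at h'⟩

variable (side : C → Bool) (k x : C → ℕ) (d : GT k → ℕ)

omit [Fintype C] in
theorem UG_adj (u v : VT k x d) : (UG side k x d).Adj u v ↔
    (rel side k x d u v ∨ rel side k x d v u) := Iff.rfl

section action

open scoped Classical in
/-- indicator of a proposition -/
noncomputable def ind (p : Prop) : ℂ := if p then 1 else 0

theorem ind_true : ind True = 1 := by simp [ind]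

theorem ind_false : ind False = 0 := by simp [ind]

open scoped Classical in
/-- the adjacency operator -/
noncomputable def act (f : VT k x d → ℂ) : VT k x d → ℂ :=
  (UG side k x d).adjMatrix ℂ *ᵥ f

theorem sum_ind_sigma_fst {α : Type} [Fintype α] {β : α → Type} [∀ a, Fintype (β a)]
    (F : (Σ a, β a) → ℂ) (a : α) :
    (∑ s : Σ a, β a, ind (s.1 = a) * F s) = ∑ j, F ⟨a, j⟩ := by
  rw [Fintype.sum_sigma, Finset.sum_eq_single a]
  · simp [ind_true]
  · intro b _ hb
    simp [hb, ind_false]
  · simp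

theorem sum_ind_eq {α : Type} [Fintype α] (F : α → ℂ) (a : α) :
    (∑ s, ind (a = s) * F s) = F a := by
  rw [Finset.sum_eq_single a]
  · simp [ind_true]
  · intro b _ hb
    simp [hb.symm, ind_false]
  · simp

theorem act_apply (f : VT k x d → ℂ) (u : VT k x d) :
    act side k x d f u = ∑ v, ind (rel side k x d u v ∨ rel side k x d v u) * f v := by
  classical
  simp only [act, Matrix.mulVec, dotProduct, SimpleGraph.adjMatrix_apply, UG_adj, ite_mul, one_mul,
    zero_mul, ind]

theorem act_top (f : VT k x d → ℂ) (b : Bool) :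
    act side k x d f (.inl b) = ∑ i, f (.inr (.inl i)) := by
  rw [act_apply]
  simp [rel, ind_true, ind_false]

theorem act_mid (f : VT k x d → ℂ) (i : Bool) :
    act side k x d f (.inr (.inl i)) = ∑ b, f (.inl b)
      + ∑ c, ind (side c = i) * f (.inr (.inr (.inl c))) := by
  rw [act_apply]
  simp [rel, ind_true, ind_false]

theorem act_c (f : VT k x d → ℂ) (c : C) :
    act side k x d f (.inr (.inr (.inl c))) = f (.inr (.inl (side c)))
      + ∑ j : Fin (k c), f (.inr (.inr (.inr (.inl ⟨c, j⟩)))) := by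
  rw [act_apply]
  simp only [Fintype.sum_sum_type, rel, or_false, false_or, ind_false, zero_mul,
    Finset.sum_const_zero, add_zero, zero_add, or_self]
  rw [sum_ind_eq (fun i => f (Sum.inr (Sum.inl i))),
    sum_ind_sigma_fst (β := fun c => Fin (k c)) (fun s => f (.inr (.inr (.inr (.inl s))))) c]

theorem act_g (f : VT k x d → ℂ) (g : GT k) :
    act side k x d f (.inr (.inr (.inr (.inl g)))) = f (.inr (.inr (.inl g.1)))
      + ∑ j : Fin (d g), f (.inr (.inr (.inr (.inr (.inl ⟨g, j⟩))))) := by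
  rw [act_apply]
  simp only [Fintype.sum_sum_type, rel, or_false, false_or, ind_false, zero_mul,
    Finset.sum_const_zero, add_zero, zero_add, or_self]
  rw [sum_ind_eq (fun i => f (Sum.inr (Sum.inr (Sum.inl i)))),
    sum_ind_sigma_fst (β := fun g : GT k => Fin (d g))
      (fun s => f (.inr (.inr (.inr (.inr (.inl s)))))) g]

theorem act_h (f : VT k x d → ℂ) (h : HT k d) :
    act side k x d f (.inr (.inr (.inr (.inr (.inl h))))) = f (.inr (.inr (.inr (.inl h.1))))
      + ∑ j : Fin (x h.1.1 - d h.1), f (.inr (.inr (.inr (.inr (.inr ⟨h, j⟩))))) := by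
  rw [act_apply]
  simp only [Fintype.sum_sum_type, rel, or_false, false_or, ind_false, zero_mul,
    Finset.sum_const_zero, add_zero, zero_add, or_self]
  rw [sum_ind_eq (fun i => f (Sum.inr (Sum.inr (Sum.inr (Sum.inl i))))),
    sum_ind_sigma_fst (β := fun h : HT k d => Fin (x h.1.1 - d h.1))
      (fun s => f (.inr (.inr (.inr (.inr (.inr s)))))) h]

theorem act_l (f : VT k x d → ℂ) (l : LT k x d) :
    act side k x d f (.inr (.inr (.inr (.inr (.inr l))))) =
      f (.inr (.inr (.inr (.inr (.inl l.1))))) := by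
  rw [act_apply]
  simp only [Fintype.sum_sum_type, rel, or_false, false_or, ind_false, zero_mul,
    Finset.sum_const_zero, add_zero, zero_add, or_self]
  rw [sum_ind_eq (fun i => f (Sum.inr (Sum.inr (Sum.inr (Sum.inr (Sum.inl i))))))]

end action

section vectors

def f0 : VT k x d → ℂ
  | .inl _ => 1
  | _ => 0

def f1 : VT k x d → ℂ
  | .inr (.inl _) => 2
  | _ => 0

def c0 : VT k x d → ℂ
  | .inr (.inr (.inl _)) => 1
  | _ => 0

noncomputable def c1 : VT k x d → ℂ
  | .inr (.inl i) => ∑ c, ind (side c = i)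
  | .inr (.inr (.inr (.inl _))) => 1
  | _ => 0

def z0 : VT k x d → ℂ
  | .inr (.inr (.inl c)) => -(x c : ℂ)
  | .inr (.inr (.inr (.inr (.inl _)))) => 1
  | _ => 0

noncomputable def z1 : VT k x d → ℂ
  | .inr (.inl i) => -∑ c, ind (side c = i) * x c
  | .inr (.inr (.inr (.inl g))) => -(x g.1 : ℂ) + d g
  | .inr (.inr (.inr (.inr (.inr _)))) => 1
  | _ => 0

theorem act_f0 : act side k x d (f0 k x d) = f1 k x d := by
  funext u
  rcases u with b | i | c | g | h | l
  · rw [act_top]; simp [f0, f1]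
  · rw [act_mid]; simp [f0, f1]
  · rw [act_c]; simp [f0, f1]
  · rw [act_g]; simp [f0, f1]
  · rw [act_h]; simp [f0, f1]
  · rw [act_l]; simp [f0, f1]

theorem act_f1 : act side k x d (f1 k x d) = (4 : ℂ) • f0 k x d + (2 : ℂ) • c0 k x d := by
  funext u
  rcases u with b | i | c | g | h | l
  · rw [act_top]; simp [f0, f1, c0]; norm_num
  · rw [act_mid]; simp [f0, f1, c0]
  · rw [act_c]; simp [f0, f1, c0]
  · rw [act_g]; simp [f0, f1, c0]
  · rw [act_h]; simp [f0, f1, c0]
  · rw [act_l]; simp [f0, f1, c0]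

theorem act_c0 : act side k x d (c0 k x d) = c1 side k x d := by
  funext u
  rcases u with b | i | c | g | h | l
  · rw [act_top]; simp [c0, c1]
  · rw [act_mid]; simp [c0, c1]
  · rw [act_c]; simp [c0, c1]
  · rw [act_g]; simp [c0, c1]
  · rw [act_h]; simp [c0, c1]
  · rw [act_l]; simp [c0, c1]

theorem act_z0 : act side k x d (z0 k x d) = z1 side k x d := by
  funext u
  rcases u with b | i | c | g | h | l
  · rw [act_top]; simp [z0, z1]
  · rw [act_mid]; simp [z0, z1]
  · rw [act_c]; simp [z0, z1]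
  · rw [act_g]; simp [z0, z1]
  · rw [act_h]; simp [z0, z1]
  · rw [act_l]; simp [z0, z1]

theorem sum_ind_bool (y : C → ℂ) : (∑ i : Bool, ∑ c, ind (side c = i) * y c) = ∑ c, y c := by
  rw [Finset.sum_comm]
  refine Finset.sum_congr rfl fun c _ => ?_
  rw [Fintype.sum_bool]
  cases side c <;> simp [ind_true, ind_false]

theorem act_c1 (N P : ℂ) (hN : (Fintype.card C : ℂ) = N)
    (hP : ∀ c, (∑ c', ind (side c' = side c)) + k c + x c = P) :
    act side k x d (c1 side k x d) = N • f0 k x d + P • c0 k x d + z0 k x d := by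
  funext u
  rcases u with b | i | c | g | h | l
  · rw [act_top]
    have := sum_ind_bool side (fun _ => (1 : ℂ))
    simp only [mul_one] at this
    simp [f0, c0, z0, c1, ← hN]
    simpa using this
  · rw [act_mid]; simp [f0, c0, z0, c1]
  · rw [act_c]
    simp [f0, c0, z0, c1, ← hP c]
  · rw [act_g]; simp [f0, c0, z0, c1]
  · rw [act_h]; simp [f0, c0, z0, c1]
  · rw [act_l]; simp [f0, c0, z0, c1]

theorem act_z1 (X R : ℂ) (hX : (∑ c, (x c : ℂ)) = X) (hd : ∀ g, d g ≤ x g.1)
    (hR : ∀ c, (∑ c', ind (side c' = side c) * x c') + ∑ j, ((x c : ℂ) - d ⟨c, j⟩) = R) :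
    act side k x d (z1 side k x d) = (-X) • f0 k x d + (-R) • c0 k x d := by
  funext u
  rcases u with b | i | c | g | h | l
  · rw [act_top]
    have := sum_ind_bool side (fun c => (x c : ℂ))
    simp only [f0, c0, z1, Pi.add_apply, Pi.smul_apply, smul_eq_mul, mul_one, mul_zero, add_zero]
    rw [← hX, ← this, Finset.sum_neg_distrib]
  · rw [act_mid]; simp [f0, c0, z1]
  · rw [act_c]
    simp only [f0, c0, z1, Pi.add_apply, Pi.smul_apply, smul_eq_mul, mul_one, mul_zero, zero_add]
    rw [← hR c, Finset.sum_sub_distrib, Finset.sum_add_distrib]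
    simp
    ring
  · rw [act_g]; simp [f0, c0, z1]
  · rw [act_h]
    have := hd h.1
    simp [f0, c0, z1]
    rw [Nat.cast_sub this]
    ring
  · rw [act_l]; simp [f0, c0, z1]

end vectors

end MP_8f05cb_co
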