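import Mathlib
import Pool.Agent.Lib.MP_8f05cb_co.Criterion

namespace MP_8f05cb_co

open scoped Matrix

section

variable {V W : Type} [Fintype V] [DecidableEq V] [Fintype W] [DecidableEq W]

attribute [local instance] Matrix.linftyOpNormedRing Matrix.linftyOpNormedAlgebra

theorem exp_reindex (e : V ≃ W) (M : Matrix V V ℂ) :
    NormedSpace.exp (Matrix.reindexAlgEquiv ℂ ℂ e M) =
      Matrix.reindexAlgEquiv ℂ ℂ e (NormedSpace.exp M) := by
  have hc : Continuous (Matrix.reindexAlgEquiv ℂ ℂ e) := by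
    change Continuous fun N : Matrix V V ℂ => N.submatrix e.symm e.symm
    fun_prop
  exact (NormedSpace.map_exp (Matrix.reindexAlgEquiv ℂ ℂ e) hc M).symm

end

theorem HasPST.iso {V W : Type} [Fintype V] [Fintype W] {G : SimpleGraph V} {H : SimpleGraph W}
    (φ : G ≃g H) (h : HasPST G) : HasPST H := by
  classical
  obtain ⟨u, v, huv, t, γ, hγ, hU⟩ := h
  refine ⟨φ u, φ v, fun h => huv (φ.injective h), t, γ, hγ, ?_⟩
  have hA : H.adjMatrix ℂ = Matrix.reindexAlgEquiv ℂ ℂ φ.toEquiv (G.adjMatrix ℂ) := by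
    ext i j
    have h0 : H.Adj i j ↔ G.Adj (φ.symm i) (φ.symm j) := by
      rw [← SimpleGraph.Iso.map_adj_iff φ, RelIso.apply_symm_apply, RelIso.apply_symm_apply]
    have h1 : (Matrix.reindexAlgEquiv ℂ ℂ φ.toEquiv (G.adjMatrix ℂ)) i j =
        G.adjMatrix ℂ (φ.symm i) (φ.symm j) := rfl
    rw [h1, SimpleGraph.adjMatrix_apply, SimpleGraph.adjMatrix_apply]
    simp only [h0]
  have h1 : transition H t = Matrix.reindexAlgEquiv ℂ ℂ φ.toEquiv (transition G t) := by
    rw [transition_eq, transition_eq, hA, ← exp_reindex, map_smul]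
  rw [h1]
  funext w
  have h2 := congrFun hU (φ.symm w)
  have h3 : (Matrix.reindexAlgEquiv ℂ ℂ φ.toEquiv (transition G t) *ᵥ
      (Pi.single (φ u) 1)) w = (transition G t *ᵥ (Pi.single u 1)) (φ.symm w) := by
    have e1 : (Matrix.reindexAlgEquiv ℂ ℂ φ.toEquiv (transition G t) *ᵥ
      (Pi.single (φ u) 1)) w = transition G t (φ.symm w) (φ.symm (φ u)) := by
      rw [Matrix.mulVec_single_one]
      rfl
    rw [e1, RelIso.symm_apply_apply, Matrix.mulVec_single_one]
    rfl
  have h4 : (transition G t *ᵥ (Pi.single u 1)) (φ.symm w) = (γ • Pi.single v 1 : V → ℂ) (φ.symm w) := by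
    convert h2 using 2
  have h5 : (γ • Pi.single v 1 : V → ℂ) (φ.symm w) = (γ • Pi.single (φ v) 1 : W → ℂ) w := by
    simp only [Pi.smul_apply, Pi.single_apply]
    congr 1
    have : φ.symm w = v ↔ w = φ v := by
      constructor
      · intro h; rw [← h, RelIso.apply_symm_apply]
      · intro h; rw [h, RelIso.symm_apply_apply]
    simp only [this]
  have h6 := h3.trans (h4.trans h5)
  convert h6 using 2

/-- An upper bound for `m n` from a graph on an arbitrary type with `n` elements. -/
theorem m_le_of_graph {V : Type} [Fintype V] (G : SimpleGraph V) (hconn : G.Connected)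
    (hP : HasPST G) : m (Fintype.card V) ≤ (G.edgeSet.ncard : ℕ∞) := by
  classical
  set e : V ≃ Fin (Fintype.card V) := Fintype.equivFin V
  let φ : G ≃g (G.map e.toEmbedding) := SimpleGraph.Iso.map e G
  have h1 : (G.map e.toEmbedding).Connected := φ.connected_iff.1 hconn
  have h2 : HasPST (G.map e.toEmbedding) := hP.iso φ
  have h3 : (G.map e.toEmbedding).edgeSet.ncard = G.edgeSet.ncard := by
    rw [← Nat.card_coe_set_eq, ← Nat.card_coe_set_eq]
    exact (Nat.card_congr φ.mapEdgeSet).symm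
  rw [← h3]
  exact iInf₂_le (G.map e.toEmbedding) ⟨h1, h2⟩

end MP_8f05cb_co
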