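import Mathlib
import Pool.Agent.Lib.MP_8f05cb_co.Construct
import Pool.Agent.Lib.MP_8f05cb_co.Transport

namespace MP_8f05cb_co

open scoped Matrix

variable {C : Type} [Fintype C] (side : C → Bool) (k x : C → ℕ) (d : GT k → ℕ)

omit [Fintype C] in
theorem UG_connected : (UG side k x d).Connected := by
  have htm : ∀ b i, (UG side k x d).Adj (.inl b) (.inr (.inl i)) := fun b i => Or.inl trivial
  have hmc : ∀ c, (UG side k x d).Adj (.inr (.inl (side c))) (.inr (.inr (.inl c))) :=
    fun c => Or.inl rfl
  have hcg : ∀ g : GT k, (UG side k x d).Adj (.inr (.inr (.inl g.1))) (.inr (.inr (.inr (.inl g)))) :=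
    fun c => Or.inl rfl
  have hgh : ∀ h : HT k d, (UG side k x d).Adj (.inr (.inr (.inr (.inl h.1))))
      (.inr (.inr (.inr (.inr (.inl h))))) := fun c => Or.inl rfl
  have hhl : ∀ l : LT k x d, (UG side k x d).Adj (.inr (.inr (.inr (.inr (.inl l.1)))))
      (.inr (.inr (.inr (.inr (.inr l))))) := fun c => Or.inl rfl
  have r1 : ∀ i, (UG side k x d).Reachable (.inl true) (.inr (.inl i)) := fun i => (htm _ _).reachable
  have r0 : ∀ b, (UG side k x d).Reachable (.inl true) (.inl b) := fun b =>
    (r1 true).trans (htm b true).reachable.symm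
  have r2 : ∀ c, (UG side k x d).Reachable (.inl true) (.inr (.inr (.inl c))) := fun c =>
    (r1 _).trans (hmc c).reachable
  have r3 : ∀ g, (UG side k x d).Reachable (.inl true) (.inr (.inr (.inr (.inl g)))) := fun g =>
    (r2 _).trans (hcg g).reachable
  have r4 : ∀ h, (UG side k x d).Reachable (.inl true) (.inr (.inr (.inr (.inr (.inl h))))) :=
    fun h => (r3 _).trans (hgh h).reachable
  have r5 : ∀ l, (UG side k x d).Reachable (.inl true) (.inr (.inr (.inr (.inr (.inr l))))) :=
    fun l => (r4 _).trans (hhl l).reachable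
  rw [SimpleGraph.connected_iff_exists_forall_reachable]
  refine ⟨.inl true, ?_⟩
  rintro (b | i | c | g | h | l)
  · exact r0 b
  · exact r1 i
  · exact r2 c
  · exact r3 g
  · exact r4 h
  · exact r5 l

/-- every edge is named by a vertex -/
def edgeOf : VT k x d → Sym2 (VT k x d)
  | .inl b => s(.inl b, .inr (.inl true))
  | .inr (.inl i) => s(.inl i, .inr (.inl false))
  | .inr (.inr (.inl c)) => s(.inr (.inl (side c)), .inr (.inr (.inl c)))
  | .inr (.inr (.inr (.inl g))) => s(.inr (.inr (.inl g.1)), .inr (.inr (.inr (.inl g))))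
  | .inr (.inr (.inr (.inr (.inl h)))) =>
      s(.inr (.inr (.inr (.inl h.1))), .inr (.inr (.inr (.inr (.inl h)))))
  | .inr (.inr (.inr (.inr (.inr l)))) =>
      s(.inr (.inr (.inr (.inr (.inl l.1)))), .inr (.inr (.inr (.inr (.inr l)))))

omit [Fintype C] in
theorem rel_edgeOf {u v : VT k x d} (h : rel side k x d u v) :
    ∃ w, edgeOf side k x d w = s(u, v) := by
  rcases u with b | i | c | g | hh | l <;> rcases v with b' | i' | c' | g' | h' | l' <;>
    simp only [rel] at h
  · cases i' with
    | true => exact ⟨.inl b, rfl⟩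
    | false => exact ⟨.inr (.inl b), rfl⟩
  · subst h
    exact ⟨.inr (.inr (.inl c')), rfl⟩
  · subst h
    exact ⟨.inr (.inr (.inr (.inl g'))), rfl⟩
  · subst h
    exact ⟨.inr (.inr (.inr (.inr (.inl h')))), rfl⟩
  · subst h
    exact ⟨.inr (.inr (.inr (.inr (.inr l')))), rfl⟩

theorem UG_edges : (UG side k x d).edgeSet.ncard ≤ Fintype.card (VT k x d) := by
  have h : (UG side k x d).edgeSet ⊆ Set.range (edgeOf side k x d) := by
    intro e
    induction e with
    | _ u v =>
      intro he
      rw [SimpleGraph.mem_edgeSet] at he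
      rcases he with he | he
      · obtain ⟨w, hw⟩ := rel_edgeOf side k x d he
        exact ⟨w, hw⟩
      · obtain ⟨w, hw⟩ := rel_edgeOf side k x d he
        exact ⟨w, by rw [hw, Sym2.eq_swap]⟩
  calc (UG side k x d).edgeSet.ncard ≤ (Set.range (edgeOf side k x d)).ncard :=
        Set.ncard_le_ncard h (Set.finite_range _)
    _ ≤ Fintype.card (VT k x d) := by
        rw [← Set.image_univ]
        refine (Set.ncard_image_le Set.finite_univ).trans ?_
        rw [Set.ncard_univ, Nat.card_eq_fintype_card]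

theorem UG_hasPST (c : ℕ) (hc : Odd c) (hc3 : 3 < c)
    (hN : (Fintype.card C : ℂ) = 2 * (c : ℂ) ^ 2 - 5)
    (hP : ∀ y, (∑ y', ind (side y' = side y)) + k y + x y = 2 * (c : ℂ) ^ 2 + 16)
    (hX : (∑ y, (x y : ℂ)) = 36 * (c : ℂ) ^ 2 - 76) (hd : ∀ g, d g ≤ x g.1)
    (hR : ∀ y, (∑ y', ind (side y' = side y) * x y') + ∑ j, ((x y : ℂ) - d ⟨y, j⟩) =
      36 * (c : ℂ) ^ 2 - 38) :
    HasPST (UG side k x d) := by
  classical
  have hf : (Pi.single (.inl true) 1 + Pi.single (.inl false) 1 : VT k x d → ℂ) = f0 k x d := by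
    funext u
    rcases u with b | i | c | g | h | l
    · cases b <;> simp [f0, Pi.single_apply]
    all_goals simp [f0, Pi.single_apply]
  refine hasPST_of_chain (UG side k x d) (.inl true) (.inl false) (by simp) (c0 k x d) (z0 k x d)
    c hc hc3 ?_ ?_ ?_ ?_
  · have h1 : ∀ u, act side k x d (Pi.single (.inl true) 1 - Pi.single (.inl false) 1) u = 0 := by
      rintro (b | i | c | g | h | l)
      · rw [act_top]; simp
      · rw [act_mid]; simp
      · rw [act_c]; simp
      · rw [act_g]; simp
      · rw [act_h]; simp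
      · rw [act_l]; simp
    funext u
    exact h1 u
  · rw [hf]
    have h1 := act_f1 side k x d
    rw [← act_f0 side] at h1
    exact h1
  · rw [hf]
    have h1 := act_c1 side k x d _ _ hN hP
    rw [← act_c0 side] at h1
    exact h1
  · rw [hf]
    have h1 := act_z1 side k x d _ _ hX hd hR
    rw [← act_z0 side] at h1
    exact h1

end MP_8f05cb_co
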