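import Mathlib
import Pool.Agent.Lib.MP_8f05cb_co.UGraph

namespace MP_8f05cb_co

theorem sum_ind_types {r : ℕ} (mu : Fin r → ℕ) (sd : Fin r → Bool) (y : Fin r → ℕ) (b : Bool) :
    (∑ c : (Σ t : Fin r, Fin (mu t)), ind (sd c.1 = b) * (y c.1 : ℂ)) =
      ((∑ t, if sd t = b then mu t * y t else 0 : ℕ) : ℂ) := by
  rw [Fintype.sum_sigma]
  push_cast
  refine Finset.sum_congr rfl fun t _ => ?_
  by_cases h : sd t = b
  · simp [h, ind_true]
  · simp [h, ind_false]

theorem m_le_of_types {r : ℕ} (mu kk xx : Fin r → ℕ) (sd : Fin r → Bool) (dd : Fin r → ℕ → ℕ)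
    (c : ℕ) (hc : Odd c) (hc3 : 3 < c) (hN : ∑ t, mu t + 5 = 2 * c ^ 2)
    (hP : ∀ t, (∑ t', if sd t' = sd t then mu t' * 1 else 0) + kk t + xx t = 2 * c ^ 2 + 16)
    (hX : ∑ t, mu t * xx t + 76 = 36 * c ^ 2) (hd : ∀ t i, dd t i ≤ xx t)
    (hR : ∀ t, (∑ t', if sd t' = sd t then mu t' * xx t' else 0) +
      ∑ i ∈ Finset.range (kk t), (xx t - dd t i) + 38 = 36 * c ^ 2) :
    m (4 + ∑ t, mu t * (1 + kk t + ∑ i ∈ Finset.range (kk t),
      dd t i * (1 + (xx t - dd t i)))) ≤
    ((4 + ∑ t, mu t * (1 + kk t + ∑ i ∈ Finset.range (kk t),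
      dd t i * (1 + (xx t - dd t i))) : ℕ) : ℕ∞) := by
  let C : Type := Σ t : Fin r, Fin (mu t)
  set k : C → ℕ := fun c => kk c.1 with hk
  set x : C → ℕ := fun c => xx c.1 with hx
  set side : C → Bool := fun c => sd c.1 with hside
  set d : GT k → ℕ := fun g => dd g.1.1 g.2.val with hddef
  have hcardC : Fintype.card C = ∑ t, mu t := by
    refine (Fintype.card_sigma (α := fun t : Fin r => Fin (mu t))).trans ?_
    simp
  have hPST : HasPST (UG side k x d) := by
    refine UG_hasPST side k x d c hc hc3 ?_ ?_ ?_ ?_ ?_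
    · rw [hcardC]
      have : ((∑ t, mu t + 5 : ℕ) : ℂ) = ((2 * c ^ 2 : ℕ) : ℂ) := by rw [hN]
      push_cast at this ⊢
      linear_combination this
    · intro y
      have h1 := sum_ind_types mu sd (fun _ => 1) (sd y.1)
      simp only [Nat.cast_one, mul_one] at h1
      have h2 := hP y.1
      simp only [mul_one] at h2
      rw [hside, h1]
      have : (((∑ t', if sd t' = sd y.1 then mu t' else 0) + kk y.1 + xx y.1 : ℕ) : ℂ) =
        ((2 * c ^ 2 + 16 : ℕ) : ℂ) := by rw [h2]
      push_cast at this ⊢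
      exact this
    · have h1 : (∑ y : C, (x y : ℂ)) = ((∑ t, mu t * xx t : ℕ) : ℂ) := by
        rw [hx]
        refine (Fintype.sum_sigma (fun y : (Σ t : Fin r, Fin (mu t)) => (xx y.1 : ℂ))).trans ?_
        simp
      rw [h1]
      have : ((∑ t, mu t * xx t + 76 : ℕ) : ℂ) = ((36 * c ^ 2 : ℕ) : ℂ) := by rw [hX]
      push_cast at this ⊢
      linear_combination this
    · intro g
      exact hd _ _
    · intro y
      have h1 := sum_ind_types mu sd xx (sd y.1)
      have h3 : (∑ j : Fin (k y), ((x y : ℂ) - (d ⟨y, j⟩ : ℂ))) =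
          ((∑ i ∈ Finset.range (kk y.1), (xx y.1 - dd y.1 i) : ℕ) : ℂ) := by
        rw [← Fin.sum_univ_eq_sum_range (fun i => xx y.1 - dd y.1 i) (kk y.1)]
        push_cast
        refine Finset.sum_congr rfl fun j _ => ?_
        rw [Nat.cast_sub (hd _ _)]
      rw [h3]
      have h2 := hR y.1
      have h4 : (∑ y' : C, ind (side y' = side y) * (x y' : ℂ)) =
        ((∑ t, if sd t = sd y.1 then mu t * xx t else 0 : ℕ) : ℂ) := h1
      rw [h4]
      have : (((∑ t', if sd t' = sd y.1 then mu t' * xx t' else 0) +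
        ∑ i ∈ Finset.range (kk y.1), (xx y.1 - dd y.1 i) + 38 : ℕ) : ℂ) =
        ((36 * c ^ 2 : ℕ) : ℂ) := by rw [h2]
      push_cast at this ⊢
      linear_combination this
  have hcard : Fintype.card (VT k x d) = 4 + ∑ t, mu t * (1 + kk t +
      ∑ i ∈ Finset.range (kk t), dd t i * (1 + (xx t - dd t i))) := by
    have hG : ∀ F : Fin r → ℕ → ℕ, (∑ g : GT k, F g.1.1 g.2.val) =
        ∑ t, mu t * ∑ i ∈ Finset.range (kk t), F t i := by
      intro F
      have e1 : (∑ g : GT k, F g.1.1 g.2.val) = ∑ c : C, ∑ j : Fin (k c), F c.1 j.val :=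
        Fintype.sum_sigma (fun g : GT k => F g.1.1 g.2.val)
      have e2 : ∀ c : C, (∑ j : Fin (k c), F c.1 j.val) = ∑ i ∈ Finset.range (kk c.1), F c.1 i :=
        fun c => Fin.sum_univ_eq_sum_range (fun i => F c.1 i) (kk c.1)
      rw [e1, Finset.sum_congr rfl (fun c _ => e2 c)]
      have e3 : (∑ c : C, ∑ i ∈ Finset.range (kk c.1), F c.1 i) =
        ∑ t : Fin r, ∑ j : Fin (mu t), ∑ i ∈ Finset.range (kk t), F t i :=
        Fintype.sum_sigma (fun c : C => ∑ i ∈ Finset.range (kk c.1), F c.1 i)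
      rw [e3]
      simp
    have hcG : Fintype.card (GT k) = ∑ t, mu t * kk t := by
      have := hG (fun _ _ => 1)
      simpa using this
    have hcH : Fintype.card (HT k d) = ∑ t, mu t * ∑ i ∈ Finset.range (kk t), dd t i := by
      rw [← hG dd]
      rw [Fintype.card_sigma]
      simp [hddef]
    have hcL : Fintype.card (LT k x d) =
        ∑ t, mu t * ∑ i ∈ Finset.range (kk t), dd t i * (xx t - dd t i) := by
      rw [← hG (fun t i => dd t i * (xx t - dd t i))]
      rw [Fintype.card_sigma]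
      simp only [Fintype.card_fin]
      have e1 : (∑ h : HT k d, (x h.1.1 - d h.1)) = ∑ g : GT k, ∑ j : Fin (d g), (x g.1 - d g) :=
        Fintype.sum_sigma (fun h : HT k d => (x h.1.1 - d h.1))
      rw [e1]
      simp [hddef, hx]
    have : Fintype.card (VT k x d) = 2 + (2 + (Fintype.card C + (Fintype.card (GT k) +
        (Fintype.card (HT k d) + Fintype.card (LT k x d))))) := by
      rw [Fintype.card_sum, Fintype.card_sum, Fintype.card_sum, Fintype.card_sum, Fintype.card_sum,
        Fintype.card_bool]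
    rw [this, hcG, hcH, hcL, hcardC]
    rw [← Finset.sum_add_distrib, ← Finset.sum_add_distrib, ← Finset.sum_add_distrib]
    rw [← add_assoc]
    congr 1
    refine Finset.sum_congr rfl fun t _ => ?_
    have : ∑ i ∈ Finset.range (kk t), dd t i * (1 + (xx t - dd t i)) =
      ∑ i ∈ Finset.range (kk t), dd t i + ∑ i ∈ Finset.range (kk t), dd t i * (xx t - dd t i) := by
      rw [← Finset.sum_add_distrib]
      refine Finset.sum_congr rfl fun i _ => ?_
      ring
    rw [this]
    ring
  have h1 := m_le_of_graph (UG side k x d) (UG_connected side k x d) hPST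
  have h2 : ((UG side k x d).edgeSet.ncard : ℕ∞) ≤ (Fintype.card (VT k x d) : ℕ∞) := by
    exact_mod_cast UG_edges side k x d
  rw [← hcard]
  exact h1.trans h2

/-- the even case -/
theorem m_le_even (c u v w : ℕ) (hc : Odd c) (hc3 : 3 < c) (h : u + v + w + 19 = 2 * c ^ 2) :
    m (46 + 52 * u + 220 * v + 222 * w) ≤ ((46 + 52 * u + 220 * v + 222 * w : ℕ) : ℕ∞) := by
  have key := m_le_of_types (r := 4) ![14, u, v, w] ![2, 3, 3, 3] ![19, 18, 18, 18]
    (fun _ => true) (fun t i => match t with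
      | 0 => 0
      | 1 => if i = 0 then 16 else 0
      | 2 => if i = 2 then 4 else 6
      | 3 => if i = 0 then 6 else 5) c hc hc3
    (by simp [Fin.sum_univ_four]; omega)
    (by intro t; fin_cases t <;> simp [Fin.sum_univ_four] <;> omega)
    (by simp [Fin.sum_univ_four]; omega)
    (by intro t i; fin_cases t <;> simp <;> split_ifs <;> omega)
    (by intro t; fin_cases t <;> simp [Fin.sum_univ_four, Finset.sum_range_succ] <;> omega)
  have hval : 4 + ∑ t : Fin 4, (![14, u, v, w] : Fin 4 → ℕ) t * (1 + (![2, 3, 3, 3] : Fin 4 → ℕ) t +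
      ∑ i ∈ Finset.range ((![2, 3, 3, 3] : Fin 4 → ℕ) t), (match t with
      | 0 => 0
      | 1 => if i = 0 then 16 else 0
      | 2 => if i = 2 then 4 else 6
      | 3 => if i = 0 then 6 else 5) * (1 + ((![19, 18, 18, 18] : Fin 4 → ℕ) t - (match t with
      | 0 => 0
      | 1 => if i = 0 then 16 else 0
      | 2 => if i = 2 then 4 else 6
      | 3 => if i = 0 then 6 else 5)))) = 46 + 52 * u + 220 * v + 222 * w := by
    simp [Fin.sum_univ_four, Finset.sum_range_succ]
    ring
  rw [hval] at key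
  exact key

theorem sum_range_ite (M : ℕ) (F : ℕ → ℕ) :
    (∑ i ∈ Finset.range (M + 15), F (if i < M then 1 else 0)) = M * F 1 + 15 * F 0 := by
  rw [Finset.sum_range_add]
  have h1 : ∑ i ∈ Finset.range M, F (if i < M then 1 else 0) = M * F 1 := by
    rw [Finset.sum_congr rfl (g := fun _ => F 1)]
    · simp
    · intro i hi
      simp [Finset.mem_range.1 hi]
  have h2 : ∑ i ∈ Finset.range 15, F (if M + i < M then 1 else 0) = 15 * F 0 := by
    rw [Finset.sum_congr rfl (g := fun _ => F 0)]
    · simp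
    · intro i hi
      simp
  rw [h1, h2]

/-- the odd case -/
theorem m_le_odd (c u v w M : ℕ) (hc : Odd c) (hc3 : 3 < c) (hM : u + v + w = M)
    (h : M + 19 = 2 * c ^ 2) :
    m (72 + 20 * M + 65 * u + 233 * v + 231 * w) ≤
      ((72 + 20 * M + 65 * u + 233 * v + 231 * w : ℕ) : ℕ∞) := by
  have key := m_le_of_types (r := 5) ![1, 13, u, v, w] ![M + 15, 3, 4, 4, 4] ![19, 19, 18, 18, 18]
    ![false, true, true, true, true] (fun t i => match t with
      | 0 => if i < M then 1 else 0
      | 1 => 0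
      | 2 => if i = 0 then 15 else 0
      | 3 => if i = 3 then 3 else 4
      | 4 => if i = 0 then 5 else if i = 1 then 4 else 3) c hc hc3
    (by simp [Fin.sum_univ_five]; omega)
    (by intro t; fin_cases t <;> simp [Fin.sum_univ_five] <;> omega)
    (by simp [Fin.sum_univ_five]; omega)
    (by intro t i; fin_cases t <;> simp <;> split_ifs <;> omega)
    (by
      intro t; fin_cases t
      · have := sum_range_ite M (fun y => 19 - y)
        simp only [Fin.sum_univ_five]
        simp
        rw [this]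
        omega
      all_goals simp [Fin.sum_univ_five, Finset.sum_range_succ] <;> omega)
  have hval : 4 + ∑ t : Fin 5, (![1, 13, u, v, w] : Fin 5 → ℕ) t *
      (1 + (![M + 15, 3, 4, 4, 4] : Fin 5 → ℕ) t +
      ∑ i ∈ Finset.range ((![M + 15, 3, 4, 4, 4] : Fin 5 → ℕ) t), (match t with
      | 0 => if i < M then 1 else 0
      | 1 => 0
      | 2 => if i = 0 then 15 else 0
      | 3 => if i = 3 then 3 else 4
      | 4 => if i = 0 then 5 else if i = 1 then 4 else 3) *
      (1 + ((![19, 19, 18, 18, 18] : Fin 5 → ℕ) t - (match t with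
      | 0 => if i < M then 1 else 0
      | 1 => 0
      | 2 => if i = 0 then 15 else 0
      | 3 => if i = 3 then 3 else 4
      | 4 => if i = 0 then 5 else if i = 1 then 4 else 3)))) =
      72 + 20 * M + 65 * u + 233 * v + 231 * w := by
    have := sum_range_ite M (fun y => y * (1 + (19 - y)))
    simp only [Fin.sum_univ_five]
    simp
    simp at this
    rw [this]
    simp [Finset.sum_range_succ]
    ring
  rw [hval] at key
  exact key

end MP_8f05cb_co
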