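import Mathlib
import Pool.Agent.Lib.MP_8f05cb_co.Count

namespace MP_8f05cb_co

/-- size of a branch with three grandchildren having `p`, `q`, `16 - p - q` children -/
def sz3 (p q : ℕ) : ℕ :=
  4 + (p * (1 + (18 - p)) + q * (1 + (18 - q)) + (16 - p - q) * (1 + (18 - (16 - p - q))))

/-- size of a branch with four grandchildren having `p`, `q`, `r`, `15 - p - q - r` children -/
def sz4 (p q r : ℕ) : ℕ :=
  5 + (p * (1 + (18 - p)) + q * (1 + (18 - q)) + r * (1 + (18 - r)) +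
    (15 - p - q - r) * (1 + (18 - (15 - p - q - r))))

def tabE : List (ℕ × ℕ × ℕ × ℕ) :=
  [(6, 5, 6, 5), (6, 6, 6, 5), (6, 6, 6, 6), (7, 5, 6, 6), (7, 5, 7, 5), (7, 6, 6, 6), (7, 6, 7,
   5), (8, 4, 7, 5), (7, 6, 7, 6), (8, 4, 7, 6), (8, 4, 8, 4), (8, 5, 8, 4), (8, 5, 8, 5), (7,
   7, 8, 4), (7, 7, 8, 5), (8, 6, 8, 5), (7, 7, 7, 7), (8, 6, 7, 7), (8, 6, 8, 6), (9, 4, 8, 6),
   (9, 4, 9, 4), (9, 5, 8, 6), (9, 5, 9, 4), (8, 7, 8, 6), (9, 5, 9, 5), (10, 3, 8, 6), (8, 7,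
   9, 5), (10, 4, 9, 4), (8, 7, 8, 7), (10, 4, 9, 5), (10, 3, 8, 7), (10, 4, 8, 7), (10, 3, 10,
   3), (10, 4, 10, 3), (10, 4, 10, 4), (8, 8, 8, 7), (10, 5, 10, 3), (10, 5, 10, 4), (8, 8, 10,
   4), (9, 7, 10, 4), (10, 5, 10, 5), (8, 8, 10, 5), (8, 8, 8, 8), (9, 7, 8, 8), (9, 7, 9, 7),
   (11, 3, 8, 8), (11, 3, 9, 7), (10, 6, 9, 7), (11, 3, 11, 3), (10, 6, 11, 3), (10, 6, 10, 6),
   (11, 4, 10, 6), (11, 4, 11, 4), (12, 2, 10, 5), (11, 5, 11, 3), (11, 5, 10, 6), (11, 5, 11,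
   4), (12, 2, 11, 3), (12, 2, 10, 6), (12, 2, 11, 4), (11, 5, 11, 5), (12, 4, 11, 3), (12, 4,
   10, 6), (12, 2, 11, 5), (12, 3, 11, 5), (13, 2, 8, 8), (12, 2, 12, 2), (12, 3, 12, 2), (12,
   3, 12, 3), (13, 2, 10, 6), (12, 4, 12, 2), (12, 4, 12, 3), (13, 3, 11, 4), (14, 1, 10, 4),
   (12, 4, 12, 4), (15, 1, 8, 4), (13, 3, 11, 5), (13, 2, 12, 2), (13, 2, 12, 3), (13, 3, 12,
   2), (13, 3, 12, 3), (13, 2, 12, 4), (14, 1, 11, 4), (13, 3, 12, 4), (15, 1, 8, 7)]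

def tabO : List (ℕ × ℕ × ℕ × ℕ × ℕ × ℕ) :=
  [(4, 4, 4, 4, 4, 4), (5, 4, 3, 4, 4, 4), (5, 4, 3, 5, 4, 3), (5, 4, 4, 5, 4, 3), (5, 4, 4, 5, 4,
   4), (6, 3, 3, 5, 4, 4), (6, 3, 3, 6, 3, 3), (6, 4, 3, 6, 3, 3), (6, 4, 3, 6, 4, 3), (5, 5, 4,
   6, 4, 3), (5, 5, 4, 5, 5, 4), (6, 5, 2, 5, 5, 4), (6, 5, 2, 6, 5, 2), (7, 3, 3, 6, 5, 2), (7,
   3, 3, 7, 3, 3), (7, 4, 2, 7, 3, 3), (7, 4, 2, 7, 4, 2), (7, 4, 3, 7, 4, 2), (7, 4, 3, 7, 4,
   3), (6, 6, 2, 7, 4, 3), (6, 6, 2, 6, 6, 2), (7, 5, 2, 6, 6, 2), (7, 5, 2, 7, 5, 2), (8, 3, 2,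
   7, 5, 2), (8, 3, 2, 8, 3, 2), (8, 3, 3, 8, 3, 2), (8, 3, 3, 8, 3, 3), (8, 4, 2, 8, 3, 3), (8,
   4, 2, 8, 4, 2), (7, 6, 1, 8, 4, 2), (7, 6, 1, 7, 6, 1), (8, 4, 3, 7, 6, 1), (8, 4, 3, 8, 4,
   3), (8, 5, 1, 8, 4, 3), (8, 5, 1, 8, 5, 1), (9, 2, 2, 8, 5, 1), (9, 2, 2, 9, 2, 2), (9, 3, 2,
   9, 2, 2), (9, 3, 2, 9, 3, 2), (9, 4, 1, 9, 2, 2), (9, 4, 1, 9, 3, 2), (9, 4, 2, 9, 3, 2), (9,
   4, 1, 9, 4, 1), (9, 4, 2, 9, 4, 1), (9, 4, 2, 9, 4, 2), (10, 2, 2, 9, 3, 2), (9, 5, 1, 9, 4,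
   1), (9, 5, 1, 9, 4, 2), (10, 2, 2, 9, 4, 2), (10, 3, 1, 9, 4, 2), (9, 5, 1, 9, 5, 1), (10, 2,
   2, 9, 5, 1), (10, 2, 2, 10, 2, 2), (10, 3, 1, 10, 2, 2), (10, 3, 1, 10, 3, 1), (10, 3, 2, 10,
   3, 1), (10, 3, 2, 10, 3, 2), (10, 4, 1, 10, 3, 1), (10, 4, 1, 10, 3, 2), (10, 5, 0, 9, 5, 1),
   (10, 4, 1, 10, 4, 1), (10, 5, 0, 10, 3, 1), (10, 5, 0, 10, 3, 2), (11, 2, 1, 10, 3, 2), (10,
   5, 0, 10, 4, 1), (11, 2, 1, 10, 4, 1), (11, 2, 2, 10, 4, 1), (11, 3, 1, 10, 4, 1), (10, 5, 0,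
   10, 5, 0), (11, 2, 1, 10, 5, 0), (11, 2, 1, 11, 2, 1), (11, 2, 2, 11, 2, 1), (11, 2, 2, 11,
   2, 2), (11, 3, 1, 11, 2, 2), (11, 3, 1, 11, 3, 1), (11, 4, 0, 11, 2, 1), (11, 4, 0, 11, 2,
   2), (11, 4, 0, 11, 3, 1), (12, 3, 0, 10, 4, 1), (12, 1, 1, 10, 5, 0), (11, 4, 0, 11, 4, 0),
   (12, 1, 1, 11, 2, 2), (12, 1, 1, 11, 3, 1), (12, 2, 1, 11, 3, 1)]

theorem tabE_ok : ∀ s < 85, ((tabE.getD s default).1 + (tabE.getD s default).2.1 ≤ 16 ∧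
    (tabE.getD s default).2.2.1 + (tabE.getD s default).2.2.2 ≤ 16 ∧
    sz3 (tabE.getD s default).1 (tabE.getD s default).2.1 +
    sz3 (tabE.getD s default).2.2.1 (tabE.getD s default).2.2.2 + 2 * s = 444) := by
  decide

theorem tabO_ok : ∀ s < 84, ((tabO.getD s default).1 + (tabO.getD s default).2.1 +
      (tabO.getD s default).2.2.1 ≤ 15 ∧
    (tabO.getD s default).2.2.2.1 + (tabO.getD s default).2.2.2.2.1 +
      (tabO.getD s default).2.2.2.2.2 ≤ 15 ∧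
    sz4 (tabO.getD s default).1 (tabO.getD s default).2.1 (tabO.getD s default).2.2.1 +
    sz4 (tabO.getD s default).2.2.2.1 (tabO.getD s default).2.2.2.2.1
      (tabO.getD s default).2.2.2.2.2 + 2 * s = 466) := by
  decide

theorem m_le_even_fine (c u v p1 q1 p2 q2 : ℕ) (hc : Odd c) (hc3 : 3 < c)
    (h : u + v + 2 + 19 = 2 * c ^ 2) (h1 : p1 + q1 ≤ 16) (h2 : p2 + q2 ≤ 16) :
    m (46 + 52 * u + 222 * v + sz3 p1 q1 + sz3 p2 q2) ≤
      ((46 + 52 * u + 222 * v + sz3 p1 q1 + sz3 p2 q2 : ℕ) : ℕ∞) := by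
  have key := m_le_of_types (r := 5) ![14, u, v, 1, 1] ![2, 3, 3, 3, 3] ![19, 18, 18, 18, 18]
    (fun _ => true) (fun t i => match t with
      | 0 => 0
      | 1 => if i = 0 then 16 else 0
      | 2 => if i = 0 then 6 else 5
      | 3 => if i = 0 then p1 else if i = 1 then q1 else 16 - p1 - q1
      | 4 => if i = 0 then p2 else if i = 1 then q2 else 16 - p2 - q2) c hc hc3
    (by simp [Fin.sum_univ_five]; omega)
    (by intro t; fin_cases t <;> simp [Fin.sum_univ_five] <;> omega)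
    (by simp [Fin.sum_univ_five]; omega)
    (by intro t i; fin_cases t <;> simp <;> split_ifs <;> omega)
    (by intro t; fin_cases t <;> simp [Fin.sum_univ_five, Finset.sum_range_succ] <;> omega)
  have hval : 4 + ∑ t : Fin 5, (![14, u, v, 1, 1] : Fin 5 → ℕ) t *
      (1 + (![2, 3, 3, 3, 3] : Fin 5 → ℕ) t +
      ∑ i ∈ Finset.range ((![2, 3, 3, 3, 3] : Fin 5 → ℕ) t), (match t with
      | 0 => 0
      | 1 => if i = 0 then 16 else 0
      | 2 => if i = 0 then 6 else 5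
      | 3 => if i = 0 then p1 else if i = 1 then q1 else 16 - p1 - q1
      | 4 => if i = 0 then p2 else if i = 1 then q2 else 16 - p2 - q2) *
      (1 + ((![19, 18, 18, 18, 18] : Fin 5 → ℕ) t - (match t with
      | 0 => 0
      | 1 => if i = 0 then 16 else 0
      | 2 => if i = 0 then 6 else 5
      | 3 => if i = 0 then p1 else if i = 1 then q1 else 16 - p1 - q1
      | 4 => if i = 0 then p2 else if i = 1 then q2 else 16 - p2 - q2)))) =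
      46 + 52 * u + 222 * v + sz3 p1 q1 + sz3 p2 q2 := by
    simp only [Fin.sum_univ_five]
    simp [Finset.sum_range_succ]
    unfold sz3
    ring
  rw [hval] at key
  exact key

theorem m_le_odd_fine (c u v p1 q1 r1 p2 q2 r2 M : ℕ) (hc : Odd c) (hc3 : 3 < c)
    (hM : u + v + 2 = M) (h : M + 19 = 2 * c ^ 2) (h1 : p1 + q1 + r1 ≤ 15)
    (h2 : p2 + q2 + r2 ≤ 15) :
    m (72 + 20 * M + 65 * u + 233 * v + sz4 p1 q1 r1 + sz4 p2 q2 r2) ≤
      ((72 + 20 * M + 65 * u + 233 * v + sz4 p1 q1 r1 + sz4 p2 q2 r2 : ℕ) : ℕ∞) := by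
  have key := m_le_of_types (r := 6) ![1, 13, u, v, 1, 1] ![M + 15, 3, 4, 4, 4, 4]
    ![19, 19, 18, 18, 18, 18]
    ![false, true, true, true, true, true] (fun t i => match t with
      | 0 => if i < M then 1 else 0
      | 1 => 0
      | 2 => if i = 0 then 15 else 0
      | 3 => if i = 3 then 3 else 4
      | 4 => if i = 0 then p1 else if i = 1 then q1 else if i = 2 then r1 else 15 - p1 - q1 - r1
      | 5 => if i = 0 then p2 else if i = 1 then q2 else if i = 2 then r2 else 15 - p2 - q2 - r2)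
    c hc hc3
    (by simp [Fin.sum_univ_six]; omega)
    (by intro t; fin_cases t <;> simp [Fin.sum_univ_six] <;> omega)
    (by simp [Fin.sum_univ_six]; omega)
    (by intro t i; fin_cases t <;> simp <;> split_ifs <;> omega)
    (by
      intro t; fin_cases t
      · have := sum_range_ite M (fun y => 19 - y)
        simp only [Fin.sum_univ_six]
        simp
        rw [this]
        omega
      all_goals simp [Fin.sum_univ_six, Finset.sum_range_succ] <;> omega)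
  have hval : 4 + ∑ t : Fin 6, (![1, 13, u, v, 1, 1] : Fin 6 → ℕ) t *
      (1 + (![M + 15, 3, 4, 4, 4, 4] : Fin 6 → ℕ) t +
      ∑ i ∈ Finset.range ((![M + 15, 3, 4, 4, 4, 4] : Fin 6 → ℕ) t), (match t with
      | 0 => if i < M then 1 else 0
      | 1 => 0
      | 2 => if i = 0 then 15 else 0
      | 3 => if i = 3 then 3 else 4
      | 4 => if i = 0 then p1 else if i = 1 then q1 else if i = 2 then r1 else 15 - p1 - q1 - r1
      | 5 => if i = 0 then p2 else if i = 1 then q2 else if i = 2 then r2 else 15 - p2 - q2 - r2) *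
      (1 + ((![19, 19, 18, 18, 18, 18] : Fin 6 → ℕ) t - (match t with
      | 0 => if i < M then 1 else 0
      | 1 => 0
      | 2 => if i = 0 then 15 else 0
      | 3 => if i = 3 then 3 else 4
      | 4 => if i = 0 then p1 else if i = 1 then q1 else if i = 2 then r1 else 15 - p1 - q1 - r1
      | 5 => if i = 0 then p2 else if i = 1 then q2 else if i = 2 then r2 else 15 - p2 - q2 - r2)))) =
      72 + 20 * M + 65 * u + 233 * v + sz4 p1 q1 r1 + sz4 p2 q2 r2 := by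
    have := sum_range_ite M (fun y => y * (1 + (19 - y)))
    simp only [Fin.sum_univ_six]
    simp
    simp at this
    rw [this]
    simp [Finset.sum_range_succ]
    unfold sz4
    ring
  rw [hval] at key
  exact key

end MP_8f05cb_co
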