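import Mathlib

namespace MP_8f05cb_co

variable {V : Type} [Fintype V] [DecidableEq V]

open scoped Classical in
/-- a solution of the Schroedinger equation of the graph `G`, starting at `a` -/
structure Flow (G : SimpleGraph V) (a : V) (ψ : ℝ → V → ℂ) : Prop where
  zero : ψ 0 = Pi.single a 1
  deriv : ∀ t v, HasDerivAt (fun s => ψ s v)
    (Complex.I * ∑ u, if G.Adj v u then ψ t u else 0) t

namespace Flow

variable {G : SimpleGraph V} {a : V} {ψ : ℝ → V → ℂ}

/-- the current across the pair `v, u` -/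
noncomputable def F (ψ : ℝ → V → ℂ) (t : ℝ) (v u : V) : ℝ :=
  2 * ((ψ t v).im * (ψ t u).re - (ψ t v).re * (ψ t u).im)

omit [Fintype V] [DecidableEq V] in
theorem F_antisymm (t : ℝ) (v u : V) : F ψ t v u = -F ψ t u v := by
  unfold F; ring

omit [Fintype V] [DecidableEq V] in
theorem abs_F_le (t : ℝ) (v u : V) : |F ψ t v u| ≤ 2 * (‖ψ t v‖ * ‖ψ t u‖) := by
  have h1 : F ψ t v u = 2 * ((starRingEnd ℂ) (ψ t u) * ψ t v).im := by
    unfold F
    simp only [Complex.mul_im, Complex.conj_re, Complex.conj_im]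
    ring
  rw [h1, abs_mul, abs_of_pos (by norm_num : (0 : ℝ) < 2)]
  have h2 := Complex.abs_im_le_norm ((starRingEnd ℂ) (ψ t u) * ψ t v)
  rw [norm_mul, RCLike.norm_conj] at h2
  nlinarith

open scoped Classical in
theorem hasDerivAt_normSq (hψ : Flow G a ψ) (t : ℝ) (v : V) :
    HasDerivAt (fun s => Complex.normSq (ψ s v)) (∑ u, if G.Adj v u then F ψ t v u else 0) t := by
  have h := hψ.deriv t v
  have hre : HasDerivAt (fun s => (ψ s v).re)
      (Complex.I * ∑ u, if G.Adj v u then ψ t u else 0).re t :=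
    Complex.reCLM.hasFDerivAt.comp_hasDerivAt t h
  have him : HasDerivAt (fun s => (ψ s v).im)
      (Complex.I * ∑ u, if G.Adj v u then ψ t u else 0).im t :=
    Complex.imCLM.hasFDerivAt.comp_hasDerivAt t h
  have h2 := (hre.fun_mul hre).fun_add (him.fun_mul him)
  have h3 : (fun s => Complex.normSq (ψ s v)) =
      (fun s => (ψ s v).re * (ψ s v).re + (ψ s v).im * (ψ s v).im) := by
    funext s
    rw [Complex.normSq_apply]
  rw [h3]
  refine h2.congr_deriv ?_
  rw [Complex.I_mul_re, Complex.I_mul_im, Complex.im_sum, Complex.re_sum]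
  have e1 : ∀ u, (if G.Adj v u then F ψ t v u else 0) =
      2 * (ψ t v).im * (if G.Adj v u then ψ t u else 0).re -
      2 * (ψ t v).re * (if G.Adj v u then ψ t u else 0).im := by
    intro u
    unfold F
    split_ifs
    · ring
    · simp
  rw [Finset.sum_congr rfl (fun u _ => e1 u), Finset.sum_sub_distrib, ← Finset.mul_sum,
    ← Finset.mul_sum]
  ring

open scoped Classical in
theorem hasDerivAt_weight (hψ : Flow G a ψ) (h : V → ℝ) (t : ℝ) :
    HasDerivAt (fun s => ∑ v, h v * Complex.normSq (ψ s v))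
      ((∑ v, ∑ u, (h v - h u) * (if G.Adj v u then F ψ t v u else 0)) / 2) t := by
  have h1 : HasDerivAt (fun s => ∑ v, h v * Complex.normSq (ψ s v))
      (∑ v, h v * (∑ u, if G.Adj v u then F ψ t v u else 0)) t := by
    apply HasDerivAt.fun_sum
    intro v _
    exact (hψ.hasDerivAt_normSq t v).const_mul (h v)
  refine h1.congr_deriv ?_
  have h2 : ∑ v, ∑ u, h u * (if G.Adj v u then F ψ t v u else 0) =
      -∑ v, ∑ u, h v * (if G.Adj v u then F ψ t v u else 0) := by
    rw [Finset.sum_comm, ← Finset.sum_neg_distrib]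
    refine Finset.sum_congr rfl fun v _ => ?_
    rw [← Finset.sum_neg_distrib]
    refine Finset.sum_congr rfl fun u _ => ?_
    rw [G.adj_comm u v]
    split_ifs
    · rw [F_antisymm]; ring
    · ring
  have h3 : (∑ v, ∑ u, (h v - h u) * (if G.Adj v u then F ψ t v u else 0)) =
      2 * ∑ v, ∑ u, h v * (if G.Adj v u then F ψ t v u else 0) := by
    have : ∀ v u, (h v - h u) * (if G.Adj v u then F ψ t v u else 0) =
      h v * (if G.Adj v u then F ψ t v u else 0) - h u * (if G.Adj v u then F ψ t v u else 0) := by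
      intro v u; ring
    simp only [this, Finset.sum_sub_distrib, h2]
    ring
  rw [h3]
  have h4 : ∑ v, h v * (∑ u, if G.Adj v u then F ψ t v u else 0) =
      ∑ v, ∑ u, h v * (if G.Adj v u then F ψ t v u else 0) := by
    refine Finset.sum_congr rfl fun v _ => ?_
    rw [Finset.mul_sum]
  rw [h4]
  ring

/-- The transport identity: if `h` is constant along all edges except `p q`, the derivative of the
expectation of `h` is the current across `p q`. -/
theorem hasDerivAt_cut (hψ : Flow G a ψ) (h : V → ℝ) (p q : V) (hpq : G.Adj p q)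
    (hp : h p = 0) (hq : h q = 1)
    (hh : ∀ u v, G.Adj u v → h u = h v ∨ (u = p ∧ v = q) ∨ (u = q ∧ v = p)) (t : ℝ) :
    HasDerivAt (fun s => ∑ v, h v * Complex.normSq (ψ s v)) (F ψ t q p) t := by
  classical
  refine (hψ.hasDerivAt_weight h t).congr_deriv ?_
  have hne : p ≠ q := hpq.ne
  have h0 : ∀ v u, (h v - h u) * (if G.Adj v u then F ψ t v u else 0) ≠ 0 →
      (v = p ∧ u = q) ∨ (v = q ∧ u = p) := by
    intro v u h1
    by_cases hvu : G.Adj v u
    · rcases hh v u hvu with h2 | h2 | h2
      · rw [h2] at h1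
        simp at h1
      · exact Or.inl h2
      · exact Or.inr h2
    · simp [hvu] at h1
  have hp' : ∑ u, (h p - h u) * (if G.Adj p u then F ψ t p u else 0) = -F ψ t p q := by
    rw [Finset.sum_eq_single q]
    · rw [if_pos hpq, hp, hq]; ring
    · intro u _ hu
      by_contra h1
      rcases h0 p u h1 with h2 | h2
      · exact hu h2.2
      · exact hne h2.1
    · simp
  have hq' : ∑ u, (h q - h u) * (if G.Adj q u then F ψ t q u else 0) = F ψ t q p := by
    rw [Finset.sum_eq_single p]
    · rw [if_pos hpq.symm, hp, hq]; ring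
    · intro u _ hu
      by_contra h1
      rcases h0 q u h1 with h2 | h2
      · exact hne h2.1.symm
      · exact hu h2.2
    · simp
  rw [Finset.sum_eq_add p q hne, hp', hq', F_antisymm t p q]
  · ring
  · intro v _ hv
    refine Finset.sum_eq_zero fun u _ => ?_
    by_contra h1
    rcases h0 v u h1 with h2 | h2
    · exact hv.1 h2.1
    · exact hv.2 h2.1
  · simp
  · simp

theorem norm_one (hψ : Flow G a ψ) (t : ℝ) : ∑ v, Complex.normSq (ψ t v) = 1 := by
  classical
  have h1 : ∀ t, HasDerivAt (fun s => ∑ v, (1 : ℝ) * Complex.normSq (ψ s v)) 0 t := by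
    intro t
    refine (hψ.hasDerivAt_weight (fun _ => 1) t).congr_deriv ?_
    simp
  have h2 : ∀ t, (∑ v, (1 : ℝ) * Complex.normSq (ψ t v)) = ∑ v, (1 : ℝ) * Complex.normSq (ψ 0 v) := by
    intro t
    exact is_const_of_deriv_eq_zero (fun s => (h1 s).differentiableAt) (fun s => (h1 s).deriv) t 0
  have h3 := h2 t
  simp only [one_mul] at h3
  rw [h3, hψ.zero, Finset.sum_eq_single a]
  · simp
  · intro b _ hb
    simp [hb]
  · simp

end Flow

end MP_8f05cb_co
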