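import Mathlib
import Pool.Agent.Lib.MP_8f05cb_co.Arith

namespace MP_8f05cb_co

open scoped Matrix
open Polynomial

variable {V : Type} [Fintype V] [DecidableEq V]

theorem aeval_map_mulVec {R : Type} [CommRing R] (f : ℤ →+* R) (M : Matrix V V ℤ) (p : ℤ[X])
    (v : V → ℤ) (i : V) :
    (aeval (f.mapMatrix M) (p.map f) *ᵥ (fun j => f (v j))) i = f ((aeval M p *ᵥ v) i) := by
  have h1 : aeval (f.mapMatrix M) (p.map f) = f.mapMatrix (aeval M p) := by
    have hr : (algebraMap R (Matrix V V R)).comp f =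
        (f.mapMatrix : Matrix V V ℤ →+* Matrix V V R).comp
          (algebraMap ℤ (Matrix V V ℤ)) := Subsingleton.elim _ _
    rw [aeval_def, eval₂_map, hr, aeval_def, hom_eval₂]
  rw [h1, RingHom.map_mulVec]
  rfl

theorem even_of_sign (A : Matrix V V ℂ) (A0 : Matrix V V ℤ)
    (hA : A = A0.map (fun q : ℤ => (q : ℂ))) (a b : V) (hab : a ≠ b)
    (S : Finset ℝ) (x : ℝ → V → ℂ)
    (h1 : ∀ l ∈ S, A *ᵥ x l = (l : ℂ) • x l)
    (hsum : (Pi.single a 1 : V → ℂ) = ∑ l ∈ S, x l) (w : ℝ) (N : ℕ) (hN : w ^ 2 = (N : ℝ))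
    (k : ℝ → ℤ) (hk : ∀ l ∈ S, l = k l * w) (s : ℤ) (hs : s = 1 ∨ s = -1)
    (hb : ∑ l ∈ S, ((-1 : ℂ) ^ (k l).natAbs) • x l = (s : ℂ) • (Pi.single b 1 : V → ℂ)) :
    Even N := by
  classical
  by_contra hodd
  rw [Nat.not_even_iff_odd] at hodd
  set Se := S.filter (fun l => Even (k l)) with hSe
  set So := S.filter (fun l => ¬ Even (k l)) with hSo
  set B := A0 ^ 2 with hB
  have hB' : A ^ 2 = (Int.castRingHom ℂ).mapMatrix B := by
    rw [hB, map_pow, hA]; rfl
  -- general vanishing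
  have hvan : ∀ (S' : Finset ℝ) (hS' : S' ⊆ S) (v : V → ℤ) (c : ℂ)
      (hv : (fun j => ((v j : ℤ) : ℂ)) = c • ∑ l ∈ S', x l),
      (aeval B (∏ l ∈ S', (X - C ((k l) ^ 2 * (N : ℤ))))) *ᵥ v = 0 := by
    intro S' hS' v c hv
    funext i
    rw [Pi.zero_apply]
    have h2 := aeval_map_mulVec (Int.castRingHom ℂ) B (∏ l ∈ S', (X - C ((k l) ^ 2 * (N : ℤ)))) v i
    have h3 : (aeval ((Int.castRingHom ℂ).mapMatrix B)
        ((∏ l ∈ S', (X - C ((k l) ^ 2 * (N : ℤ)))).map (Int.castRingHom ℂ)) *ᵥ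
        (fun j => (Int.castRingHom ℂ) (v j))) = 0 := by
      have hv' : (fun j => (Int.castRingHom ℂ) (v j)) = c • ∑ l ∈ S', x l := hv
      rw [hv', Matrix.mulVec_smul, Matrix.mulVec_sum, Finset.sum_eq_zero, smul_zero]
      intro l hl
      rw [← hB', aeval_mulVec_eigen (A ^ 2) (x l) ((l : ℂ) ^ 2) (by
        rw [pow_two A, ← Matrix.mulVec_mulVec, h1 l (hS' hl), Matrix.mulVec_smul, h1 l (hS' hl),
          smul_smul, ← pow_two])]
      have h4 : ((∏ l ∈ S', (X - C ((k l) ^ 2 * (N : ℤ)))).map (Int.castRingHom ℂ)).eval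
          ((l : ℂ) ^ 2) = 0 := by
        rw [Polynomial.map_prod, eval_prod]
        refine Finset.prod_eq_zero hl ?_
        have h5 : (l : ℝ) ^ 2 = (k l : ℝ) ^ 2 * (N : ℝ) := by
          conv_lhs => rw [hk l (hS' hl)]
          rw [mul_pow, hN]
        have h6 : (l : ℂ) ^ 2 = (k l : ℂ) ^ 2 * (N : ℂ) := by exact_mod_cast h5
        rw [h6]
        simp
      rw [h4, zero_smul]
    rw [h3] at h2
    have h4 : (((aeval B (∏ l ∈ S', (X - C ((k l) ^ 2 * (N : ℤ)))) *ᵥ v) i : ℤ) : ℂ) = 0 := h2.symm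
    exact_mod_cast h4
  -- decomposition into even and odd part
  have hsplit : ∀ y : ℝ → V → ℂ, ∑ l ∈ S, y l = ∑ l ∈ Se, y l + ∑ l ∈ So, y l := by
    intro y
    rw [hSe, hSo, Finset.sum_filter_add_sum_filter_not]
  have hE : ∑ l ∈ Se, ((-1 : ℂ) ^ (k l).natAbs) • x l = ∑ l ∈ Se, x l := by
    refine Finset.sum_congr rfl fun l hl => ?_
    have : Even (k l).natAbs := Int.natAbs_even.2 (Finset.mem_filter.1 hl).2
    rw [this.neg_one_pow, one_smul]
  have hO : ∑ l ∈ So, ((-1 : ℂ) ^ (k l).natAbs) • x l = -∑ l ∈ So, x l := by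
    rw [← Finset.sum_neg_distrib]
    refine Finset.sum_congr rfl fun l hl => ?_
    have : Odd (k l).natAbs := by
      rw [Int.natAbs_odd, ← Int.not_even_iff_odd]
      exact (Finset.mem_filter.1 hl).2
    rw [this.neg_one_pow, neg_one_smul]
  rw [hsplit, hE, hO] at hb
  rw [hsplit] at hsum
  set ve : V → ℤ := Pi.single a 1 + s • Pi.single b 1 with hve
  set vo : V → ℤ := Pi.single a 1 - s • Pi.single b 1 with hvo
  have hcast : ∀ c : V, (fun j => (((Pi.single c 1 : V → ℤ) j : ℤ) : ℂ)) = Pi.single c 1 := by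
    intro c
    funext j
    by_cases h : j = c
    · subst h; simp
    · simp [h]
  have hve' : (fun j => ((ve j : ℤ) : ℂ)) = (2 : ℂ) • ∑ l ∈ Se, x l := by
    have : (fun j => ((ve j : ℤ) : ℂ)) = (Pi.single a 1 : V → ℂ) + (s : ℂ) • Pi.single b 1 := by
      rw [← hcast a, ← hcast b]
      funext j
      simp [hve]
    rw [this, hsum, ← hb, two_smul]
    abel
  have hvo' : (fun j => ((vo j : ℤ) : ℂ)) = (2 : ℂ) • ∑ l ∈ So, x l := by
    have : (fun j => ((vo j : ℤ) : ℂ)) = (Pi.single a 1 : V → ℂ) - (s : ℂ) • Pi.single b 1 := by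
      rw [← hcast a, ← hcast b]
      funext j
      simp [hvo]
    rw [this, hsum, ← hb, two_smul]
    abel
  have h2e := hvan Se (Finset.filter_subset _ _) ve 2 hve'
  have h2o := hvan So (Finset.filter_subset _ _) vo 2 hvo'
  -- reduce modulo two
  set f := Int.castRingHom (ZMod 2) with hf
  set Bb := f.mapMatrix B with hBb
  set vb : V → ZMod 2 := Pi.single a 1 + Pi.single b 1 with hvb
  have hsb : (f s) = 1 := by
    rcases hs with h | h
    · rw [h]; simp
    · rw [h]; decide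
  have hcast2 : ∀ c : V, (fun j => f ((Pi.single c 1 : V → ℤ) j)) = Pi.single c 1 := by
    intro c
    funext j
    by_cases h : j = c
    · subst h; simp
    · simp [h]
  have hvbe : (fun j => f (ve j)) = vb := by
    funext j
    have e1 := congrFun (hcast2 a) j
    have e2 := congrFun (hcast2 b) j
    rw [hve, hvb, Pi.add_apply, Pi.add_apply, Pi.smul_apply, smul_eq_mul, map_add, map_mul, hsb,
      one_mul, e1, e2]
  have hvbo : (fun j => f (vo j)) = vb := by
    funext j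
    have e1 := congrFun (hcast2 a) j
    have e2 := congrFun (hcast2 b) j
    rw [hvo, hvb, Pi.add_apply, Pi.sub_apply, Pi.smul_apply, smul_eq_mul, map_sub, map_mul, hsb,
      one_mul, e1, e2, sub_eq_add_neg, ZMod.neg_eq_self_mod_two]
  have hpe : (∏ l ∈ Se, (X - C ((k l) ^ 2 * (N : ℤ)))).map f = X ^ Se.card := by
    rw [Polynomial.map_prod, Finset.prod_congr rfl (g := fun _ => (X : (ZMod 2)[X]))]
    · rw [Finset.prod_const]
    · intro l hl
      have h7 : f ((k l) ^ 2 * (N : ℤ)) = 0 := by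
        have h8 : Even ((k l) ^ 2 * (N : ℤ)) :=
          (((Finset.mem_filter.1 hl).2).pow_of_ne_zero two_ne_zero).mul_right _
        rw [hf, eq_intCast, ZMod.intCast_eq_zero_iff_even]
        exact h8
      rw [Polynomial.map_sub, map_X, map_C, h7, C_0, sub_zero]
  have hpo : (∏ l ∈ So, (X - C ((k l) ^ 2 * (N : ℤ)))).map f = (X - 1) ^ So.card := by
    rw [Polynomial.map_prod, Finset.prod_congr rfl (g := fun _ => (X - 1 : (ZMod 2)[X]))]
    · rw [Finset.prod_const]
    · intro l hl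
      have h7 : f ((k l) ^ 2 * (N : ℤ)) = 1 := by
        have h8 : Odd ((k l) ^ 2 * (N : ℤ)) := by
          have h9 : Odd (k l) := by
            rw [← Int.not_even_iff_odd]; exact (Finset.mem_filter.1 hl).2
          exact (h9.pow).mul (by exact_mod_cast hodd)
        rw [hf, eq_intCast, ZMod.intCast_eq_one_iff_odd]
        exact h8
      rw [Polynomial.map_sub, map_X, map_C, h7, C_1]
  have h3e : aeval Bb (X ^ Se.card : (ZMod 2)[X]) *ᵥ vb = 0 := by
    funext i
    have := aeval_map_mulVec f B (∏ l ∈ Se, (X - C ((k l) ^ 2 * (N : ℤ)))) ve i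
    rw [h2e, hpe, hvbe] at this
    rw [this]
    simp
  have h3o : aeval Bb ((X - 1) ^ So.card : (ZMod 2)[X]) *ᵥ vb = 0 := by
    funext i
    have := aeval_map_mulVec f B (∏ l ∈ So, (X - C ((k l) ^ 2 * (N : ℤ)))) vo i
    rw [h2o, hpo, hvbo] at this
    rw [this]
    simp
  have hcop : IsCoprime (X ^ Se.card : (ZMod 2)[X]) ((X - 1) ^ So.card) := by
    apply IsCoprime.pow
    refine ⟨1, -1, ?_⟩
    ring
  obtain ⟨p, q, hpq⟩ := hcop
  have h4 : vb = 0 := by
    have h5 : aeval Bb (p * X ^ Se.card + q * (X - 1) ^ So.card) *ᵥ vb = vb := by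
      rw [hpq, map_one, Matrix.one_mulVec]
    rw [map_add, map_mul, map_mul, Matrix.add_mulVec, ← Matrix.mulVec_mulVec,
      ← Matrix.mulVec_mulVec, h3e, h3o, Matrix.mulVec_zero, Matrix.mulVec_zero, add_zero] at h5
    exact h5.symm
  have h5 := congrFun h4 a
  rw [hvb] at h5
  simp [hab] at h5

end MP_8f05cb_co
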