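import Mathlib
import Pool.Agent.Lib.MP_8f05cb_co.Criterion
import Pool.Agent.Lib.MP_8f05cb_co.Mod2
import Pool.Agent.Lib.MP_8f05cb_co.Flow

namespace MP_8f05cb_co

open scoped Matrix
open Complex

variable {V : Type} [Fintype V] [DecidableEq V]

/-- the evolution written in eigenvectors -/
noncomputable def evo (S : Finset ℝ) (x : ℝ → V → ℂ) (t : ℝ) : V → ℂ :=
  ∑ l ∈ S, cexp (I * t * l) • x l

theorem exp_mulVec_sum (A : Matrix V V ℂ) (S : Finset ℝ) (x : ℝ → V → ℂ) (m : ℝ → ℝ)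
    (h1 : ∀ l ∈ S, A *ᵥ x l = (m l : ℂ) • x l) (t : ℝ) :
    NormedSpace.exp ((I * (t : ℂ)) • A) *ᵥ (∑ l ∈ S, x l) = ∑ l ∈ S, cexp (I * t * m l) • x l := by
  rw [Matrix.mulVec_sum]
  refine Finset.sum_congr rfl fun l hl => ?_
  exact exp_mulVec_eigen _ _ _ (by rw [Matrix.smul_mulVec, h1 l hl, smul_smul])

omit [DecidableEq V] in
theorem adj_mulVec (G : SimpleGraph V) [DecidableRel G.Adj] (f : V → ℂ) (v : V) :
    (G.adjMatrix ℂ *ᵥ f) v = ∑ u, if G.Adj v u then f u else 0 := by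
  simp [Matrix.mulVec, dotProduct, SimpleGraph.adjMatrix_apply]

theorem evo_flow (G : SimpleGraph V) [DecidableRel G.Adj] (a : V) (S : Finset ℝ)
    (x : ℝ → V → ℂ) (h1 : ∀ l ∈ S, G.adjMatrix ℂ *ᵥ x l = (l : ℂ) • x l)
    (hsum : (Pi.single a 1 : V → ℂ) = ∑ l ∈ S, x l) : Flow G a (evo S x) := by
  classical
  constructor
  · rw [hsum]
    simp [evo]
  · intro t v
    have h2 : (fun s : ℝ => evo S x s v) = fun s : ℝ => ∑ l ∈ S, cexp (I * s * l) * x l v := by
      funext s
      simp [evo, Finset.sum_apply]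
    rw [h2]
    have h3 : HasDerivAt (fun s : ℝ => ∑ l ∈ S, cexp (I * s * l) * x l v)
        (∑ l ∈ S, (cexp (I * t * l) * (I * 1 * l)) * x l v) t := by
      apply HasDerivAt.fun_sum
      intro l _
      have h4 : HasDerivAt (fun s : ℝ => I * (s : ℂ) * (l : ℂ)) (I * 1 * l) t :=
        ((Complex.ofRealCLM.hasDerivAt (x := t)).const_mul I).mul_const (l : ℂ)
      exact (h4.cexp).mul_const _
    refine h3.congr_deriv ?_
    have h5 : (∑ u, if G.Adj v u then evo S x t u else 0) =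
        ∑ l ∈ S, cexp (I * t * l) * (l * x l v) := by
      have h6 := adj_mulVec G (evo S x t) v
      rw [← h6, evo, Matrix.mulVec_sum, Finset.sum_apply]
      refine Finset.sum_congr rfl fun l hl => ?_
      rw [Matrix.mulVec_smul, h1 l hl]
      rfl
    have h7 : (∑ u, if G.Adj v u then evo S x t u else 0) =
        @Finset.sum V ℂ _ Finset.univ (fun u => @ite ℂ (G.Adj v u)
          (Classical.propDecidable _) (evo S x t u) 0) := by
      refine Finset.sum_congr rfl fun u _ => ?_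
      congr
    rw [← h7, h5, Finset.mul_sum]
    refine Finset.sum_congr rfl fun l _ => ?_
    ring

/-- bipartite symmetry -/
theorem evo_neg_of_col (G : SimpleGraph V) [DecidableRel G.Adj] (a : V) (S : Finset ℝ)
    (x : ℝ → V → ℂ) (h1 : ∀ l ∈ S, G.adjMatrix ℂ *ᵥ x l = (l : ℂ) • x l)
    (hsum : (Pi.single a 1 : V → ℂ) = ∑ l ∈ S, x l) (col : V → ℂ) (hcol : ∀ v, col v * col v = 1)
    (hadj : ∀ u v, G.Adj u v → col u = -col v) (t : ℝ) (v : V) :
    evo S x t v = col a * col v * evo S x (-t) v := by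
  have e1 : NormedSpace.exp ((I * (t : ℂ)) • G.adjMatrix ℂ) *ᵥ (∑ l ∈ S, x l) =
      ∑ l ∈ S, cexp (I * t * l) • x l := exp_mulVec_sum _ S x (fun l => l) h1 t
  have h2 : ∀ l ∈ S, G.adjMatrix ℂ *ᵥ (fun v => col a * (col v * x l v)) =
      ((-l : ℝ) : ℂ) • (fun v => col a * (col v * x l v)) := by
    intro l hl
    funext v
    rw [adj_mulVec]
    have h3 := congrFun (h1 l hl) v
    rw [adj_mulVec] at h3
    have h4 : (∑ u, if G.Adj v u then col a * (col u * x l u) else 0) =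
        -(col a * col v) * ∑ u, (if G.Adj v u then x l u else 0) := by
      rw [Finset.mul_sum]
      refine Finset.sum_congr rfl fun u _ => ?_
      split_ifs with h
      · rw [hadj v u h]; ring
      · ring
    rw [h4, h3]
    simp only [Pi.smul_apply, smul_eq_mul]
    push_cast
    ring
  have e2 := exp_mulVec_sum (G.adjMatrix ℂ) S (fun l v => col a * (col v * x l v)) (fun l => -l) h2 t
  have h5 : (∑ l ∈ S, (fun v => col a * (col v * x l v))) = (Pi.single a 1 : V → ℂ) := by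
    funext v
    have h6 := congrFun hsum v
    rw [Finset.sum_apply] at h6
    rw [Finset.sum_apply, ← Finset.mul_sum, ← Finset.mul_sum, ← h6]
    by_cases hv : v = a
    · subst hv
      rw [← mul_assoc, hcol, one_mul]
    · simp [hv]
  rw [h5, hsum, e1] at e2
  have h7 := congrFun e2 v
  have h8 : evo S x t v = (∑ l ∈ S, cexp (I * t * l) • x l) v := rfl
  rw [h8, h7, evo, Finset.sum_apply, Finset.sum_apply, Finset.mul_sum]
  refine Finset.sum_congr rfl fun l _ => ?_
  simp only [Pi.smul_apply, smul_eq_mul]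
  have h9 : I * (t : ℂ) * ((-l : ℝ) : ℂ) = I * ((-t : ℝ) : ℂ) * (l : ℂ) := by
    push_cast; ring
  rw [h9]
  ring

/-- reality of the adjacency matrix -/
theorem evo_conj (G : SimpleGraph V) [DecidableRel G.Adj] (a : V) (S : Finset ℝ)
    (x : ℝ → V → ℂ) (h1 : ∀ l ∈ S, G.adjMatrix ℂ *ᵥ x l = (l : ℂ) • x l)
    (hsum : (Pi.single a 1 : V → ℂ) = ∑ l ∈ S, x l) (t : ℝ) (v : V) :
    evo S x t v = (starRingEnd ℂ) (evo S x (-t) v) := by
  have e1 : NormedSpace.exp ((I * (t : ℂ)) • G.adjMatrix ℂ) *ᵥ (∑ l ∈ S, x l) =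
      ∑ l ∈ S, cexp (I * t * l) • x l := exp_mulVec_sum _ S x (fun l => l) h1 t
  have h2 : ∀ l ∈ S, G.adjMatrix ℂ *ᵥ (fun v => (starRingEnd ℂ) (x l v)) =
      ((l : ℝ) : ℂ) • (fun v => (starRingEnd ℂ) (x l v)) := by
    intro l hl
    funext v
    rw [adj_mulVec]
    have h3 := congrArg (starRingEnd ℂ) (congrFun (h1 l hl) v)
    rw [adj_mulVec, map_sum] at h3
    have h4 : (∑ u, if G.Adj v u then (starRingEnd ℂ) (x l u) else 0) =
        ∑ u, (starRingEnd ℂ) (if G.Adj v u then x l u else 0) := by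
      refine Finset.sum_congr rfl fun u _ => ?_
      split_ifs with h
      · rfl
      · simp
    rw [h4, h3]
    simp
  have e2 := exp_mulVec_sum (G.adjMatrix ℂ) S (fun l v => (starRingEnd ℂ) (x l v)) (fun l => l) h2 t
  have h5 : (∑ l ∈ S, (fun v => (starRingEnd ℂ) (x l v))) = (Pi.single a 1 : V → ℂ) := by
    funext v
    have h6 := congrArg (starRingEnd ℂ) (congrFun hsum v)
    rw [Finset.sum_apply, map_sum] at h6
    rw [Finset.sum_apply, ← h6]
    by_cases hv : v = a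
    · subst hv; simp
    · simp [hv]
  rw [h5, hsum, e1] at e2
  have h7 := congrFun e2 v
  have h8 : evo S x t v = (∑ l ∈ S, cexp (I * t * l) • x l) v := rfl
  rw [h8, h7, evo, Finset.sum_apply, Finset.sum_apply, map_sum]
  refine Finset.sum_congr rfl fun l _ => ?_
  simp only [Pi.smul_apply, smul_eq_mul]
  rw [map_mul, ← Complex.exp_conj]
  congr 2
  simp

omit [Fintype V] [DecidableEq V] in
theorem adjMatrix_isHermitian (G : SimpleGraph V) [DecidableRel G.Adj] :
    (G.adjMatrix ℂ).IsHermitian := by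
  ext i j
  rw [Matrix.conjTranspose_apply, SimpleGraph.adjMatrix_apply, SimpleGraph.adjMatrix_apply]
  simp only [G.adj_comm j i]
  split_ifs <;> simp

theorem transition_eq_evo (G : SimpleGraph V) [DecidableRel G.Adj] (a : V) (S : Finset ℝ)
    (x : ℝ → V → ℂ) (h1 : ∀ l ∈ S, G.adjMatrix ℂ *ᵥ x l = (l : ℂ) • x l)
    (hsum : (Pi.single a 1 : V → ℂ) = ∑ l ∈ S, x l) (t : ℝ) :
    transition G t *ᵥ (Pi.single a 1 : V → ℂ) = evo S x t := by
  rw [transition_eq, hsum]
  exact exp_mulVec_sum _ S x (fun l => l) h1 t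

theorem cexp_neg_one_pow (k : ℤ) : cexp (Real.pi * k * I) = (-1 : ℂ) ^ k.natAbs := by
  rcases Int.even_or_odd k with h | h
  · rw [(Int.natAbs_even.2 h).neg_one_pow]
    obtain ⟨m, rfl⟩ := h
    rw [Complex.exp_eq_one_iff]
    exact ⟨m, by push_cast; ring⟩
  · rw [(Int.natAbs_odd.2 h).neg_one_pow]
    obtain ⟨m, rfl⟩ := h
    have : (Real.pi : ℂ) * ((2 * m + 1 : ℤ) : ℂ) * I = (m : ℂ) * (2 * Real.pi * I) + Real.pi * I := by
      push_cast; ring
    rw [this, Complex.exp_add, Complex.exp_int_mul_two_pi_mul_I, Complex.exp_pi_mul_I, one_mul]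

theorem fast_even (A : Matrix V V ℂ) (A0 : Matrix V V ℤ)
    (hA : A = A0.map (fun q : ℤ => (q : ℂ))) (a b : V) (hab : a ≠ b) (S : Finset ℝ)
    (x : ℝ → V → ℂ) (hx0 : ∀ l ∈ S, x l ≠ 0) (h1 : ∀ l ∈ S, A *ᵥ x l = (l : ℂ) • x l)
    (hsum : (Pi.single a 1 : V → ℂ) = ∑ l ∈ S, x l) (t : ℝ) (ht0 : 0 < t) (γ : ℂ)
    (hγ : ‖γ‖ = 1) (hψ : evo S x t = γ • Pi.single b 1)
    (hconj : ∀ s v, evo S x s v = (starRingEnd ℂ) (evo S x (-s) v))
    (hexp : ∀ l ∈ S, cexp (2 * (t * l) * I) = 1) (hne : ∃ l ∈ S, l ≠ 0) :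
    ∃ τ : ℝ, 0 < τ ∧ evo S x τ = γ • Pi.single b 1 ∧ √2 * τ ≤ Real.pi := by
  have htne : t ≠ 0 := ht0.ne'
  have hmul : ∀ l ∈ S, ∃ k : ℤ, l = k * (Real.pi / t) := by
    intro l hl
    obtain ⟨n, hn⟩ := Complex.exp_eq_one_iff.1 (hexp l hl)
    refine ⟨n, ?_⟩
    have e1 : ((t : ℂ) * l) = n * Real.pi := by
      have h2I : (2 * I : ℂ) ≠ 0 := by simp [I_ne_zero]
      apply mul_left_cancel₀ h2I
      linear_combination hn
    have e2 : t * l = n * Real.pi := by exact_mod_cast e1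
    field_simp
    linarith
  obtain ⟨g, hg, hmem, hk⟩ := exists_generator S (Real.pi / t) hmul hne
  set w : ℝ := g * (Real.pi / t) with hw
  have hgR : (0 : ℝ) < g := by exact_mod_cast hg
  have hw0 : 0 < w := by rw [hw]; positivity
  have htw : t * w = g * Real.pi := by rw [hw]; field_simp
  obtain ⟨N, hN0, hN⟩ := sq_generator_int A A0 hA (Pi.single a 1)
    (Pi.single a 1) (by
      funext v
      by_cases hv : v = a
      · subst hv; simp
      · simp [hv]) S x hx0 h1 hsum w hw0 hmem hk hne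
  choose! k hk' using hk
  have hgodd : Odd g := by
    rw [← Nat.not_even_iff_odd]
    intro hge
    obtain ⟨m, hm⟩ := hge
    have : evo S x t = Pi.single a 1 := by
      rw [evo, hsum]
      refine Finset.sum_congr rfl fun l hl => ?_
      have e1 : t * l = k l * m * (2 * Real.pi) := by
        have e2 : t * l = k l * (t * w) := by
          conv_lhs => rw [hk' l hl]
          ring
        rw [e2, htw, hm]
        push_cast
        ring
      have e3 : I * (t : ℂ) * l = ((k l * m : ℤ) : ℂ) * (2 * Real.pi * I) := by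
        have e4 : ((t * l : ℝ) : ℂ) = ((k l * m * (2 * Real.pi) : ℝ) : ℂ) := by rw [e1]
        push_cast at e4 ⊢
        linear_combination I * e4
      rw [e3, Complex.exp_int_mul_two_pi_mul_I, one_smul]
    rw [hψ] at this
    have := congrFun this a
    simp [hab] at this
  have hwne : w ≠ 0 := hw0.ne'
  -- values at the time `π / w`
  have hval : ∀ l ∈ S, cexp (I * ((Real.pi / w : ℝ) : ℂ) * l) = (-1 : ℂ) ^ (k l).natAbs := by
    intro l hl
    rw [← cexp_neg_one_pow]
    congr 1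
    have e1 : (Real.pi / w) * l = Real.pi * k l := by
      conv_lhs => rw [hk' l hl]
      field_simp
    have e2 : (((Real.pi / w) * l : ℝ) : ℂ) = ((Real.pi * k l : ℝ) : ℂ) := by rw [e1]
    push_cast at e2 ⊢
    linear_combination I * e2
  have hval' : ∀ l ∈ S, cexp (I * ((-(Real.pi / w) : ℝ) : ℂ) * l) = (-1 : ℂ) ^ (k l).natAbs := by
    intro l hl
    have e1 : I * ((-(Real.pi / w) : ℝ) : ℂ) * l = -(I * ((Real.pi / w : ℝ) : ℂ) * l) := by
      push_cast; ring
    rw [e1, Complex.exp_neg, hval l hl]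
    rcases Nat.even_or_odd (k l).natAbs with h | h
    · rw [h.neg_one_pow, inv_one]
    · rw [h.neg_one_pow]; norm_num
  have hvalt : ∀ l ∈ S, cexp (I * (t : ℂ) * l) = (-1 : ℂ) ^ (k l).natAbs := by
    intro l hl
    have e1 : t * l = Real.pi * ((k l * g : ℤ) : ℝ) := by
      have e2 : t * l = k l * (t * w) := by
        conv_lhs => rw [hk' l hl]
        ring
      rw [e2, htw]
      push_cast
      ring
    have e3 : I * (t : ℂ) * l = Real.pi * ((k l * g : ℤ) : ℂ) * I := by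
      have e4 : ((t * l : ℝ) : ℂ) = ((Real.pi * ((k l * g : ℤ) : ℝ) : ℝ) : ℂ) := by rw [e1]
      push_cast at e4 ⊢
      linear_combination I * e4
    rw [e3, cexp_neg_one_pow, Int.natAbs_mul, Int.natAbs_natCast, pow_mul]
    rcases Nat.even_or_odd (k l).natAbs with h | h
    · rw [h.neg_one_pow, one_pow]
    · rw [h.neg_one_pow, hgodd.neg_one_pow]
  have hτval : evo S x (Real.pi / w) = γ • Pi.single b 1 := by
    rw [← hψ, evo, evo]
    refine Finset.sum_congr rfl fun l hl => ?_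
    rw [hval l hl, hvalt l hl]
  have hτval' : evo S x (-(Real.pi / w)) = γ • Pi.single b 1 := by
    rw [← hψ, evo, evo]
    refine Finset.sum_congr rfl fun l hl => ?_
    rw [hval' l hl, hvalt l hl]
  have hγreal : (starRingEnd ℂ) γ = γ := by
    have e1 := hconj (-(Real.pi / w)) b
    rw [neg_neg, hτval, hτval'] at e1
    simpa using e1.symm
  have hγpm : ∃ s : ℤ, (s = 1 ∨ s = -1) ∧ (s : ℂ) = γ := by
    obtain ⟨r, hr⟩ := Complex.conj_eq_iff_real.1 hγreal
    rw [hr, Complex.norm_real, Real.norm_eq_abs] at hγ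
    rcases abs_eq (by norm_num : (0 : ℝ) ≤ 1) |>.1 hγ with h | h
    · exact ⟨1, Or.inl rfl, by rw [hr, h]; simp⟩
    · exact ⟨-1, Or.inr rfl, by rw [hr, h]; simp⟩
  obtain ⟨s, hs, hsγ⟩ := hγpm
  have hEven : Even N := by
    refine even_of_sign A A0 hA a b hab S x h1 hsum w N hN k hk' s hs ?_
    rw [hsγ, ← hτval, evo]
    refine Finset.sum_congr rfl fun l hl => ?_
    rw [hval l hl]
  have hN2 : (2 : ℝ) ≤ N := by
    have : 2 ≤ N := by
      obtain ⟨m, hm⟩ := hEven
      omega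
    exact_mod_cast this
  refine ⟨Real.pi / w, by positivity, hτval, ?_⟩
  have hsw : √2 ≤ w := by
    rw [← Real.sqrt_sq hw0.le, hN]
    exact Real.sqrt_le_sqrt hN2
  rw [← mul_div_assoc, div_le_iff₀ hw0, mul_comm]
  exact mul_le_mul_of_nonneg_left hsw Real.pi_pos.le

theorem fast_odd (A : Matrix V V ℂ) (A0 : Matrix V V ℤ)
    (hA : A = A0.map (fun q : ℤ => (q : ℂ))) (a b : V) (S : Finset ℝ)
    (x : ℝ → V → ℂ) (hx0 : ∀ l ∈ S, x l ≠ 0) (h1 : ∀ l ∈ S, A *ᵥ x l = (l : ℂ) • x l)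
    (hsum : (Pi.single a 1 : V → ℂ) = ∑ l ∈ S, x l) (t : ℝ) (ht0 : 0 < t) (γ : ℂ)
    (hγ : ‖γ‖ = 1) (hψ : evo S x t = γ • Pi.single b 1)
    (hexp : ∀ l ∈ S, cexp (2 * (t * l) * I) = -1) (hne : ∃ l ∈ S, l ≠ 0) :
    ∃ (τ : ℝ) (γ' : ℂ), 0 < τ ∧ ‖γ'‖ = 1 ∧ evo S x τ = γ' • Pi.single b 1 ∧
      τ ≤ Real.pi / 2 := by
  have htne : t ≠ 0 := ht0.ne'
  have hmul : ∀ l ∈ S, ∃ n : ℤ, l = (2 * n + 1 : ℤ) * (Real.pi / (2 * t)) := by
    intro l hl
    have e0 : cexp (2 * (t * l) * I - Real.pi * I) = 1 := by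
      rw [Complex.exp_sub, hexp l hl, Complex.exp_pi_mul_I]
      norm_num
    obtain ⟨n, hn⟩ := Complex.exp_eq_one_iff.1 e0
    refine ⟨n, ?_⟩
    have e1 : (2 * (t : ℂ) * l) = (2 * n + 1) * Real.pi := by
      apply mul_left_cancel₀ I_ne_zero
      linear_combination hn
    have e2 : 2 * t * l = (2 * n + 1) * Real.pi := by exact_mod_cast e1
    push_cast
    field_simp
    linarith
  obtain ⟨g, hg, hmem, hk⟩ := exists_generator S (Real.pi / (2 * t))
    (fun l hl => by
      obtain ⟨n, hn⟩ := hmul l hl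
      exact ⟨2 * n + 1, hn⟩) hne
  set w : ℝ := g * (Real.pi / (2 * t)) with hw
  have hgR : (0 : ℝ) < g := by exact_mod_cast hg
  have hw0 : 0 < w := by rw [hw]; positivity
  have hwne : w ≠ 0 := hw0.ne'
  have htw : t * w = g * Real.pi / 2 := by rw [hw]; field_simp
  obtain ⟨N, hN0, hN⟩ := sq_generator_int A A0 hA (Pi.single a 1)
    (Pi.single a 1) (by
      funext v
      by_cases hv : v = a
      · subst hv; simp
      · simp [hv]) S x hx0 h1 hsum w hw0 hmem hk hne
  choose! k hk' using hk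
  have hpar : ∀ l ∈ S, Odd (k l) ∧ Odd g := by
    intro l hl
    obtain ⟨n, hn⟩ := hmul l hl
    have e1 := hk' l hl
    have e2 : ((k l * g : ℤ) : ℝ) = ((2 * n + 1 : ℤ) : ℝ) := by
      have hpt : (Real.pi / (2 * t)) ≠ 0 := by positivity
      apply mul_right_cancel₀ hpt
      rw [← hn]
      conv_rhs => rw [e1, hw]
      push_cast
      ring
    have e3 : k l * g = 2 * n + 1 := by exact_mod_cast e2
    have e4 : Odd (k l * (g : ℤ)) := ⟨n, e3⟩
    rw [Int.odd_mul] at e4
    exact ⟨e4.1, by exact_mod_cast e4.2⟩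
  obtain ⟨l0, hl0, _⟩ := hne
  obtain ⟨m, hm⟩ := (hpar l0 hl0).2
  have hval : ∀ l ∈ S, cexp (I * (t : ℂ) * l) =
      (-1 : ℂ) ^ m * cexp (I * ((Real.pi / (2 * w) : ℝ) : ℂ) * l) := by
    intro l hl
    have e1 : t * l = Real.pi * ((k l * m : ℤ) : ℝ) + Real.pi / (2 * w) * l := by
      have e2 : t * l = k l * (t * w) := by
        conv_lhs => rw [hk' l hl]
        ring
      have e3 : Real.pi / (2 * w) * l = k l * Real.pi / 2 := by
        conv_lhs => rw [hk' l hl]
        field_simp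
      rw [e2, htw, e3, hm]
      push_cast
      ring
    have e4 : I * (t : ℂ) * l = Real.pi * ((k l * m : ℤ) : ℂ) * I +
        I * ((Real.pi / (2 * w) : ℝ) : ℂ) * l := by
      have e5 : ((t * l : ℝ) : ℂ) =
        ((Real.pi * ((k l * m : ℤ) : ℝ) + Real.pi / (2 * w) * l : ℝ) : ℂ) := by rw [e1]
      push_cast at e5 ⊢
      linear_combination I * e5
    rw [e4, Complex.exp_add, cexp_neg_one_pow, Int.natAbs_mul, Int.natAbs_natCast, pow_mul,
      (Int.natAbs_odd.2 (hpar l hl).1).neg_one_pow]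
  have hτval : evo S x (Real.pi / (2 * w)) = ((-1 : ℂ) ^ m * γ) • Pi.single b 1 := by
    rw [← smul_smul, ← hψ, evo, evo, Finset.smul_sum]
    refine Finset.sum_congr rfl fun l hl => ?_
    have hz : ∀ z : ℂ, (-1 : ℂ) ^ m * ((-1 : ℂ) ^ m * z) = z := by
      intro z
      rw [← mul_assoc, ← mul_pow]
      simp
    rw [hval l hl, smul_smul, hz]
  refine ⟨Real.pi / (2 * w), (-1 : ℂ) ^ m * γ, by positivity, ?_, hτval, ?_⟩
  · rw [norm_mul, hγ, norm_pow, norm_neg, norm_one, one_pow, one_mul]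
  · have hw1 : 1 ≤ w := by
      have hN1 : (1 : ℝ) ≤ N := by exact_mod_cast hN0
      have : (1 : ℝ) ^ 2 ≤ w ^ 2 := by rw [hN]; simpa using hN1
      exact (pow_le_pow_iff_left₀ (by norm_num) hw0.le two_ne_zero).1 this
    apply div_le_div_of_nonneg_left Real.pi_pos.le (by norm_num)
    linarith

/-- Perfect state transfer in a bipartite graph happens at a short time. -/
theorem exists_fast (G : SimpleGraph V) [DecidableRel G.Adj] (a b : V) (hab : a ≠ b)
    (col : V → ℂ) (hcol : ∀ v, col v = 1 ∨ col v = -1)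
    (hadj : ∀ u v, G.Adj u v → col u = -col v)
    (hP : ∃ t : ℝ, PSTAt G a b t) :
    ∃ (ψ : ℝ → V → ℂ) (τ : ℝ) (γ : ℂ), Flow G a ψ ∧ 0 < τ ∧ ‖γ‖ = 1 ∧ ψ τ = γ • Pi.single b 1 ∧
      (col a = col b → √2 * τ ≤ Real.pi) ∧ (col a ≠ col b → τ ≤ Real.pi / 2) := by
  obtain ⟨S, x, hx0, h1, hsum⟩ := exists_spectral_decomp (G.adjMatrix ℂ) (adjMatrix_isHermitian G)
    (Pi.single a 1)
  have hcc : ∀ v, col v * col v = 1 := fun v => by rcases hcol v with h | h <;> rw [h] <;> ring
  have hflow := evo_flow G a S x h1 hsum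
  have hzero : evo S x 0 = Pi.single a 1 := hflow.zero
  -- reduce to a positive time
  obtain ⟨t, ht0, γ, hγ, hψ⟩ : ∃ t : ℝ, 0 < t ∧ ∃ γ : ℂ, ‖γ‖ = 1 ∧
      evo S x t = γ • Pi.single b 1 := by
    obtain ⟨t, hP'⟩ := hP
    obtain ⟨γ, hγ, hU⟩ := (pstAt_iff G a b t).1 hP'
    have hU' : evo S x t = γ • Pi.single b 1 := by
      rw [← transition_eq_evo G a S x h1 hsum t, transition_eq]
      exact hU
    rcases lt_trichotomy t 0 with ht | ht | ht
    · refine ⟨-t, by linarith, (starRingEnd ℂ) γ, by rw [RCLike.norm_conj]; exact hγ, ?_⟩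
      funext v
      rw [evo_conj G a S x h1 hsum (-t) v, neg_neg, hU']
      by_cases hv : v = b
      · subst hv; simp
      · simp [hv]
    · exfalso
      rw [ht, hzero] at hU'
      have := congrFun hU' a
      simp [hab] at this
    · exact ⟨t, ht, γ, hγ, hU'⟩
  have hnotid : evo S x t ≠ Pi.single a 1 := by
    intro h
    rw [hψ] at h
    have := congrFun h a
    simp [hab] at this
  -- the sign relation
  have hrel : ∀ l ∈ S, cexp (I * t * l) - col a * col b * cexp (I * ((-t : ℝ) : ℂ) * l) = 0 := by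
    refine coeff_eq_zero (G.adjMatrix ℂ) S x hx0 h1
      (fun l => cexp (I * t * l) - col a * col b * cexp (I * ((-t : ℝ) : ℂ) * l)) ?_
    have e1 : ∑ l ∈ S, (cexp (I * t * l) - col a * col b * cexp (I * ((-t : ℝ) : ℂ) * l)) • x l =
        evo S x t - (col a * col b) • evo S x (-t) := by
      rw [evo, evo, Finset.smul_sum, ← Finset.sum_sub_distrib]
      refine Finset.sum_congr rfl fun l _ => ?_
      rw [sub_smul, smul_smul]
    rw [e1]
    funext v
    have e2 := evo_neg_of_col G a S x h1 hsum col hcc hadj t v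
    have e3 : evo S x (-t) v = col a * col v * evo S x t v := by
      rw [e2]
      have := hcc a
      have := hcc v
      linear_combination (-(evo S x (-t) v) * col v * col v) * hcc a - (evo S x (-t) v) * hcc v
    rw [Pi.sub_apply, Pi.smul_apply, smul_eq_mul, e3, hψ]
    by_cases hv : v = b
    · subst hv
      have := hcc a
      have := hcc v
      simp only [Pi.smul_apply, Pi.single_eq_same, smul_eq_mul, mul_one, Pi.zero_apply]
      linear_combination (-γ * col v * col v) * hcc a - γ * hcc v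
    · simp [hv]
  have hexp : ∀ l ∈ S, cexp (2 * (t * l) * I) = col a * col b := by
    intro l hl
    have e1 := sub_eq_zero.1 (hrel l hl)
    have e2 : cexp (2 * (t * l) * I) = cexp (I * t * l) * cexp (I * t * l) := by
      rw [← Complex.exp_add]; congr 1; ring
    have e3 : cexp (I * ((-t : ℝ) : ℂ) * l) * cexp (I * t * l) = 1 := by
      rw [← Complex.exp_add, Complex.exp_eq_one_iff]
      exact ⟨0, by push_cast; ring⟩
    rw [e2]
    linear_combination (cexp (I * t * l)) * e1 + (col a * col b) * e3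
  have hadjZ : G.adjMatrix ℂ = (G.adjMatrix ℤ).map (fun q : ℤ => (q : ℂ)) := by
    ext i j
    rw [Matrix.map_apply, SimpleGraph.adjMatrix_apply, SimpleGraph.adjMatrix_apply]
    split_ifs <;> simp
  have hne : ∃ l ∈ S, l ≠ 0 := by
    by_contra hcon
    apply hnotid
    rw [evo, hsum]
    refine Finset.sum_congr rfl fun l hl => ?_
    have : l = 0 := by
      by_contra hl0
      exact hcon ⟨l, hl, hl0⟩
    rw [this]
    simp
  by_cases hc : col a = col b
  · have hexp1 : ∀ l ∈ S, cexp (2 * (t * l) * I) = 1 := by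
      intro l hl
      rw [hexp l hl, ← hc, hcc]
    obtain ⟨τ, hτ0, hτ, hle⟩ := fast_even (G.adjMatrix ℂ) (G.adjMatrix ℤ) hadjZ a b hab S x hx0 h1
      hsum t ht0 γ hγ hψ (fun s v => evo_conj G a S x h1 hsum s v) hexp1 hne
    exact ⟨evo S x, τ, γ, hflow, hτ0, hγ, hτ, fun _ => hle, fun h => absurd hc h⟩
  · have hexp1 : ∀ l ∈ S, cexp (2 * (t * l) * I) = -1 := by
      intro l hl
      rw [hexp l hl]
      rcases hcol a with ha | ha <;> rcases hcol b with hb | hb
      · exact absurd (ha.trans hb.symm) hc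
      · rw [ha, hb]; ring
      · rw [ha, hb]; ring
      · exact absurd (ha.trans hb.symm) hc
    obtain ⟨τ, γ', hτ0, hγ', hτ, hle⟩ := fast_odd (G.adjMatrix ℂ) (G.adjMatrix ℤ) hadjZ a b S x hx0 h1
      hsum t ht0 γ hγ hψ hexp1 hne
    exact ⟨evo S x, τ, γ', hflow, hτ0, hγ', hτ, fun h => absurd h hc, fun _ => hle⟩

end MP_8f05cb_co
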