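import Mathlib

namespace MP_8f05cb_co

open Real Filter Topology

theorem arccos_lipschitz (x x' : ℝ → ℝ) (c : ℝ) (hc : 0 ≤ c) (hx : ∀ t, HasDerivAt x (x' t) t)
    (hb : ∀ t, |x t| ≤ 1) (hd : ∀ t, |x' t| ≤ c * √(1 - x t ^ 2)) (s t : ℝ) :
    |arccos (x s) - arccos (x t)| ≤ c * |s - t| := by
  have key : ∀ r ∈ Set.Ioo (0 : ℝ) 1, |arccos (r * x s) - arccos (r * x t)| ≤ c * |s - t| := by
    intro r hr
    have hlt : ∀ u, |r * x u| < 1 := by
      intro u
      rw [abs_mul, abs_of_pos hr.1]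
      calc r * |x u| ≤ r * 1 := mul_le_mul_of_nonneg_left (hb u) hr.1.le
        _ < 1 := by linarith [hr.2]
    have hder : ∀ u, HasDerivAt (fun v => arccos (r * x v))
        (-(1 / √(1 - (r * x u) ^ 2)) * (r * x' u)) u := by
      intro u
      have h1 := abs_lt.1 (hlt u)
      have h2 : HasDerivAt (fun v => r * x v) (r * x' u) u := (hx u).const_mul r
      exact HasDerivAt.comp (h₂ := arccos) (h := fun v => r * x v) u
        (Real.hasDerivAt_arccos (ne_of_gt h1.1) (ne_of_lt h1.2)) h2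
    have hbound : ∀ u, ‖-(1 / √(1 - (r * x u) ^ 2)) * (r * x' u)‖ ≤ c := by
      intro u
      have h1 : 0 < 1 - (r * x u) ^ 2 := by
        have := hlt u
        have h2 : (r * x u) ^ 2 < 1 := by
          rw [← sq_abs]
          have := abs_nonneg (r * x u)
          nlinarith
        linarith
      have h2 : 0 < √(1 - (r * x u) ^ 2) := Real.sqrt_pos.2 h1
      rw [Real.norm_eq_abs, abs_mul, abs_neg, abs_of_pos (by positivity : 0 < 1 / √(1 - (r * x u) ^ 2)),
        abs_mul, abs_of_pos hr.1, one_div, inv_mul_le_iff₀ h2]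
      have h3 : r * √(1 - x u ^ 2) ≤ √(1 - (r * x u) ^ 2) := by
        apply Real.le_sqrt_of_sq_le
        have h4 : 0 ≤ 1 - x u ^ 2 := by
          have := hb u
          have h5 : x u ^ 2 ≤ 1 := by
            rw [← sq_abs]
            have := abs_nonneg (x u)
            nlinarith
          linarith
        rw [mul_pow, Real.sq_sqrt h4]
        nlinarith [hr.1, hr.2, mul_pos hr.1 (sub_pos.2 hr.2)]
      calc r * |x' u| ≤ r * (c * √(1 - x u ^ 2)) := mul_le_mul_of_nonneg_left (hd u) hr.1.le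
        _ = c * (r * √(1 - x u ^ 2)) := by ring
        _ ≤ c * √(1 - (r * x u) ^ 2) := mul_le_mul_of_nonneg_left h3 hc
        _ = √(1 - (r * x u) ^ 2) * c := by ring
    have := (convex_univ (𝕜 := ℝ) (E := ℝ)).norm_image_sub_le_of_norm_hasDerivWithin_le
      (f := fun v => arccos (r * x v)) (f' := fun u => -(1 / √(1 - (r * x u) ^ 2)) * (r * x' u))
      (C := c) (x := t) (y := s)
      (fun u _ => (hder u).hasDerivWithinAt) (fun u _ => hbound u) (Set.mem_univ _) (Set.mem_univ _)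
    simpa [Real.norm_eq_abs] using this
  have hlim : Tendsto (fun r : ℝ => |arccos (r * x s) - arccos (r * x t)|) (𝓝[<] 1)
      (𝓝 |arccos (1 * x s) - arccos (1 * x t)|) := by
    have hcont : Continuous (fun r : ℝ => |arccos (r * x s) - arccos (r * x t)|) := by
      have := Real.continuous_arccos
      fun_prop
    exact (hcont.tendsto 1).mono_left nhdsWithin_le_nhds
  rw [one_mul, one_mul] at hlim
  refine le_of_tendsto hlim ?_
  filter_upwards [Ioo_mem_nhdsLT (show (0 : ℝ) < 1 by norm_num)] with r hr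
  exact key r hr

theorem time_ge (x x' : ℝ → ℝ) (c : ℝ) (hc : 0 ≤ c) (hx : ∀ t, HasDerivAt x (x' t) t)
    (hb : ∀ t, |x t| ≤ 1) (hd : ∀ t, |x' t| ≤ c * √(1 - x t ^ 2)) (τ : ℝ) (hτ : 0 ≤ τ)
    (h0 : x 0 = 1) (h1 : x τ = -1) : π ≤ c * τ := by
  have := arccos_lipschitz x x' c hc hx hb hd τ 0
  rw [h0, h1, arccos_one, arccos_neg_one, sub_zero, sub_zero, abs_of_pos pi_pos,
    abs_of_nonneg hτ] at this
  exact this

theorem eq_cos (x x' : ℝ → ℝ) (c : ℝ) (hc : 0 ≤ c) (hx : ∀ t, HasDerivAt x (x' t) t)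
    (hb : ∀ t, |x t| ≤ 1) (hd : ∀ t, |x' t| ≤ c * √(1 - x t ^ 2)) (τ : ℝ)
    (h0 : x 0 = 1) (h1 : x τ = -1) (hcτ : c * τ ≤ π) (t : ℝ) (ht0 : 0 ≤ t) (htτ : t ≤ τ) :
    x t = cos (c * t) := by
  have e1 := arccos_lipschitz x x' c hc hx hb hd t 0
  have e2 := arccos_lipschitz x x' c hc hx hb hd τ t
  rw [h0, arccos_one, sub_zero, sub_zero, abs_of_nonneg ht0, abs_of_nonneg (arccos_nonneg _)] at e1
  rw [h1, arccos_neg_one, abs_of_nonneg (sub_nonneg.2 htτ),
    abs_of_nonneg (sub_nonneg.2 (arccos_le_pi _))] at e2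
  have h2 : arccos (x t) = c * t := by
    apply le_antisymm e1
    nlinarith
  have h3 := abs_le.1 (hb t)
  rw [← h2, cos_arccos h3.1 h3.2]

/-- in the extremal case the derivative bound is attained -/
theorem abs_deriv_eq (x x' : ℝ → ℝ) (c : ℝ) (hc : 0 < c) (hx : ∀ t, HasDerivAt x (x' t) t)
    (hb : ∀ t, |x t| ≤ 1) (hd : ∀ t, |x' t| ≤ c * √(1 - x t ^ 2)) (τ : ℝ)
    (h0 : x 0 = 1) (h1 : x τ = -1) (hcτ : c * τ ≤ π) (t : ℝ) (ht0 : 0 < t) (htτ : t < τ) :
    |x' t| = c * √(1 - x t ^ 2) := by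
  have hcos : ∀ s ∈ Set.Ioo 0 τ, x s = cos (c * s) := fun s hs =>
    eq_cos x x' c hc.le hx hb hd τ h0 h1 hcτ s hs.1.le hs.2.le
  have hev : x =ᶠ[𝓝 t] fun s => cos (c * s) := by
    filter_upwards [Ioo_mem_nhds ht0 htτ] with s hs
    exact hcos s hs
  have hd1 : HasDerivAt (fun s => cos (c * s)) (-sin (c * t) * (c * 1)) t := by
    exact ((hasDerivAt_id t).const_mul c).cos
  have hd2 : HasDerivAt x (-sin (c * t) * (c * 1)) t := hd1.congr_of_eventuallyEq hev
  have h3 : x' t = -sin (c * t) * (c * 1) := (hx t).unique hd2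
  have hs : 0 ≤ sin (c * t) := by
    apply sin_nonneg_of_nonneg_of_le_pi
    · positivity
    · nlinarith
  rw [h3, hcos t ⟨ht0, htτ⟩, abs_mul, abs_neg, abs_of_nonneg hs, mul_one, abs_of_pos hc,
    mul_comm]
  congr 1
  have : 1 - cos (c * t) ^ 2 = sin (c * t) ^ 2 := by
    have := sin_sq_add_cos_sq (c * t)
    linarith
  rw [this, Real.sqrt_sq hs]

end MP_8f05cb_co
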