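import Mathlib
import Pool.Agent.Lib.MP_8f05cb_co.Flow
import Pool.Agent.Lib.MP_8f05cb_co.Ode
import Pool.Agent.Lib.MP_8f05cb_co.Bridge

namespace MP_8f05cb_co

open Real

variable {V : Type} [Fintype V] [DecidableEq V] {G : SimpleGraph V} {a b : V} {ψ : ℝ → V → ℂ}

/-- expectation of the observable `h` -/
noncomputable def expect (h : V → ℝ) (ψ : ℝ → V → ℂ) (t : ℝ) : ℝ :=
  ∑ v, h v * Complex.normSq (ψ t v)

theorem expect_zero (hψ : Flow G a ψ) (h : V → ℝ) : expect h ψ 0 = h a := by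
  unfold expect
  rw [hψ.zero, Finset.sum_eq_single a]
  · simp
  · intro b _ hb
    simp [hb]
  · simp

theorem expect_final (h : V → ℝ) (τ : ℝ) (γ : ℂ) (hγ : ‖γ‖ = 1)
    (hτ : ψ τ = γ • Pi.single b 1) : expect h ψ τ = h b := by
  unfold expect
  rw [hτ, Finset.sum_eq_single b]
  · simp [Complex.normSq_eq_norm_sq, hγ]
  · intro c _ hc
    simp [hc]
  · simp

theorem CutFun.hasDerivAt {p q : V} {h : V → ℝ} (hc : CutFun G p q h) (hpq : G.Adj p q)
    (hψ : Flow G a ψ) (t : ℝ) : HasDerivAt (expect h ψ) (Flow.F ψ t q p) t :=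
  hψ.hasDerivAt_cut h p q hpq hc.2.1 hc.2.2.1 hc.2.2.2 t

omit [DecidableEq V] in
theorem le_expect {h : V → ℝ} (hh : ∀ v, 0 ≤ h v) (t : ℝ) (v : V) (hv : h v = 1) :
    Complex.normSq (ψ t v) ≤ expect h ψ t := by
  unfold expect
  have := Finset.single_le_sum (f := fun v => h v * Complex.normSq (ψ t v))
    (fun i _ => mul_nonneg (hh i) (Complex.normSq_nonneg _)) (Finset.mem_univ v)
  simpa [hv] using this

theorem norm_path_three (x0 x1 x2 x3 : ℝ) (h : x0 ^ 2 + x1 ^ 2 + x2 ^ 2 + x3 ^ 2 ≤ 1) :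
    2 * (x0 * x1) + 2 * (x1 * x2) + 2 * (x2 * x3) ≤ 7 / 4 := by
  nlinarith [sq_nonneg (7 * x0 - 4 * x1), sq_nonneg (x1 - x2), sq_nonneg (7 * x3 - 4 * x2)]

theorem norm_path_four (x0 x1 x2 x3 x4 : ℝ)
    (h : x0 ^ 2 + x1 ^ 2 + x2 ^ 2 + x3 ^ 2 + x4 ^ 2 ≤ 1) :
    2 * (x0 * x1) + 2 * (x1 * x2) + 2 * (x2 * x3) + 2 * (x3 * x4) ≤ 7 / 4 := by
  nlinarith [sq_nonneg (7 * x0 - 4 * x1), sq_nonneg (7 * x4 - 4 * x3),
    sq_nonneg (33 * x1 - 28 * x2), sq_nonneg (33 * x3 - 28 * x2)]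

theorem growth_le (X X' : ℝ → ℝ) (C : ℝ) (hX : ∀ t, HasDerivAt X (X' t) t)
    (hb : ∀ t, |X' t| ≤ C) (τ : ℝ) (hτ : 0 ≤ τ) : X τ - X 0 ≤ C * τ := by
  have := (convex_univ (𝕜 := ℝ) (E := ℝ)).norm_image_sub_le_of_norm_hasDerivWithin_le
      (f := X) (f' := X') (C := C) (x := 0) (y := τ)
      (fun u _ => (hX u).hasDerivWithinAt) (fun u _ => hb u) (Set.mem_univ _) (Set.mem_univ _)
  rw [Real.norm_eq_abs, Real.norm_eq_abs, sub_zero, abs_of_nonneg hτ] at this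
  exact (le_abs_self _).trans this

omit [Fintype V] [DecidableEq V] in
theorem side_ends (hG : G.IsAcyclic) {a p q b : V} (w1 : G.Walk a p) (hpq : G.Adj p q)
    (w2 : G.Walk q b) (h1 : s(p, q) ∉ w1.edges) (h2 : s(p, q) ∉ w2.edges) :
    ∃ h, CutFun G p q h ∧ h a = 0 ∧ h b = 1 := by
  obtain ⟨h, hh⟩ := exists_side hG hpq
  refine ⟨h, hh, ?_, ?_⟩
  · rw [hh.const_walk w1 h1, hh.2.1]
  · rw [← hh.const_walk w2 h2, hh.2.2.1]

theorem norm_sum_le (hψ : Flow G a ψ) (t : ℝ) (K : Finset V) :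
    ∑ v ∈ K, ‖ψ t v‖ ^ 2 ≤ 1 := by
  have h1 := hψ.norm_one t
  rw [← h1]
  have h2 : ∀ v, ‖ψ t v‖ ^ 2 = Complex.normSq (ψ t v) := fun v =>
    (Complex.normSq_eq_norm_sq _).symm
  simp only [h2]
  exact Finset.sum_le_univ_sum_of_nonneg fun v => Complex.normSq_nonneg _

theorem time_ge_three (hG : G.IsAcyclic) (hψ : Flow G a ψ) {v1 v2 : V}
    (h01 : G.Adj a v1) (h12 : G.Adj v1 v2) (h23 : G.Adj v2 b)
    (hp : (SimpleGraph.Walk.cons h01 (.cons h12 (.cons h23 .nil))).IsPath)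
    (τ : ℝ) (hτ0 : 0 ≤ τ) (γ : ℂ) (hγ : ‖γ‖ = 1) (hτ : ψ τ = γ • Pi.single b 1) :
    3 ≤ 7 / 4 * τ := by
  have hs := hp.support_nodup
  have he := hp.isTrail.edges_nodup
  simp only [SimpleGraph.Walk.support_cons, SimpleGraph.Walk.support_nil, List.nodup_cons,
    List.mem_cons, List.not_mem_nil, not_or, or_false] at hs
  simp only [SimpleGraph.Walk.edges_cons, SimpleGraph.Walk.edges_nil, List.nodup_cons,
    List.mem_cons, List.not_mem_nil, not_or, or_false] at he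
  obtain ⟨k0, c0, a0, b0⟩ := side_ends hG (.nil : G.Walk a a) h01 (.cons h12 (.cons h23 .nil))
    (by simp) (by
      simp only [SimpleGraph.Walk.edges_cons, SimpleGraph.Walk.edges_nil, List.mem_cons,
        List.not_mem_nil, or_false, not_or]
      exact he.1)
  obtain ⟨k1, c1, a1, b1⟩ := side_ends hG (.cons h01 .nil) h12 (.cons h23 .nil)
    (by
      simp only [SimpleGraph.Walk.edges_cons, SimpleGraph.Walk.edges_nil, List.mem_cons,
        List.not_mem_nil, or_false]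
      exact fun h => he.1.1 h.symm) (by
      simp only [SimpleGraph.Walk.edges_cons, SimpleGraph.Walk.edges_nil, List.mem_cons,
        List.not_mem_nil, or_false]
      exact he.2.1)
  obtain ⟨k2, c2, a2, b2⟩ := side_ends hG (.cons h01 (.cons h12 .nil)) h23 .nil
    (by
      simp only [SimpleGraph.Walk.edges_cons, SimpleGraph.Walk.edges_nil, List.mem_cons,
        List.not_mem_nil, or_false, not_or]
      exact ⟨fun h => he.1.2 h.symm, fun h => he.2.1 h.symm⟩) (by simp)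
  have hX : ∀ t, HasDerivAt (fun s => expect k0 ψ s + expect k1 ψ s + expect k2 ψ s)
      (Flow.F ψ t v1 a + Flow.F ψ t v2 v1 + Flow.F ψ t b v2) t := by
    intro t
    exact ((c0.hasDerivAt h01 hψ t).fun_add (c1.hasDerivAt h12 hψ t)).fun_add
      (c2.hasDerivAt h23 hψ t)
  have hb : ∀ t, |Flow.F ψ t v1 a + Flow.F ψ t v2 v1 + Flow.F ψ t b v2| ≤ 7 / 4 := by
    intro t
    have f0 := Flow.abs_F_le (ψ := ψ) t v1 a
    have f1 := Flow.abs_F_le (ψ := ψ) t v2 v1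
    have f2 := Flow.abs_F_le (ψ := ψ) t b v2
    have hsum := norm_sum_le hψ t {a, v1, v2, b}
    rw [Finset.sum_insert (by simp only [Finset.mem_insert, Finset.mem_singleton, not_or]; exact hs.1),
      Finset.sum_insert (by simp only [Finset.mem_insert, Finset.mem_singleton, not_or]; exact hs.2.1),
      Finset.sum_insert (by simp only [Finset.mem_singleton]; exact hs.2.2.1),
      Finset.sum_singleton] at hsum
    have h3 := norm_path_three ‖ψ t a‖ ‖ψ t v1‖ ‖ψ t v2‖ ‖ψ t b‖ (by linarith)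
    calc |Flow.F ψ t v1 a + Flow.F ψ t v2 v1 + Flow.F ψ t b v2|
        ≤ |Flow.F ψ t v1 a| + |Flow.F ψ t v2 v1| + |Flow.F ψ t b v2| := abs_add_three _ _ _
      _ ≤ 7 / 4 := by nlinarith
  have h := growth_le _ _ _ hX hb τ hτ0
  rw [expect_final k0 τ γ hγ hτ, expect_final k1 τ γ hγ hτ, expect_final k2 τ γ hγ hτ,
    expect_zero hψ, expect_zero hψ, expect_zero hψ, a0, a1, a2, b0, b1, b2] at h
  linarith

theorem time_ge_four (hG : G.IsAcyclic) (hψ : Flow G a ψ) {v1 v2 v3 v4 : V}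
    (h01 : G.Adj a v1) (h12 : G.Adj v1 v2) (h23 : G.Adj v2 v3) (h34 : G.Adj v3 v4)
    (q : G.Walk v4 b)
    (hp : (SimpleGraph.Walk.cons h01 (.cons h12 (.cons h23 (.cons h34 q)))).IsPath)
    (τ : ℝ) (hτ0 : 0 ≤ τ) (γ : ℂ) (hγ : ‖γ‖ = 1) (hτ : ψ τ = γ • Pi.single b 1) :
    4 ≤ 7 / 4 * τ := by
  have hs := hp.support_nodup
  have he := hp.isTrail.edges_nodup
  simp only [SimpleGraph.Walk.support_cons, List.nodup_cons,
    List.mem_cons, not_or] at hs
  simp only [SimpleGraph.Walk.edges_cons, List.nodup_cons,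
    List.mem_cons, not_or] at he
  have hv4 : v4 ∈ q.support := q.start_mem_support
  have n04 : a ≠ v4 := fun h => hs.1.2.2.2 (h ▸ hv4)
  have n14 : v1 ≠ v4 := fun h => hs.2.1.2.2 (h ▸ hv4)
  have n24 : v2 ≠ v4 := fun h => hs.2.2.1.2 (h ▸ hv4)
  have n34 : v3 ≠ v4 := h34.ne
  obtain ⟨k0, c0, a0, b0⟩ := side_ends hG (.nil : G.Walk a a) h01
    (.cons h12 (.cons h23 (.cons h34 q)))
    (by simp) (by
      simp only [SimpleGraph.Walk.edges_cons, List.mem_cons, not_or]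
      exact he.1)
  obtain ⟨k1, c1, a1, b1⟩ := side_ends hG (.cons h01 .nil) h12 (.cons h23 (.cons h34 q))
    (by
      simp only [SimpleGraph.Walk.edges_cons, SimpleGraph.Walk.edges_nil, List.mem_cons,
        List.not_mem_nil, or_false]
      exact fun h => he.1.1 h.symm) (by
      simp only [SimpleGraph.Walk.edges_cons, List.mem_cons, not_or]
      exact he.2.1)
  obtain ⟨k2, c2, a2, b2⟩ := side_ends hG (.cons h01 (.cons h12 .nil)) h23 (.cons h34 q)
    (by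
      simp only [SimpleGraph.Walk.edges_cons, SimpleGraph.Walk.edges_nil, List.mem_cons,
        List.not_mem_nil, or_false, not_or]
      exact ⟨fun h => he.1.2.1 h.symm, fun h => he.2.1.1 h.symm⟩) (by
      simp only [SimpleGraph.Walk.edges_cons, List.mem_cons, not_or]
      exact he.2.2.1)
  obtain ⟨k3, c3, a3, b3⟩ := side_ends hG (.cons h01 (.cons h12 (.cons h23 .nil))) h34 q
    (by
      simp only [SimpleGraph.Walk.edges_cons, SimpleGraph.Walk.edges_nil, List.mem_cons,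
        List.not_mem_nil, or_false, not_or]
      exact ⟨fun h => he.1.2.2.1 h.symm, fun h => he.2.1.2.1 h.symm, fun h => he.2.2.1.1 h.symm⟩)
    he.2.2.2.1
  have hX : ∀ t, HasDerivAt
      (fun s => expect k0 ψ s + expect k1 ψ s + expect k2 ψ s + expect k3 ψ s)
      (Flow.F ψ t v1 a + Flow.F ψ t v2 v1 + Flow.F ψ t v3 v2 + Flow.F ψ t v4 v3) t := by
    intro t
    exact (((c0.hasDerivAt h01 hψ t).fun_add (c1.hasDerivAt h12 hψ t)).fun_add
      (c2.hasDerivAt h23 hψ t)).fun_add (c3.hasDerivAt h34 hψ t)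
  have hb : ∀ t, |Flow.F ψ t v1 a + Flow.F ψ t v2 v1 + Flow.F ψ t v3 v2 + Flow.F ψ t v4 v3|
      ≤ 7 / 4 := by
    intro t
    have f0 := Flow.abs_F_le (ψ := ψ) t v1 a
    have f1 := Flow.abs_F_le (ψ := ψ) t v2 v1
    have f2 := Flow.abs_F_le (ψ := ψ) t v3 v2
    have f3 := Flow.abs_F_le (ψ := ψ) t v4 v3
    have hsum := norm_sum_le hψ t {a, v1, v2, v3, v4}
    rw [Finset.sum_insert (by
        simp only [Finset.mem_insert, Finset.mem_singleton, not_or]
        exact ⟨hs.1.1, hs.1.2.1, hs.1.2.2.1, n04⟩),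
      Finset.sum_insert (by
        simp only [Finset.mem_insert, Finset.mem_singleton, not_or]
        exact ⟨hs.2.1.1, hs.2.1.2.1, n14⟩),
      Finset.sum_insert (by
        simp only [Finset.mem_insert, Finset.mem_singleton, not_or]
        exact ⟨hs.2.2.1.1, n24⟩),
      Finset.sum_insert (by simp only [Finset.mem_singleton]; exact n34),
      Finset.sum_singleton] at hsum
    have h3 := norm_path_four ‖ψ t a‖ ‖ψ t v1‖ ‖ψ t v2‖ ‖ψ t v3‖ ‖ψ t v4‖ (by linarith)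
    calc |Flow.F ψ t v1 a + Flow.F ψ t v2 v1 + Flow.F ψ t v3 v2 + Flow.F ψ t v4 v3|
        ≤ |Flow.F ψ t v1 a + Flow.F ψ t v2 v1 + Flow.F ψ t v3 v2| + |Flow.F ψ t v4 v3| :=
          abs_add_le _ _
      _ ≤ |Flow.F ψ t v1 a| + |Flow.F ψ t v2 v1| + |Flow.F ψ t v3 v2| + |Flow.F ψ t v4 v3| := by
          linarith [abs_add_three (Flow.F ψ t v1 a) (Flow.F ψ t v2 v1) (Flow.F ψ t v3 v2)]
      _ ≤ 7 / 4 := by nlinarith
  have h := growth_le _ _ _ hX hb τ hτ0
  rw [expect_final k0 τ γ hγ hτ, expect_final k1 τ γ hγ hτ, expect_final k2 τ γ hγ hτ,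
    expect_final k3 τ γ hγ hτ,
    expect_zero hψ, expect_zero hψ, expect_zero hψ, expect_zero hψ,
    a0, a1, a2, a3, b0, b1, b2, b3] at h
  linarith

end MP_8f05cb_co
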