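import Mathlib
import Pool.Agent.Lib.MP_8f05cb_co.TreeCore

namespace MP_8f05cb_co

open Real Filter Topology

variable {V : Type} [Fintype V] [DecidableEq V] {G : SimpleGraph V} {a b : V} {ψ : ℝ → V → ℂ}

open scoped Classical in
/-- if the amplitude at `v` vanishes on an open interval, the neighbouring amplitudes cancel -/
theorem sum_eq_zero_of_vanish (hψ : Flow G a ψ) (τ : ℝ) (v : V)
    (hv : ∀ t ∈ Set.Ioo 0 τ, ψ t v = 0) (t : ℝ) (ht : t ∈ Set.Ioo 0 τ) :
    ∑ u, (if G.Adj v u then ψ t u else 0) = 0 := by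
  have h1 := hψ.deriv t v
  have hev : (fun s => ψ s v) =ᶠ[𝓝 t] fun _ => (0 : ℂ) := by
    filter_upwards [Ioo_mem_nhds ht.1 ht.2] with s hs
    exact hv s hs
  have h2 : HasDerivAt (fun s => ψ s v) 0 t := (hasDerivAt_const t (0 : ℂ)).congr_of_eventuallyEq hev
  have h3 := h1.unique h2
  rcases mul_eq_zero.1 h3 with h | h
  · exact absurd h Complex.I_ne_zero
  · exact h

theorem expect_one_sub (hψ : Flow G a ψ) (h : V → ℝ) (t : ℝ) :
    expect (fun v => 1 - h v) ψ t = 1 - expect h ψ t := by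
  unfold expect
  have h1 := hψ.norm_one t
  simp only [sub_mul, one_mul, Finset.sum_sub_distrib]
  rw [h1]

omit [Fintype V] [DecidableEq V] in
theorem sq_norm_eq (t : ℝ) (v : V) : ‖ψ t v‖ ^ 2 = Complex.normSq (ψ t v) :=
  (Complex.normSq_eq_norm_sq _).symm

theorem short_one (hconn : G.Connected) (hG : G.IsAcyclic) (hψ : Flow G a ψ) (hab : G.Adj a b)
    (τ : ℝ) (hτ0 : 0 < τ) (hτle : τ ≤ π / 2) (γ : ℂ) (hγ : ‖γ‖ = 1)
    (hτ : ψ τ = γ • Pi.single b 1) : Fintype.card V ≤ 2 := by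
  classical
  obtain ⟨h, hc⟩ := exists_side hG hab
  have h01 : ∀ v, 0 ≤ h v := fun v => by rcases hc.1 v with e | e <;> rw [e] <;> norm_num
  have h02 : ∀ v, 0 ≤ 1 - h v := fun v => by rcases hc.1 v with e | e <;> rw [e] <;> norm_num
  set P : ℝ → ℝ := expect h ψ with hP
  have hPb : ∀ t, ‖ψ t b‖ ^ 2 ≤ P t := fun t => by
    rw [sq_norm_eq]; exact le_expect h01 t b hc.2.2.1
  have hPa : ∀ t, ‖ψ t a‖ ^ 2 ≤ 1 - P t := fun t => by
    rw [sq_norm_eq, hP, ← expect_one_sub hψ]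
    exact le_expect h02 t a (by rw [hc.2.1]; norm_num)
  have hP0 : ∀ t, 0 ≤ P t := fun t => le_trans (sq_nonneg _) (hPb t)
  have hP1 : ∀ t, P t ≤ 1 := fun t => by
    have := le_trans (sq_nonneg _) (hPa t); linarith
  have hx : ∀ t, HasDerivAt (fun s => 1 - 2 * P s) (-(2 * Flow.F ψ t b a)) t := by
    intro t
    have h1 : HasDerivAt P (Flow.F ψ t b a) t := hc.hasDerivAt hab hψ t
    exact (h1.const_mul 2).const_sub 1
  have hxb : ∀ t, |1 - 2 * P t| ≤ 1 := fun t => by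
    rw [abs_le]; constructor <;> linarith [hP0 t, hP1 t]
  have hFle : ∀ t, |-(2 * Flow.F ψ t b a)| ≤ 4 * (‖ψ t b‖ * ‖ψ t a‖) := fun t => by
    rw [abs_neg, abs_mul, abs_of_pos (by norm_num : (0 : ℝ) < 2)]
    linarith [Flow.abs_F_le (ψ := ψ) t b a]
  have hd : ∀ t, |-(2 * Flow.F ψ t b a)| ≤ 2 * √(1 - (1 - 2 * P t) ^ 2) := by
    intro t
    refine (hFle t).trans ?_
    have : 2 * (‖ψ t b‖ * ‖ψ t a‖) ≤ √(1 - (1 - 2 * P t) ^ 2) := by
      apply Real.le_sqrt_of_sq_le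
      have h1 : ‖ψ t b‖ ^ 2 * ‖ψ t a‖ ^ 2 ≤ P t * (1 - P t) :=
        mul_le_mul (hPb t) (hPa t) (sq_nonneg _) (hP0 t)
      nlinarith
    linarith
  have hx0 : 1 - 2 * P 0 = 1 := by
    rw [hP, expect_zero hψ, hc.2.1]; norm_num
  have hx1 : 1 - 2 * P τ = -1 := by
    rw [hP, expect_final h τ γ hγ hτ, hc.2.2.1]; norm_num
  have hge := time_ge (fun s => 1 - 2 * P s) _ 2 (by norm_num) hx hxb hd τ hτ0.le hx0 hx1
  have hle : 2 * τ ≤ π := by linarith
  have hcos : ∀ t ∈ Set.Ioo 0 τ, 1 - 2 * P t = cos (2 * t) := fun t ht =>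
    eq_cos (fun s => 1 - 2 * P s) _ 2 (by norm_num) hx hxb hd τ hx0 hx1 hle t ht.1.le ht.2.le
  have habs : ∀ t ∈ Set.Ioo 0 τ, |-(2 * Flow.F ψ t b a)| = 2 * √(1 - (1 - 2 * P t) ^ 2) :=
    fun t ht => abs_deriv_eq (fun s => 1 - 2 * P s) _ 2 (by norm_num) hx hxb hd τ hx0 hx1 hle t
      ht.1 ht.2
  have hPin : ∀ t ∈ Set.Ioo 0 τ, 0 < P t ∧ P t < 1 := by
    intro t ht
    have h1 := hcos t ht
    have h2 : cos (2 * t) < 1 := by
      rw [← cos_zero]
      apply cos_lt_cos_of_nonneg_of_le_pi le_rfl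
      · nlinarith [ht.2]
      · nlinarith [ht.1]
    have h3 : -1 < cos (2 * t) := by
      rw [← cos_pi]
      apply cos_lt_cos_of_nonneg_of_le_pi
      · nlinarith [ht.1]
      · exact le_rfl
      · nlinarith [ht.2]
    constructor <;> linarith
  have hall : ∀ t ∈ Set.Ioo 0 τ, ‖ψ t a‖ ^ 2 = 1 - P t ∧ ‖ψ t b‖ ^ 2 = P t := by
    intro t ht
    have h1 := habs t ht
    have h2 := hFle t
    rw [h1] at h2
    have h3 : √(1 - (1 - 2 * P t) ^ 2) ≤ 2 * (‖ψ t b‖ * ‖ψ t a‖) := by linarith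
    have h4 : 0 ≤ 1 - (1 - 2 * P t) ^ 2 := by nlinarith [hP0 t, hP1 t]
    have h5 : 1 - (1 - 2 * P t) ^ 2 ≤ (2 * (‖ψ t b‖ * ‖ψ t a‖)) ^ 2 := by
      rw [← Real.sq_sqrt h4]
      exact pow_le_pow_left₀ (Real.sqrt_nonneg _) h3 2
    have h6 : P t * (1 - P t) ≤ ‖ψ t b‖ ^ 2 * ‖ψ t a‖ ^ 2 := by nlinarith
    obtain ⟨p0, p1⟩ := hPin t ht
    have h7 := hPa t
    have h8 := hPb t
    have h9 : 0 ≤ ‖ψ t a‖ ^ 2 := sq_nonneg _
    have h10 : 0 ≤ ‖ψ t b‖ ^ 2 := sq_nonneg _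
    have h11 : 1 - P t ≤ ‖ψ t a‖ ^ 2 := by
      by_contra hlt
      rw [not_le] at hlt
      have : ‖ψ t b‖ ^ 2 * ‖ψ t a‖ ^ 2 < P t * (1 - P t) :=
        calc ‖ψ t b‖ ^ 2 * ‖ψ t a‖ ^ 2 ≤ P t * ‖ψ t a‖ ^ 2 := mul_le_mul_of_nonneg_right h8 h9
          _ < P t * (1 - P t) := mul_lt_mul_of_pos_left hlt p0
      linarith
    have h12 : P t ≤ ‖ψ t b‖ ^ 2 := by
      by_contra hlt
      rw [not_le] at hlt
      have : ‖ψ t b‖ ^ 2 * ‖ψ t a‖ ^ 2 < P t * (1 - P t) :=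
        calc ‖ψ t b‖ ^ 2 * ‖ψ t a‖ ^ 2 ≤ ‖ψ t b‖ ^ 2 * (1 - P t) :=
              mul_le_mul_of_nonneg_left h7 h10
          _ < P t * (1 - P t) := mul_lt_mul_of_pos_right hlt (by linarith)
      linarith
    exact ⟨le_antisymm h7 h11, le_antisymm h8 h12⟩
  have hvan : ∀ v, v ≠ a → v ≠ b → ∀ t ∈ Set.Ioo 0 τ, ψ t v = 0 := by
    intro v hva hvb t ht
    have h1 := norm_sum_le hψ t {v, a, b}
    rw [Finset.sum_insert (by simp [hva, hvb]), Finset.sum_insert (by simp [hab.ne]),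
      Finset.sum_singleton, (hall t ht).1, (hall t ht).2] at h1
    have h2 : ‖ψ t v‖ ^ 2 ≤ 0 := by linarith
    have h3 : ‖ψ t v‖ = 0 := by
      have := sq_nonneg ‖ψ t v‖
      exact pow_eq_zero_iff two_ne_zero |>.1 (le_antisymm h2 this)
    exact norm_eq_zero.1 h3
  -- the time `π / 6`
  have ht0 : (π / 6) ∈ Set.Ioo 0 τ := ⟨by positivity, by linarith [pi_pos]⟩
  have hP6 : P (π / 6) = 1 / 4 := by
    have h1 := hcos _ ht0
    have h2 : 2 * (π / 6) = π / 3 := by ring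
    rw [h2, cos_pi_div_three] at h1
    linarith
  have hna : ‖ψ (π / 6) a‖ ^ 2 = 3 / 4 := by rw [(hall _ ht0).1, hP6]; norm_num
  have hnb : ‖ψ (π / 6) b‖ ^ 2 = 1 / 4 := by rw [(hall _ ht0).2, hP6]
  have hna0 : ψ (π / 6) a ≠ 0 := by
    intro h0; rw [h0, norm_zero] at hna; norm_num at hna
  have hnb0 : ψ (π / 6) b ≠ 0 := by
    intro h0; rw [h0, norm_zero] at hnb; norm_num at hnb
  have hclosed : ∀ u ∈ ({a, b} : Set V), ∀ v, G.Adj u v → v ∈ ({a, b} : Set V) := by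
    intro u hu v huv
    by_contra hv
    rw [Set.mem_insert_iff, Set.mem_singleton_iff, not_or] at hv
    have h1 := sum_eq_zero_of_vanish hψ τ v (hvan v hv.1 hv.2) _ ht0
    rw [Finset.sum_eq_add a b hab.ne] at h1
    · by_cases ha' : G.Adj v a
      · by_cases hb' : G.Adj v b
        · rw [if_pos ha', if_pos hb'] at h1
          have h2 : ψ (π / 6) a = -ψ (π / 6) b := eq_neg_of_add_eq_zero_left h1
          rw [h2, norm_neg, hnb] at hna
          norm_num at hna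
        · rw [if_pos ha', if_neg hb', add_zero] at h1
          exact hna0 h1
      · by_cases hb' : G.Adj v b
        · rw [if_neg ha', if_pos hb', zero_add] at h1
          exact hnb0 h1
        · rcases hu with hu | hu
          · rw [hu] at huv; exact ha' huv.symm
          · rw [Set.mem_singleton_iff] at hu
            rw [hu] at huv; exact hb' huv.symm
    · intro c _ hc'
      rw [hvan c hc'.1 hc'.2 _ ht0]
      simp
    · simp
    · simp
  have hmem : ∀ v, v ∈ ({a, b} : Finset V) := by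
    intro v
    have := mem_of_closed hconn {a, b} a (by simp) hclosed v
    simpa using this
  calc Fintype.card V = (Finset.univ : Finset V).card := Finset.card_univ.symm
    _ ≤ ({a, b} : Finset V).card := Finset.card_le_card fun v _ => hmem v
    _ ≤ 2 := Finset.card_le_two

theorem alg_ineq (α β ω x na nb nw : ℝ) (hα : 0 ≤ α) (hβ : 0 ≤ β) (hna : 0 ≤ na) (hnb : 0 ≤ nb)
    (la : na ≤ α) (lb : nb ≤ β) (lw : nw ^ 2 ≤ ω) (hω : ω = 1 - α ^ 2 - β ^ 2)
    (hx : x = α ^ 2 - β ^ 2) :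
    (2 * (nw * (na + nb))) ^ 2 ≤ 2 * (1 - x ^ 2) - 2 * (1 - (α + β) ^ 2) ^ 2 := by
  have l1 : (na + nb) ^ 2 ≤ (α + β) ^ 2 :=
    pow_le_pow_left₀ (by positivity) (by linarith) 2
  have l2 : nw ^ 2 * (na + nb) ^ 2 ≤ ω * (α + β) ^ 2 :=
    mul_le_mul lw l1 (sq_nonneg _) (le_trans (sq_nonneg _) lw)
  have l3 : 4 * (ω * (α + β) ^ 2) = 2 * (1 - x ^ 2) - 2 * (1 - (α + β) ^ 2) ^ 2 := by
    rw [hω, hx]
    ring
  calc (2 * (nw * (na + nb))) ^ 2
      = 4 * (nw ^ 2 * (na + nb) ^ 2) := by ring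
    _ ≤ 4 * (ω * (α + β) ^ 2) := by linarith
    _ = _ := l3

theorem alg_eq (α β ω x na nb nw : ℝ) (hα : 0 ≤ α) (hβ : 0 ≤ β) (hna : 0 ≤ na) (hnb : 0 ≤ nb)
    (la : na ≤ α) (lb : nb ≤ β) (lw : nw ^ 2 ≤ ω) (hω : ω = 1 - α ^ 2 - β ^ 2)
    (hx : x = α ^ 2 - β ^ 2) (hx1 : -1 < x) (hx2 : x < 1)
    (h : 2 * (1 - x ^ 2) ≤ (2 * (nw * (na + nb))) ^ 2) :
    nw ^ 2 = (1 - x ^ 2) / 2 ∧ na = (1 + x) / 2 ∧ nb = (1 - x) / 2 := by
  have e4 := alg_ineq α β ω x na nb nw hα hβ hna hnb la lb lw hω hx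
  have e5 : (1 - (α + β) ^ 2) ^ 2 ≤ 0 := by linarith
  have e6 : 1 - (α + β) ^ 2 = 0 :=
    pow_eq_zero_iff two_ne_zero |>.1 (le_antisymm e5 (sq_nonneg _))
  have e7 : α + β = 1 := by
    have : (α + β) ^ 2 = 1 ^ 2 := by linarith
    exact (pow_left_inj₀ (by positivity) (by norm_num) two_ne_zero).1 this
  have hxs : x = α - β := by
    rw [hx]
    have : α ^ 2 - β ^ 2 = (α + β) * (α - β) := by ring
    rw [this, e7, one_mul]
  have eA : α = (1 + x) / 2 := by linarith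
  have eB : β = (1 - x) / 2 := by linarith
  have hωx : ω = (1 - x ^ 2) / 2 := by
    rw [hω, eA, eB]; ring
  have hpos : 0 < (1 - x ^ 2) / 2 := by nlinarith
  rw [hωx] at lw
  have nsum : na + nb ≤ 1 := by linarith
  have nsum0 : 0 ≤ na + nb := by positivity
  have e8 : (1 - x ^ 2) / 2 ≤ nw ^ 2 * (na + nb) ^ 2 := by
    have : (2 * (nw * (na + nb))) ^ 2 = 4 * (nw ^ 2 * (na + nb) ^ 2) := by ring
    linarith
  have e9 : 1 ≤ (na + nb) ^ 2 := by
    by_contra hlt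
    rw [not_le] at hlt
    have : nw ^ 2 * (na + nb) ^ 2 < (1 - x ^ 2) / 2 :=
      calc nw ^ 2 * (na + nb) ^ 2
          ≤ (1 - x ^ 2) / 2 * (na + nb) ^ 2 := mul_le_mul_of_nonneg_right lw (sq_nonneg _)
        _ < (1 - x ^ 2) / 2 * 1 := mul_lt_mul_of_pos_left hlt hpos
        _ = (1 - x ^ 2) / 2 := mul_one _
    linarith
  have e10 : na + nb = 1 := by nlinarith
  rw [e10] at e8
  refine ⟨by linarith, by linarith, by linarith⟩

theorem short_two (hconn : G.Connected) (hG : G.IsAcyclic) (hψ : Flow G a ψ) {w : V}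
    (haw : G.Adj a w) (hwb : G.Adj w b) (hab : a ≠ b)
    (τ : ℝ) (hτ0 : 0 < τ) (hτle : √2 * τ ≤ π) (γ : ℂ) (hγ : ‖γ‖ = 1)
    (hτ : ψ τ = γ • Pi.single b 1) : Fintype.card V ≤ 3 := by
  classical
  have naw : a ≠ w := haw.ne
  have nwb : w ≠ b := hwb.ne
  obtain ⟨h0, c0⟩ := exists_side hG haw
  obtain ⟨h1, c1⟩ := exists_side hG hwb
  have v0b : h0 b = 1 := by
    have := c0.const_walk (.cons hwb .nil) (by
      simp only [SimpleGraph.Walk.edges_cons, SimpleGraph.Walk.edges_nil, List.mem_cons,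
        List.not_mem_nil, or_false]
      intro h
      rcases Sym2.eq_iff.1 h with h | h
      · exact naw h.1
      · exact hab h.1)
    rw [← this, c0.2.2.1]
  have v1a : h1 a = 0 := by
    have := c1.const_walk (.cons haw .nil) (by
      simp only [SimpleGraph.Walk.edges_cons, SimpleGraph.Walk.edges_nil, List.mem_cons,
        List.not_mem_nil, or_false]
      intro h
      rcases Sym2.eq_iff.1 h with h | h
      · exact naw h.1.symm
      · exact hab h.2.symm)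
    rw [this, c1.2.1]
  have hprod : ∀ v, (1 - h0 v) * h1 v = 0 := by
    intro v
    refine mem_of_closed hconn {v | (1 - h0 v) * h1 v = 0} a (by
      change (1 - h0 a) * h1 a = 0
      rw [v1a, mul_zero]) ?_ v
    intro u hu v huv
    change (1 - h0 u) * h1 u = 0 at hu
    change (1 - h0 v) * h1 v = 0
    rcases c0.2.2.2 u v huv with e0 | e0 | e0
    · rcases c1.2.2.2 u v huv with e1 | e1 | e1
      · rw [← e0, ← e1, hu]
      · rw [e1.2, v0b]; ring
      · rw [e1.2, c0.2.2.1]; ring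
    · rw [e0.2, c0.2.2.1]; ring
    · rw [e0.2, v1a]; ring
  have hle10 : ∀ v, h1 v ≤ h0 v := by
    intro v
    have := hprod v
    rcases c0.1 v with e | e
    · rcases c1.1 v with e' | e'
      · rw [e, e']
      · rw [e, e'] at this
        norm_num at this
    · rcases c1.1 v with e' | e'
      · rw [e, e']; norm_num
      · rw [e, e']
  have n1 : ∀ v, 0 ≤ h1 v := fun v => by rcases c1.1 v with e | e <;> rw [e] <;> norm_num
  have n2 : ∀ v, 0 ≤ 1 - h0 v := fun v => by rcases c0.1 v with e | e <;> rw [e] <;> norm_num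
  have n3 : ∀ v, 0 ≤ h0 v - h1 v := fun v => by linarith [hle10 v]
  set pA : ℝ → ℝ := fun t => 1 - expect h0 ψ t with hpA
  set pB : ℝ → ℝ := fun t => expect h1 ψ t with hpB
  set pW : ℝ → ℝ := fun t => 1 - pA t - pB t with hpW
  have hA : ∀ t, ‖ψ t a‖ ^ 2 ≤ pA t := fun t => by
    rw [sq_norm_eq, hpA]
    simp only
    rw [← expect_one_sub hψ]
    exact le_expect n2 t a (by rw [c0.2.1]; norm_num)
  have hB : ∀ t, ‖ψ t b‖ ^ 2 ≤ pB t := fun t => by
    rw [sq_norm_eq]; exact le_expect n1 t b c1.2.2.1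
  have hW : ∀ t, ‖ψ t w‖ ^ 2 ≤ pW t := fun t => by
    have h2 : pW t = expect (fun v => h0 v - h1 v) ψ t := by
      rw [hpW, hpA, hpB]
      unfold expect
      simp only [sub_mul, Finset.sum_sub_distrib]
      ring
    rw [h2, sq_norm_eq]
    exact le_expect n3 t w (by rw [c0.2.2.1, c1.2.1]; norm_num)
  have hA0 : ∀ t, 0 ≤ pA t := fun t => le_trans (sq_nonneg _) (hA t)
  have hB0 : ∀ t, 0 ≤ pB t := fun t => le_trans (sq_nonneg _) (hB t)
  have hW0 : ∀ t, 0 ≤ pW t := fun t => le_trans (sq_nonneg _) (hW t)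
  set x : ℝ → ℝ := fun t => pA t - pB t with hx
  have hWdef : ∀ t, pW t = 1 - pA t - pB t := fun t => rfl
  have hxdef : ∀ t, x t = pA t - pB t := fun t => rfl
  have hder : ∀ t, HasDerivAt x (-Flow.F ψ t w a - Flow.F ψ t b w) t := by
    intro t
    exact ((c0.hasDerivAt haw hψ t).const_sub 1).fun_sub (c1.hasDerivAt hwb hψ t)
  have hxb : ∀ t, |x t| ≤ 1 := fun t => by
    have := hW0 t
    rw [hWdef] at this
    rw [abs_le, hxdef]; constructor <;> linarith [hA0 t, hB0 t]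
  have hFle : ∀ t, |-Flow.F ψ t w a - Flow.F ψ t b w| ≤ 2 * (‖ψ t w‖ * (‖ψ t a‖ + ‖ψ t b‖)) := by
    intro t
    have f0 := Flow.abs_F_le (ψ := ψ) t w a
    have f1 := Flow.abs_F_le (ψ := ψ) t b w
    calc |-Flow.F ψ t w a - Flow.F ψ t b w| ≤ |-Flow.F ψ t w a| + |Flow.F ψ t b w| := abs_sub _ _
      _ = |Flow.F ψ t w a| + |Flow.F ψ t b w| := by rw [abs_neg]
      _ ≤ _ := by linarith
  -- the key algebraic inequality
  have hkey : ∀ t, (2 * (‖ψ t w‖ * (‖ψ t a‖ + ‖ψ t b‖))) ^ 2 ≤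
      2 * (1 - x t ^ 2) - 2 * (1 - (√(pA t) + √(pB t)) ^ 2) ^ 2 := by
    intro t
    have sA : √(pA t) ^ 2 = pA t := Real.sq_sqrt (hA0 t)
    have sB : √(pB t) ^ 2 = pB t := Real.sq_sqrt (hB0 t)
    exact alg_ineq (√(pA t)) (√(pB t)) (pW t) (x t) ‖ψ t a‖ ‖ψ t b‖ ‖ψ t w‖ (Real.sqrt_nonneg _)
      (Real.sqrt_nonneg _) (norm_nonneg _) (norm_nonneg _) (Real.le_sqrt_of_sq_le (hA t))
      (Real.le_sqrt_of_sq_le (hB t)) (hW t) (by rw [sA, sB]) (by rw [sA, sB])
  have hs2 : √2 ^ 2 = 2 := Real.sq_sqrt (by norm_num)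
  have hs20 : 0 < √2 := Real.sqrt_pos.2 (by norm_num)
  have hone : ∀ t, 0 ≤ 1 - x t ^ 2 := fun t => by
    have := abs_le.1 (hxb t)
    nlinarith
  have hd : ∀ t, |-Flow.F ψ t w a - Flow.F ψ t b w| ≤ √2 * √(1 - x t ^ 2) := by
    intro t
    refine (hFle t).trans ?_
    rw [← Real.sqrt_mul (by norm_num : (0 : ℝ) ≤ 2)]
    apply Real.le_sqrt_of_sq_le
    have := hkey t
    nlinarith [sq_nonneg (1 - (√(pA t) + √(pB t)) ^ 2)]
  have hx0 : x 0 = 1 := by
    rw [hxdef, hpA, hpB]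
    simp only
    rw [expect_zero hψ, expect_zero hψ, c0.2.1, v1a]; norm_num
  have hx1 : x τ = -1 := by
    rw [hxdef, hpA, hpB]
    simp only
    rw [expect_final h0 τ γ hγ hτ, expect_final h1 τ γ hγ hτ, v0b, c1.2.2.1]; norm_num
  have hge := time_ge x _ (√2) hs20.le hder hxb hd τ hτ0.le hx0 hx1
  have hcos : ∀ t ∈ Set.Ioo 0 τ, x t = cos (√2 * t) := fun t ht =>
    eq_cos x _ (√2) hs20.le hder hxb hd τ hx0 hx1 hτle t ht.1.le ht.2.le
  have habs : ∀ t ∈ Set.Ioo 0 τ, |-Flow.F ψ t w a - Flow.F ψ t b w| = √2 * √(1 - x t ^ 2) :=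
    fun t ht => abs_deriv_eq x _ (√2) hs20 hder hxb hd τ hx0 hx1 hτle t ht.1 ht.2
  have hxin : ∀ t ∈ Set.Ioo 0 τ, -1 < x t ∧ x t < 1 := by
    intro t ht
    have h1 := hcos t ht
    have h2 : cos (√2 * t) < 1 := by
      rw [← cos_zero]
      apply cos_lt_cos_of_nonneg_of_le_pi le_rfl
      · nlinarith [ht.2]
      · exact mul_pos hs20 ht.1
    have h3 : -1 < cos (√2 * t) := by
      rw [← cos_pi]
      apply cos_lt_cos_of_nonneg_of_le_pi
      · exact (mul_pos hs20 ht.1).le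
      · exact le_rfl
      · have : √2 * t < √2 * τ := mul_lt_mul_of_pos_left ht.2 hs20
        linarith
    rw [h1]
    exact ⟨h3, h2⟩
  have hall : ∀ t ∈ Set.Ioo 0 τ, ‖ψ t w‖ ^ 2 = (1 - x t ^ 2) / 2 ∧ ‖ψ t a‖ = (1 + x t) / 2 ∧
      ‖ψ t b‖ = (1 - x t) / 2 := by
    intro t ht
    have e1 := habs t ht
    have e2 := hFle t
    rw [e1] at e2
    have e3 : 2 * (1 - x t ^ 2) ≤ (2 * (‖ψ t w‖ * (‖ψ t a‖ + ‖ψ t b‖))) ^ 2 := by
      have := pow_le_pow_left₀ (by positivity) e2 2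
      rw [mul_pow, hs2, Real.sq_sqrt (hone t)] at this
      exact this
    have sA : √(pA t) ^ 2 = pA t := Real.sq_sqrt (hA0 t)
    have sB : √(pB t) ^ 2 = pB t := Real.sq_sqrt (hB0 t)
    exact alg_eq (√(pA t)) (√(pB t)) (pW t) (x t) ‖ψ t a‖ ‖ψ t b‖ ‖ψ t w‖ (Real.sqrt_nonneg _)
      (Real.sqrt_nonneg _) (norm_nonneg _) (norm_nonneg _) (Real.le_sqrt_of_sq_le (hA t))
      (Real.le_sqrt_of_sq_le (hB t)) (hW t) (by rw [sA, sB]) (by rw [sA, sB])
      (hxin t ht).1 (hxin t ht).2 e3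
  have hvan : ∀ v, v ≠ a → v ≠ w → v ≠ b → ∀ t ∈ Set.Ioo 0 τ, ψ t v = 0 := by
    intro v hva hvw hvb t ht
    have e1 := norm_sum_le hψ t {v, a, w, b}
    obtain ⟨f1, f2, f3⟩ := hall t ht
    rw [Finset.sum_insert (by simp [hva, hvb, hvw]), Finset.sum_insert (by simp [naw, hab]),
      Finset.sum_insert (by simp [nwb]), Finset.sum_singleton, f1, f2, f3] at e1
    have h2 : ‖ψ t v‖ ^ 2 ≤ 0 := by nlinarith
    have h3 : ‖ψ t v‖ = 0 := by
      have := sq_nonneg ‖ψ t v‖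
      exact pow_eq_zero_iff two_ne_zero |>.1 (le_antisymm h2 this)
    exact norm_eq_zero.1 h3
  -- the time at which `x = 4/5`
  set t0 : ℝ := arccos (4 / 5) / √2 with ht0def
  have hst0 : √2 * t0 = arccos (4 / 5) := by
    rw [ht0def]
    field_simp
  have ht0 : t0 ∈ Set.Ioo 0 τ := by
    constructor
    · rw [ht0def]
      have : 0 < arccos (4 / 5) := by rw [arccos_pos]; norm_num
      positivity
    · have e1 : arccos (4 / 5) < π := by
        rw [← arccos_neg_one]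
        exact arccos_lt_arccos (by norm_num) (by norm_num) (by norm_num)
      have e2 : √2 * t0 < √2 * τ := by rw [hst0]; linarith
      exact lt_of_mul_lt_mul_left e2 hs20.le
  have hxt0 : x t0 = 4 / 5 := by
    rw [hcos t0 ht0, hst0, cos_arccos (by norm_num) (by norm_num)]
  obtain ⟨g1, g2, g3⟩ := hall t0 ht0
  rw [hxt0] at g1 g2 g3
  norm_num at g1 g2 g3
  have hclosed : ∀ u ∈ ({a, w, b} : Set V), ∀ v, G.Adj u v → v ∈ ({a, w, b} : Set V) := by
    intro u hu v huv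
    by_contra hv
    simp only [Set.mem_insert_iff, Set.mem_singleton_iff, not_or] at hv
    have e1 := sum_eq_zero_of_vanish hψ τ v (hvan v hv.1 hv.2.1 hv.2.2) _ ht0
    have e2 : ∑ u, (if G.Adj v u then ψ t0 u else 0) =
        ∑ u ∈ ({a, w, b} : Finset V), (if G.Adj v u then ψ t0 u else 0) := by
      symm
      apply Finset.sum_subset (Finset.subset_univ _)
      intro c _ hc'
      simp only [Finset.mem_insert, Finset.mem_singleton, not_or] at hc'
      rw [hvan c hc'.1 hc'.2.1 hc'.2.2 _ ht0]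
      simp
    rw [e2, Finset.sum_insert (by simp [naw, hab]), Finset.sum_insert (by simp [nwb]),
      Finset.sum_singleton] at e1
    have nw : ‖ψ t0 w‖ < 4 / 5 := by nlinarith [norm_nonneg (ψ t0 w)]
    by_cases ha' : G.Adj v a
    · rw [if_pos ha'] at e1
      have e3 : ψ t0 a = -((if G.Adj v w then ψ t0 w else 0) + (if G.Adj v b then ψ t0 b else 0)) :=
        eq_neg_of_add_eq_zero_left e1
      have e4 : ‖ψ t0 a‖ ≤ ‖ψ t0 w‖ + ‖ψ t0 b‖ := by
        rw [e3, norm_neg]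
        refine (norm_add_le _ _).trans (add_le_add ?_ ?_)
        · split_ifs
          · exact le_rfl
          · rw [norm_zero]; exact norm_nonneg _
        · split_ifs
          · exact le_rfl
          · rw [norm_zero]; exact norm_nonneg _
      linarith
    · rw [if_neg ha', zero_add] at e1
      by_cases hw' : G.Adj v w
      · rw [if_pos hw'] at e1
        by_cases hb' : G.Adj v b
        · rw [if_pos hb'] at e1
          have e3 : ψ t0 w = -ψ t0 b := eq_neg_of_add_eq_zero_left e1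
          rw [e3, norm_neg, g3] at g1
          norm_num at g1
        · rw [if_neg hb', add_zero] at e1
          rw [e1, norm_zero] at g1
          norm_num at g1
      · rw [if_neg hw', zero_add] at e1
        by_cases hb' : G.Adj v b
        · rw [if_pos hb'] at e1
          rw [e1, norm_zero] at g3
          norm_num at g3
        · simp only [Set.mem_insert_iff, Set.mem_singleton_iff] at hu
          rcases hu with hu | hu | hu
          · rw [hu] at huv; exact ha' huv.symm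
          · rw [hu] at huv; exact hw' huv.symm
          · rw [hu] at huv; exact hb' huv.symm
  have hmem : ∀ v, v ∈ ({a, w, b} : Finset V) := by
    intro v
    have := mem_of_closed hconn {a, w, b} a (by simp) hclosed v
    simpa using this
  calc Fintype.card V = (Finset.univ : Finset V).card := Finset.card_univ.symm
    _ ≤ ({a, w, b} : Finset V).card := Finset.card_le_card fun v _ => hmem v
    _ ≤ 3 := Finset.card_le_three

end MP_8f05cb_co
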