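import Mathlib
import Pool.Agent.Lib.MP_8f05cb_co.TreeShort

namespace MP_8f05cb_co

open Real

variable {V : Type} [Fintype V] [DecidableEq V] {G : SimpleGraph V} {a b : V} {ψ : ℝ → V → ℂ}

/-- A fast perfect state transfer in a tree is only possible on at most three vertices. -/
theorem card_le_three (hconn : G.Connected) (hG : G.IsAcyclic) (hψ : Flow G a ψ) (hab : a ≠ b)
    (p : G.Walk a b) (hp : p.IsPath) (τ : ℝ) (hτ0 : 0 < τ) (γ : ℂ) (hγ : ‖γ‖ = 1)
    (hτ : ψ τ = γ • Pi.single b 1) (heven : Even p.length → √2 * τ ≤ π)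
    (hodd : Odd p.length → τ ≤ π / 2) : Fintype.card V ≤ 3 := by
  have hpi : π < 3.15 := Real.pi_lt_d2
  have hs2 : √2 ^ 2 = 2 := Real.sq_sqrt (by norm_num)
  have hs20 : 0 < √2 := Real.sqrt_pos.2 (by norm_num)
  have hs : 1.41 < √2 := by nlinarith
  cases p with
  | nil => exact absurd rfl hab
  | @cons _ v1 _ h01 p1 =>
    cases p1 with
    | nil =>
      exact (short_one hconn hG hψ h01 τ hτ0 (hodd (by simp)) γ hγ hτ).trans (by norm_num)
    | @cons _ v2 _ h12 p2 =>
      cases p2 with
      | nil =>
        exact short_two hconn hG hψ h01 h12 hab τ hτ0 (heven (by simp)) γ hγ hτ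
      | @cons _ v3 _ h23 p3 =>
        cases p3 with
        | nil =>
          exfalso
          have h1 := time_ge_three hG hψ h01 h12 h23 hp τ hτ0.le γ hγ hτ
          have h2 := hodd (by simp [Nat.odd_iff])
          linarith
        | @cons _ v4 _ h34 q =>
          exfalso
          have h1 := time_ge_four hG hψ h01 h12 h23 h34 q hp τ hτ0.le γ hγ hτ
          rcases Nat.even_or_odd (SimpleGraph.Walk.cons h01 (.cons h12 (.cons h23
            (.cons h34 q)))).length with h | h
          · have h2 := heven h
            nlinarith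
          · have h2 := hodd h
            linarith

end MP_8f05cb_co
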