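import Mathlib
import Pool.Agent.Lib.MP_8f05cb_co.Defs
import Pool.Agent.Lib.MP_8f05cb_co.TreeMain
import Pool.Agent.Lib.MP_8f05cb_co.TimeNorm

namespace MP_8f05cb_co

/-- No tree on more than three vertices admits perfect state transfer. -/
theorem tree_no_pst {V : Type} [Fintype V] (G : SimpleGraph V) (hT : G.IsTree) (hP : HasPST G) :
    Fintype.card V ≤ 3 := by
  classical
  obtain ⟨a, b, hab, t, ht⟩ := hP
  let c : G.Coloring Bool := G.recolorOfEquiv finTwoEquiv hT.coloringTwo
  let col : V → ℂ := fun v => if c v then 1 else -1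
  have hcol : ∀ v, col v = 1 ∨ col v = -1 := by
    intro v
    simp only [col]
    split_ifs
    · exact Or.inl rfl
    · exact Or.inr rfl
  have hadj : ∀ u v, G.Adj u v → col u = -col v := by
    intro u v huv
    have h := c.valid huv
    simp only [col]
    cases hu : c u <;> cases hv : c v
    · exact absurd (hu.trans hv.symm) h
    · simp
    · simp
    · exact absurd (hu.trans hv.symm) h
  obtain ⟨ψ, τ, γ, hflow, hτ0, hγ, hτ, h1, h2⟩ := exists_fast G a b hab col hcol hadj ⟨t, ht⟩
  obtain ⟨p, hp⟩ := (hT.connected.preconnected a b).exists_isPath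
  have hcolab : col a = col b ↔ (c a ↔ c b) := by
    simp only [col]
    cases ha : c a <;> cases hb : c b
    · simp
    · simp
      norm_num
    · simp
      norm_num
    · simp
  refine card_le_three hT.connected hT.isAcyclic hflow hab p hp τ hτ0 γ hγ hτ ?_ ?_
  · intro he
    exact h1 (hcolab.2 ((c.even_length_iff_congr p).1 he))
  · intro ho
    refine h2 fun h => ?_
    have := (c.even_length_iff_congr p).2 (hcolab.1 h)
    exact (Nat.not_even_iff_odd.2 ho) this

/-- the lower bound -/
theorem le_m (n : ℕ) (hn : 4 ≤ n) : (n : ℕ∞) ≤ m n := by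
  refine le_iInf₂ fun G hG => ?_
  have h1 := hG.1.card_vert_le_card_edgeSet_add_one
  rw [Nat.card_eq_fintype_card, Fintype.card_fin] at h1
  rw [Nat.card_coe_set_eq] at h1
  by_contra hlt
  rw [not_le] at hlt
  have h2 : G.edgeSet.ncard < n := by exact_mod_cast hlt
  have hT : G.IsTree := by
    rw [SimpleGraph.isTree_iff_connected_and_card]
    refine ⟨hG.1, ?_⟩
    rw [Nat.card_coe_set_eq, Nat.card_eq_fintype_card, Fintype.card_fin]
    omega
  have h3 := tree_no_pst G hT hG.2
  rw [Fintype.card_fin] at h3
  omega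

end MP_8f05cb_co
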