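import Mathlib
import Pool.Agent.Lib.MP_8f05cb_co.Transport
import Pool.Agent.Lib.MP_8f05cb_co.TimeNorm

namespace MP_8f05cb_co

open scoped Matrix

variable {V : Type} [Fintype V] [DecidableEq V]

theorem exp_mulVec_neg (A : Matrix V V ℂ) (v : V → ℂ) (s : ℝ) (hs : 0 < s)
    (h : A *ᵥ (A *ᵥ v) = ((s : ℂ) ^ 2) • v) :
    NormedSpace.exp ((Complex.I * ((Real.pi / s : ℝ) : ℂ)) • A) *ᵥ v = -v := by
  have hs0 : (s : ℂ) ≠ 0 := by exact_mod_cast hs.ne'
  set τ : ℂ := Complex.I * ((Real.pi / s : ℝ) : ℂ) with hτ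
  have hτs : τ * s = Real.pi * Complex.I := by
    rw [hτ]
    push_cast
    field_simp
  set p : V → ℂ := A *ᵥ v + (s : ℂ) • v with hp
  set q : V → ℂ := A *ᵥ v - (s : ℂ) • v with hq
  have hAp : A *ᵥ p = (s : ℂ) • p := by
    rw [hp, Matrix.mulVec_add, Matrix.mulVec_smul, h, smul_add, smul_smul, ← pow_two]
    rw [add_comm]
  have hAq : A *ᵥ q = (-(s : ℂ)) • q := by
    rw [hq, Matrix.mulVec_sub, Matrix.mulVec_smul, h, smul_sub, smul_smul, neg_smul,
      neg_mul, ← pow_two, neg_smul]
    abel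
  have hEp : NormedSpace.exp (τ • A) *ᵥ p = -p := by
    rw [exp_mulVec_eigen (τ • A) p (τ * s) (by rw [Matrix.smul_mulVec, hAp, smul_smul]), hτs,
      Complex.exp_pi_mul_I, neg_smul, one_smul]
  have hEq : NormedSpace.exp (τ • A) *ᵥ q = -q := by
    rw [exp_mulVec_eigen (τ • A) q (-(τ * s)) (by
      rw [Matrix.smul_mulVec, hAq, smul_smul, mul_neg]), hτs, Complex.exp_neg,
      Complex.exp_pi_mul_I]
    norm_num
  have hv : v = (1 / (2 * (s : ℂ))) • (p - q) := by
    rw [hp, hq]
    funext x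
    simp only [Pi.smul_apply, Pi.sub_apply, Pi.add_apply, smul_eq_mul]
    field_simp
    ring
  calc NormedSpace.exp (τ • A) *ᵥ v
      = NormedSpace.exp (τ • A) *ᵥ ((1 / (2 * (s : ℂ))) • (p - q)) := by
        rw [← hv]
    _ = (1 / (2 * (s : ℂ))) • (-p - -q) := by
        rw [Matrix.mulVec_smul, Matrix.mulVec_sub, hEp, hEq]
    _ = -((1 / (2 * (s : ℂ))) • (p - q)) := by
        rw [← smul_neg]
        congr 1
        abel
    _ = -v := by rw [← hv]

/-- complete bipartite graphs with one side of size two admit perfect state transfer -/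
theorem K2_hasPST (k : ℕ) (hk : 0 < k) : HasPST (completeBipartiteGraph Bool (Fin k)) := by
  classical
  set G := completeBipartiteGraph Bool (Fin k) with hG
  have hl : ∀ (f : Bool ⊕ Fin k → ℂ) (b : Bool), (G.adjMatrix ℂ *ᵥ f) (.inl b) =
      ∑ j, f (.inr j) := by
    intro f b
    rw [adj_mulVec, Fintype.sum_sum_type]
    simp [hG]
  have hr : ∀ (f : Bool ⊕ Fin k → ℂ) (j : Fin k), (G.adjMatrix ℂ *ᵥ f) (.inr j) =
      f (.inl true) + f (.inl false) := by
    intro f b
    rw [adj_mulVec, Fintype.sum_sum_type]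
    simp [hG]
  have hab : (.inl true : Bool ⊕ Fin k) ≠ .inl false := by simp
  set s : ℝ := Real.sqrt (2 * k) with hs
  have hs0 : 0 < s := by
    apply Real.sqrt_pos.2
    positivity
  have hs2 : ((s : ℂ)) ^ 2 = 2 * k := by
    have : s ^ 2 = 2 * k := Real.sq_sqrt (by positivity)
    exact_mod_cast this
  have h1 : G.adjMatrix ℂ *ᵥ (G.adjMatrix ℂ *ᵥ (Pi.single (.inl true) 1 + Pi.single (.inl false) 1)) =
      ((s : ℂ) ^ 2) • (Pi.single (.inl true) 1 + Pi.single (.inl false) 1) := by
    funext v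
    rcases v with v | v
    · rw [hl]
      simp only [hr]
      rw [hs2]
      cases v <;> simp <;> ring
    · rw [hr]
      simp only [hl]
      simp
  have h2 : G.adjMatrix ℂ *ᵥ (Pi.single (.inl true) 1 - Pi.single (.inl false) 1) = 0 := by
    funext v
    rcases v with v | v
    · rw [hl]; simp
    · rw [hr]; simp
  have hEf := exp_mulVec_neg (G.adjMatrix ℂ) _ s hs0 h1
  have hEg : NormedSpace.exp ((Complex.I * ((Real.pi / s : ℝ) : ℂ)) • G.adjMatrix ℂ) *ᵥ
      (Pi.single (.inl true) 1 - Pi.single (.inl false) 1) = (Pi.single (.inl true) 1 - Pi.single (.inl false) 1) := by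
    rw [exp_mulVec_eigen _ _ 0 (by rw [Matrix.smul_mulVec, h2, smul_zero, zero_smul])]
    simp
  refine ⟨.inl true, .inl false, hab, Real.pi / s, (pstAt_iff G _ _ _).2 ⟨-1, by simp, ?_⟩⟩
  have h2' : NormedSpace.exp ((Complex.I * ((Real.pi / s : ℝ) : ℂ)) • G.adjMatrix ℂ) *ᵥ
      ((2 : ℂ) • Pi.single (.inl true) 1) = (2 : ℂ) • ((-1 : ℂ) • Pi.single (.inl false) 1) := by
    have : (2 : ℂ) • (Pi.single (.inl true) 1 : Bool ⊕ Fin k → ℂ) =
        (Pi.single (.inl true) 1 + Pi.single (.inl false) 1) + (Pi.single (.inl true) 1 - Pi.single (.inl false) 1) := by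
      rw [two_smul]; abel
    rw [this, Matrix.mulVec_add, hEf, hEg, two_smul]
    funext x
    simp only [Pi.neg_apply, Pi.add_apply, Pi.sub_apply, Pi.smul_apply, smul_eq_mul]
    ring
  rw [Matrix.mulVec_smul] at h2'
  have h3' := smul_right_injective (Bool ⊕ Fin k → ℂ) (two_ne_zero (α := ℂ)) h2'
  exact h3'

theorem K2_connected (k : ℕ) (hk : 0 < k) : (completeBipartiteGraph Bool (Fin k)).Connected := by
  rw [SimpleGraph.connected_iff_exists_forall_reachable]
  refine ⟨.inl true, ?_⟩
  have h1 : ∀ (b : Bool) (j : Fin k), (completeBipartiteGraph Bool (Fin k)).Adj (.inl b) (.inr j) := by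
    intro b j
    simp
  rintro (b | j)
  · exact (h1 true ⟨0, hk⟩).reachable.trans (h1 b ⟨0, hk⟩).reachable.symm
  · exact (h1 true j).reachable

theorem K2_edges (k : ℕ) : (completeBipartiteGraph Bool (Fin k)).edgeSet.ncard ≤ 2 * k := by
  have h : (completeBipartiteGraph Bool (Fin k)).edgeSet ⊆
      Set.range (fun p : Bool × Fin k => (s(.inl p.1, .inr p.2) : Sym2 (Bool ⊕ Fin k))) := by
    intro e
    induction e with
    | _ u v =>
      intro he
      rw [SimpleGraph.mem_edgeSet] at he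
      rcases u with u | u <;> rcases v with v | v
      · simp at he
      · exact ⟨(u, v), rfl⟩
      · exact ⟨(v, u), Sym2.eq_swap⟩
      · simp at he
  calc (completeBipartiteGraph Bool (Fin k)).edgeSet.ncard
      ≤ (Set.range (fun p : Bool × Fin k =>
          (s(.inl p.1, .inr p.2) : Sym2 (Bool ⊕ Fin k)))).ncard :=
        Set.ncard_le_ncard h (Set.finite_range _)
    _ ≤ 2 * k := by
        rw [← Set.image_univ]
        refine (Set.ncard_image_le Set.finite_univ).trans ?_
        rw [Set.ncard_univ, Nat.card_eq_fintype_card]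
        simp

theorem m_le_two_mul (n : ℕ) (hn : 3 ≤ n) : m n ≤ ((2 * n - 4 : ℕ) : ℕ∞) := by
  obtain ⟨k, rfl⟩ : ∃ k, n = 2 + (k + 1) := ⟨n - 3, by omega⟩
  have h1 := m_le_of_graph _ (K2_connected (k + 1) (by omega)) (K2_hasPST (k + 1) (by omega))
  rw [Fintype.card_sum, Fintype.card_bool, Fintype.card_fin] at h1
  refine h1.trans ?_
  have h2 := K2_edges (k + 1)
  have h3 : 2 * (2 + (k + 1)) - 4 = 2 * (k + 1) := by omega
  rw [h3]
  exact_mod_cast h2

/-- connectivity bound -/
theorem sub_one_le_m (n : ℕ) : ((n - 1 : ℕ) : ℕ∞) ≤ m n := by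
  refine le_iInf₂ fun G hG => ?_
  have h1 := hG.1.card_vert_le_card_edgeSet_add_one
  rw [Nat.card_eq_fintype_card, Fintype.card_fin, Nat.card_coe_set_eq] at h1
  have : n - 1 ≤ G.edgeSet.ncard := by omega
  exact_mod_cast this

theorem m_three : m 3 = 2 := by
  apply le_antisymm
  · exact m_le_two_mul 3 le_rfl
  · exact sub_one_le_m 3

theorem complete_two_hasPST : HasPST (⊤ : SimpleGraph Bool) := by
  classical
  set G := (⊤ : SimpleGraph Bool) with hG
  have hA : ∀ (f : Bool → ℂ) (b : Bool), (G.adjMatrix ℂ *ᵥ f) b = f (!b) := by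
    intro f b
    rw [adj_mulVec, Fintype.sum_bool]
    cases b <;> simp [hG]
  have h1 : G.adjMatrix ℂ *ᵥ (Pi.single true 1 + Pi.single false 1) =
      (1 : ℂ) • (Pi.single true 1 + Pi.single false 1) := by
    funext v
    rw [hA]
    cases v <;> simp
  have h2 : G.adjMatrix ℂ *ᵥ (Pi.single true 1 - Pi.single false 1) =
      (-1 : ℂ) • (Pi.single true 1 - Pi.single false 1) := by
    funext v
    rw [hA]
    cases v <;> simp
  set E := NormedSpace.exp ((Complex.I * ((Real.pi / 2 : ℝ) : ℂ)) • G.adjMatrix ℂ) with hE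
  have hexp : Complex.exp (Complex.I * ((Real.pi / 2 : ℝ) : ℂ)) = Complex.I := by
    have : Complex.I * ((Real.pi / 2 : ℝ) : ℂ) = Real.pi / 2 * Complex.I := by push_cast; ring
    rw [this, Complex.exp_pi_div_two_mul_I]
  have hE1 : E *ᵥ (Pi.single true 1 + Pi.single false 1) =
      Complex.I • (Pi.single true 1 + Pi.single false 1) := by
    rw [hE, exp_mulVec_eigen _ _ (Complex.I * ((Real.pi / 2 : ℝ) : ℂ)) (by
      rw [Matrix.smul_mulVec, h1, one_smul]), hexp]
  have hE2 : E *ᵥ (Pi.single true 1 - Pi.single false 1) =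
      (-Complex.I) • (Pi.single true 1 - Pi.single false 1) := by
    rw [hE, exp_mulVec_eigen _ _ (-(Complex.I * ((Real.pi / 2 : ℝ) : ℂ))) (by
      rw [Matrix.smul_mulVec, h2, smul_smul, mul_neg, mul_one]), Complex.exp_neg, hexp,
      Complex.inv_I]
  refine ⟨true, false, by simp, Real.pi / 2, (pstAt_iff G _ _ _).2 ⟨Complex.I, by simp, ?_⟩⟩
  have h2' : E *ᵥ ((2 : ℂ) • Pi.single true 1) = (2 : ℂ) • (Complex.I • Pi.single false 1) := by
    have : (2 : ℂ) • (Pi.single true 1 : Bool → ℂ) =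
        (Pi.single true 1 + Pi.single false 1) + (Pi.single true 1 - Pi.single false 1) := by
      rw [two_smul]; abel
    rw [this, Matrix.mulVec_add, hE1, hE2, two_smul]
    funext x
    simp only [Pi.add_apply, Pi.sub_apply, Pi.smul_apply, smul_eq_mul]
    ring
  rw [Matrix.mulVec_smul] at h2'
  have h3' := smul_right_injective (Bool → ℂ) (two_ne_zero (α := ℂ)) h2'
  exact h3'

theorem m_two : m 2 = 1 := by
  apply le_antisymm
  · have h0 : (⊤ : SimpleGraph Bool).Connected := SimpleGraph.connected_top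
    have h1 := m_le_of_graph (⊤ : SimpleGraph Bool) h0 complete_two_hasPST
    rw [Fintype.card_bool] at h1
    refine h1.trans ?_
    have h2 : (⊤ : SimpleGraph Bool).edgeSet.ncard ≤ 1 := by
      have h : (⊤ : SimpleGraph Bool).edgeSet ⊆ {s(true, false)} := by
        intro e
        induction e with
        | _ u v =>
          intro he
          rw [SimpleGraph.mem_edgeSet, SimpleGraph.top_adj] at he
          cases u <;> cases v
          · exact absurd rfl he
          · exact Sym2.eq_swap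
          · rfl
          · exact absurd rfl he
      calc _ ≤ ({s(true, false)} : Set (Sym2 Bool)).ncard :=
            Set.ncard_le_ncard h (Set.finite_singleton _)
        _ = 1 := Set.ncard_singleton _
    exact_mod_cast h2
  · exact sub_one_le_m 2

end MP_8f05cb_co
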