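import Mathlib
import Pool.Agent.Lib.MP_8f05cb_co.Fine

namespace MP_8f05cb_co

/-- choice of the scale -/
theorem exists_scale (A B n : ℕ) (hA : 1 ≤ A) (hn : A * 31 + B ≤ n) :
    ∃ j, A * (2 * (2 * j + 5) ^ 2 - 19) + B ≤ n ∧ n < A * (2 * (2 * (j + 1) + 5) ^ 2 - 19) + B := by
  classical
  have hex : ∃ j, n < A * (2 * (2 * j + 5) ^ 2 - 19) + B := by
    refine ⟨n, ?_⟩
    have h1 : n < 2 * (2 * n + 5) ^ 2 - 19 := by
      have : 19 + n < 2 * (2 * n + 5) ^ 2 := by nlinarith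
      omega
    calc n < 2 * (2 * n + 5) ^ 2 - 19 := h1
      _ ≤ A * (2 * (2 * n + 5) ^ 2 - 19) := Nat.le_mul_of_pos_left _ hA
      _ ≤ _ := Nat.le_add_right _ _
  have h0 : ¬ n < A * (2 * (2 * 0 + 5) ^ 2 - 19) + B := by
    norm_num
    exact hn
  obtain ⟨j, hj⟩ : ∃ j, Nat.find hex = j + 1 := by
    refine Nat.exists_eq_succ_of_ne_zero ?_
    intro h
    have := Nat.find_spec hex
    rw [h] at this
    exact h0 this
  refine ⟨j, ?_, ?_⟩
  · by_contra hlt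
    have := Nat.find_min' hex (m := j) (by omega)
    omega
  · have := Nat.find_spec hex
    rwa [hj] at this

theorem m_le_even_n (n : ℕ) (he : Even n) (hn : 1830 ≤ n) : m n ≤ (n : ℕ∞) := by
  obtain ⟨j, h1, h2⟩ := exists_scale 52 218 n (by norm_num) (by omega)
  set c := 2 * j + 5 with hc
  obtain ⟨M, hM⟩ : ∃ M, M + 19 = 2 * c ^ 2 := by
    refine ⟨2 * c ^ 2 - 19, ?_⟩
    have : 19 ≤ 2 * c ^ 2 := by nlinarith
    omega
  have e1 : 2 * c ^ 2 - 19 = M := by omega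
  have e2 : 2 * (2 * (j + 1) + 5) ^ 2 - 19 = M + 8 * c + 8 := by
    have : 2 * (2 * (j + 1) + 5) ^ 2 = 2 * c ^ 2 + 8 * c + 8 := by rw [hc]; ring
    omega
  rw [e1] at h1
  rw [e2] at h2
  have hc5 : 5 ≤ c := by omega
  have hMc : M + 19 = 2 * (c * c) := by rw [hM]; ring
  have hcc : 5 * c ≤ c * c := Nat.mul_le_mul_right c hc5
  obtain ⟨t, ht⟩ := he
  have h3 : n ≤ 222 * M + 46 := by
    nlinarith
  obtain ⟨s, hs⟩ : ∃ s, 222 * M + 46 = n + 2 * s := ⟨111 * M + 23 - t, by omega⟩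
  have hs2 : s + 86 ≤ 85 * M := by omega
  have hu : s = 85 * (s / 85) + s % 85 := (Nat.div_add_mod s 85).symm
  have hv : s % 85 < 85 := Nat.mod_lt _ (by norm_num)
  obtain ⟨v, hw⟩ : ∃ v, s / 85 + v + 2 = M := ⟨M - s / 85 - 2, by omega⟩
  obtain ⟨t1, t2, t3⟩ := tabE_ok (s % 85) hv
  have key := m_le_even_fine c (s / 85) v _ _ _ _ ⟨j + 2, by omega⟩ (by omega) (by omega) t1 t2
  have hn' : n = 46 + 52 * (s / 85) + 222 * v +
      sz3 (tabE.getD (s % 85) default).1 (tabE.getD (s % 85) default).2.1 +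
      sz3 (tabE.getD (s % 85) default).2.2.1 (tabE.getD (s % 85) default).2.2.2 := by omega
  rw [← hn'] at key
  exact key

theorem m_le_odd_n (n : ℕ) (he : Odd n) (hn : 2877 ≤ n) : m n ≤ (n : ℕ∞) := by
  obtain ⟨j, h1, h2⟩ := exists_scale 85 242 n (by norm_num) (by omega)
  set c := 2 * j + 5 with hc
  obtain ⟨M, hM⟩ : ∃ M, M + 19 = 2 * c ^ 2 := by
    refine ⟨2 * c ^ 2 - 19, ?_⟩
    have : 19 ≤ 2 * c ^ 2 := by nlinarith
    omega
  have e1 : 2 * c ^ 2 - 19 = M := by omega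
  have e2 : 2 * (2 * (j + 1) + 5) ^ 2 - 19 = M + 8 * c + 8 := by
    have : 2 * (2 * (j + 1) + 5) ^ 2 = 2 * c ^ 2 + 8 * c + 8 := by rw [hc]; ring
    omega
  rw [e1] at h1
  rw [e2] at h2
  have hc5 : 5 ≤ c := by omega
  have hMc : M + 19 = 2 * (c * c) := by rw [hM]; ring
  have hcc : 5 * c ≤ c * c := Nat.mul_le_mul_right c hc5
  obtain ⟨t, ht⟩ := he
  have h3 : n ≤ 253 * M + 72 := by
    have h4 : 168 * M + 170 ≥ 680 * c + 680 + 342 := by
      rcases Nat.lt_or_ge c 7 with h | h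
      · have hc5' : c = 5 := by omega
        rw [hc5'] at hMc ⊢
        omega
      · have hcc' : 7 * c ≤ c * c := Nat.mul_le_mul_right c h
        nlinarith
    omega
  obtain ⟨s, hs⟩ : ∃ s, 253 * M + 72 = n + 2 * s := by
    refine ⟨(253 * M + 72 - n) / 2, ?_⟩
    have : (253 * M + 72 - n) % 2 = 0 := by omega
    omega
  have hs2 : s + 85 ≤ 84 * M := by omega
  have hu : s = 84 * (s / 84) + s % 84 := (Nat.div_add_mod s 84).symm
  have hv : s % 84 < 84 := Nat.mod_lt _ (by norm_num)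
  obtain ⟨v, hw⟩ : ∃ v, s / 84 + v + 2 = M := ⟨M - s / 84 - 2, by omega⟩
  obtain ⟨t1, t2, t3⟩ := tabO_ok (s % 84) hv
  have key := m_le_odd_fine c (s / 84) v _ _ _ _ _ _ M ⟨j + 2, by omega⟩ (by omega) hw hM t1 t2
  have hn' : n = 72 + 20 * M + 65 * (s / 84) + 233 * v +
      sz4 (tabO.getD (s % 84) default).1 (tabO.getD (s % 84) default).2.1
        (tabO.getD (s % 84) default).2.2.1 +
      sz4 (tabO.getD (s % 84) default).2.2.2.1 (tabO.getD (s % 84) default).2.2.2.2.1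
        (tabO.getD (s % 84) default).2.2.2.2.2 := by omega
  rw [← hn'] at key
  exact key

/-- the upper bound -/
theorem m_le (n : ℕ) (hn : 2876 ≤ n) : m n ≤ (n : ℕ∞) := by
  rcases Nat.even_or_odd n with h | h
  · exact m_le_even_n n h (by omega)
  · refine m_le_odd_n n h ?_
    obtain ⟨t, ht⟩ := h
    omega

end MP_8f05cb_co
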